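import Pool.Agent.Work.MP_ff0f6a_lc.SC.Stmt

/-!
The attack on an unbalanced state (step B1).
-/

namespace Pool.Agent.Chomp.SC

open Finset Function

theorem attack_low {h : ℕ → ℕ → ℕ} (hb : ∀ κ e, h κ e ≤ tau κ e + 1) (κ e : ℕ) :
    ∀ κ' e', Mach.low h κ e κ' e' ≤ tau κ' e' + 1 := by
  intro κ' e'
  unfold Mach.low
  split_ifs with hc
  · obtain ⟨rfl, rfl⟩ := hc
    have := hb κ' e'
    omega
  · exact hb κ' e'

theorem attack_in {P : Mach} {s : Finset (ℕ × ℕ)} (hi : P.In s) (u : ℕ × ℕ) :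
    P.In (s.erase u) := fun v hv => hi v (mem_of_mem_erase hv)

theorem p_attack (h0 : S_Gok) (hv : S_vs) (hd : S_deg) (hg : S_goal) (hs : S_step) (hk : S_kill)
    (hl : S_lose) : S_attack := by
  intro P hP
  have hG := h0 P hP
  have key : ∀ n : ℕ, ∀ (s : Finset (ℕ × ℕ)) (h : ℕ → ℕ → ℕ), (P.vs s h).card = n → P.In s →
      (∀ κ e, h κ e ≤ tau κ e + 1) →
      (P.G.ClO (P.vs s h) → ¬ P.Bal s h → Res true (P.G.cx (P.vs s h) false)) ∧
      (P.G.ClE (P.vs s h) →
        (∀ u ∈ s, Odd (P.G.deg (P.vs s h) (u.1, u.2, 0)) → ¬ P.Bal (s.erase u) h) →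
        (∀ κ e, P.Fr s h κ e → ¬ P.Bal s (Mach.low h κ e)) →
        Res false (P.G.cx (P.vs s h) false)) := by
    intro n
    induction n using Nat.strong_induction_on with
    | _ n ih =>
    intro s h hn hi hb
    obtain ⟨tri, mem, er1, er2, -⟩ := hv P hP s h hi hb
    obtain ⟨-, dg2, dgw⟩ := hd P hP s h hi hb
    obtain ⟨l1, l2, -, l4⟩ := hl _ P.G hG (P.vs s h) false
    have lt : ∀ v ∈ P.vs s h, ((P.vs s h).erase v).card < n := fun v hv' =>
      hn ▸ card_erase_lt_of_mem hv'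
    refine ⟨fun hO hB => ?_, fun hE h1 h2 => ?_⟩
    · by_cases hσ : ∃ σ, Odd (P.fr h σ 0)
      · obtain ⟨σ, hσ⟩ := hσ
        have ho := (hg P hP s h hi hb σ).2 hσ
        have hcz : goal σ = P.G.c ∨ goal σ = P.G.z := by
          cases σ
          · exact Or.inl rfl
          · exact Or.inr rfl
        have hm : goal σ ∈ P.vs s h := by
          rcases hcz with e | e
          · exact e ▸ tri.1
          · exact e ▸ tri.2.1
        exact ((hk _ P.G hG).2 (P.vs s h) false (goal σ) hcz hm ho).1 hO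
      · have hev : ∀ σ, Even (P.fr h σ 0) := fun σ =>
          Nat.not_odd_iff_even.1 fun ho => hσ ⟨σ, ho⟩
        obtain ⟨κ, e, hF, b1, b2⟩ := hs P s h hb hB hev
        have hm : (κ, e, h κ e) ∈ P.vs s h :=
          (mem _).2 (Or.inr (Or.inl ⟨hF.1, hF.2.1, hF.2.2.1, le_rfl⟩))
        have ho : Odd (P.G.deg (P.vs s h) (κ, e, h κ e)) :=
          (dg2 κ hF.1 e hF.2.1 _ hF.2.2.1 le_rfl).2 ⟨rfl, hF⟩
        have he := er2 κ hF.1 e hF.2.1 hF.2.2.1
        have hE : P.G.ClE (P.vs s (Mach.low h κ e)) := he ▸ ((l1 _ hm ho).2.1 hO)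
        refine l2 _ hm ?_
        rw [he]
        exact (ih _ (he ▸ lt _ hm) s (Mach.low h κ e) rfl hi (attack_low hb κ e)).2 hE
          (fun u _ _ => b1 _) b2
    · refine l4 tri (Or.inl hE) (fun v hm ho hc hz => ?_) (fun hf => absurd hf (by simp))
      have hO := (l1 v hm ho).1.1 hE
      have hlt := lt v hm
      obtain ⟨κ, e, r⟩ := v
      rcases (mem _).1 hm with ⟨hr, hu⟩ | ⟨hκ, he, hr1, hr2⟩ | ⟨hκ, hr, h4, h6⟩
      · obtain rfl : r = 0 := hr
        have he := er1 (κ, e) hu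
        simp only at he
        rw [he] at hO hlt ⊢
        exact (ih _ hlt (s.erase (κ, e)) h rfl (attack_in hi _) hb).1 hO (h1 (κ, e) hu ho)
      · obtain ⟨rfl, hF⟩ := (dg2 κ hκ e he r hr1 hr2).1 ho
        have he' := er2 κ hκ e he hr1
        rw [he'] at hO hlt ⊢
        exact (ih _ hlt s (Mach.low h κ e) rfl hi (attack_low hb κ e)).1 hO (h2 κ e hF)
      · obtain rfl : κ = 0 := hκ
        obtain rfl : r = 0 := hr
        simp only at h4 h6
        have : e = 4 ∨ e = 5 ∨ e = 6 := by omega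
        rcases this with rfl | rfl | rfl
        · exact absurd rfl hc
        · exact absurd rfl hz
        · exact absurd ho (Nat.not_odd_iff_even.2 dgw)
  exact fun s h hi hb => key _ s h rfl hi hb

end Pool.Agent.Chomp.SC
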