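import Mathlib

/-!
Chomp on the board `{0,1}^n` without its least cell: cells are nonempty finite sets.
-/

namespace Pool.Agent.Chomp.SC

variable {α : Type} [DecidableEq α]

/-- the move at `σ` deletes `σ` and every remaining set that contains it -/
def cut (S : Finset (Finset α)) (σ : Finset α) : Finset (Finset α) := S.filter fun ρ => ¬ σ ⊆ ρ

/-- `Res true S`: the player to move at `S` can force a win; `Res false S`: the other player can.
A player without a move loses. -/
inductive Res : Bool → Finset (Finset α) → Prop
  | win (S : Finset (Finset α)) (σ : Finset α) : σ ∈ S → Res false (cut S σ) → Res true S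
  | lose (S : Finset (Finset α)) : (∀ σ ∈ S, Res true (cut S σ)) → Res false S

/-- `S` consists of nonempty subsets of `{0, …, n - 1}` and contains every nonempty subset of each
of its members -/
def Down (n : ℕ) (S : Finset (Finset ℕ)) : Prop :=
  (∀ σ ∈ S, σ.Nonempty ∧ σ ⊆ Finset.range n) ∧ ∀ σ ∈ S, ∀ ρ ⊆ σ, ρ.Nonempty → ρ ∈ S

/-- the number `n` in unary and the table that marks the triples `(i, j, k)` with `{i, j, k} ∈ S` -/
def table (n : ℕ) (S : Finset (Finset ℕ)) : List Bool × List Bool :=
  (List.replicate n true, (List.range n).flatMap fun i => (List.range n).flatMap fun j =>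
    (List.range n).map fun k => decide (({i, j, k} : Finset ℕ) ∈ S))

end Pool.Agent.Chomp.SC
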