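import Pool.Agent.Work.MP_ff0f6a_lc.SC.Stmt

namespace Pool.Agent.Chomp.SC

open Finset

lemma deg_img (T : Finset (ℕ × ℕ)) (a b c : ℕ) :
    (a, b, c) ∈ T.image (fun u : ℕ × ℕ => (u.1, u.2, 0)) ↔ c = 0 ∧ (a, b) ∈ T := by
  simp only [mem_image, Prod.mk.injEq]
  constructor
  · rintro ⟨u, hu, rfl, rfl, rfl⟩
    exact ⟨rfl, hu⟩
  · rintro ⟨rfl, h⟩
    exact ⟨(a, b), h, rfl, rfl, rfl⟩

lemma deg_img_card (T : Finset (ℕ × ℕ)) :
    (T.image (fun u : ℕ × ℕ => (u.1, u.2, 0))).card = T.card :=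
  card_image_of_injective _ fun u v h => by
    simp only [Prod.mk.injEq] at h
    exact Prod.ext h.1 h.2.1

lemma deg_A_mach {P : Mach} (hP : P.Ok) {κ b : ℕ} (hb : b < 4) (a e c : ℕ) :
    P.G.A (κ, b, 0) (a, e, c) = true ↔ (c = 0 ∧ e < 4 ∧ P.adj (κ, b) (a, e) = true) ∨
      (a = κ ∧ c = tau κ e + 1 ∧ (e = 0 ∨ P.fix κ = true)) := by
  simp only [Mach.G, Mach.arc, Bool.or_eq_true, decide_eq_true_eq]
  rw [hP.symm (a, e) (κ, b)]
  constructor
  · rintro ((h | h | h | h | h) | (h | h | h | h | h))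
    · exact Or.inl ⟨h.2.1, h.2.2.2.1, h.2.2.2.2⟩
    · obtain ⟨-, -, rfl, h1, h2⟩ := h
      exact Or.inr ⟨rfl, h1, h2⟩
    · omega
    · omega
    · omega
    · exact Or.inl ⟨h.1, h.2.2.1, h.2.2.2.2⟩
    · omega
    · omega
    · omega
    · omega
  · rintro (h | ⟨rfl, h1, h2⟩)
    · exact Or.inl (Or.inl ⟨trivial, h.1, hb, h.2.1, h.2.2⟩)
    · exact Or.inl (Or.inr (Or.inl ⟨trivial, hb, rfl, h1, h2⟩))

lemma deg_A_cyc (P : Mach) {κ e r : ℕ} (hr : 1 ≤ r) (a b c : ℕ) :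
    P.G.A (κ, e, r) (a, b, c) = true ↔ (a = κ ∧ b = e ∧ c = r + 1) ∨
      (a = κ ∧ b = e ∧ 1 ≤ c ∧ c + 1 = r) ∨
      ((r = 1 ∨ r = tau κ e + 1) ∧ a = 0 ∧ b = 4 + (P.side κ).toNat ∧ c = 0) ∨
      (r = tau κ e + 1 ∧ (e = 0 ∨ P.fix κ = true) ∧ c = 0 ∧ b < 4 ∧ a = κ) := by
  simp only [Mach.G, Mach.arc, Bool.or_eq_true, decide_eq_true_eq]
  constructor
  · rintro ((h | h | h | h | h) | (h | h | h | h | h))
    · omega
    · omega
    · exact Or.inl ⟨h.2.1, h.2.2.1, h.2.2.2⟩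
    · omega
    · omega
    · omega
    · obtain ⟨h1, h2, rfl, h3, h4⟩ := h
      exact Or.inr (Or.inr (Or.inr ⟨h3, h4, h1, h2, rfl⟩))
    · exact Or.inr (Or.inl ⟨h.2.1.symm, h.2.2.1.symm, h.1, h.2.2.2.symm⟩)
    · exact Or.inr (Or.inr (Or.inl ⟨h.2.2.2, h.1, h.2.1, h.2.2.1⟩))
    · omega
  · rintro (h | h | h | ⟨h1, h2, h3, h4, rfl⟩)
    · exact Or.inl (Or.inr (Or.inr (Or.inl ⟨hr, h.1, h.2.1, h.2.2⟩)))
    · exact Or.inr (Or.inr (Or.inr (Or.inl ⟨h.2.2.1, h.1.symm, h.2.1.symm, h.2.2.2.symm⟩)))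
    · exact Or.inr (Or.inr (Or.inr (Or.inr (Or.inl ⟨h.2.1, h.2.2.1, h.2.2.2, h.1⟩))))
    · exact Or.inr (Or.inr (Or.inl ⟨h3, h4, rfl, h1, h2⟩))

lemma deg_A_w (P : Mach) (a b c : ℕ) :
    P.G.A (0, 6, 0) (a, b, c) = true ↔ a = 0 ∧ (b = 4 ∨ b = 5) ∧ c = 0 := by
  simp only [Mach.G, Mach.arc, Bool.or_eq_true, decide_eq_true_eq]
  have := Bool.toNat_le (P.side a)
  constructor
  · rintro ((h | h | h | h | h) | (h | h | h | h | h)) <;> omega
  · intro h
    refine Or.inr (Or.inr (Or.inr (Or.inr (Or.inr ?_))))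
    simp only [true_and]
    omega

lemma deg_mach (hv : S_vs) {P : Mach} (hP : P.Ok) {s : Finset (ℕ × ℕ)} (hs : P.In s) {κ b : ℕ}
    (hu : (κ, b) ∈ s) : P.G.deg (P.vs s full) (κ, b, 0) =
      (s.filter fun v => P.adj (κ, b) v = true).card + 1 + (P.fix κ).toNat := by
  have hm := (hv P hP s full hs fun _ _ => le_rfl).2.1
  have hκ : κ < P.K := (hs _ hu).1
  have hb : b < 4 := (hs _ hu).2
  have key : ∀ a e c : ℕ, (a, e, c) ∈ (P.vs s full).filter (fun u => P.G.A (κ, b, 0) u = true) ↔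
      (a = κ ∧ e = 0 ∧ c = tau κ 0 + 1) ∨ (P.fix κ = true ∧ a = κ ∧ e = 1 ∧ c = tau κ 1 + 1) ∨
        (c = 0 ∧ (a, e) ∈ s.filter fun v => P.adj (κ, b) v = true) := by
    intro a e c
    rw [mem_filter, mem_filter, hm, deg_A_mach hP hb]
    dsimp only
    constructor
    · rintro ⟨h1, h2 | ⟨rfl, h2, h3⟩⟩
      · rcases h1 with h1 | h1 | h1
        · exact Or.inr (Or.inr ⟨h1.1, h1.2, h2.2.2⟩)
        · omega
        · omega
      · have he : e = 0 ∨ e = 1 := by omega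
        rcases he with rfl | rfl
        · exact Or.inl ⟨rfl, rfl, h2⟩
        · exact Or.inr (Or.inl ⟨h3.resolve_left (by omega), rfl, rfl, h2⟩)
    · rintro (⟨rfl, rfl, rfl⟩ | ⟨h, rfl, rfl, rfl⟩ | ⟨rfl, h1, h2⟩)
      · exact ⟨Or.inr (Or.inl ⟨hκ, by omega, by omega, le_rfl⟩), Or.inr ⟨rfl, rfl, Or.inl rfl⟩⟩
      · exact ⟨Or.inr (Or.inl ⟨hκ, by omega, by omega, le_rfl⟩), Or.inr ⟨rfl, rfl, Or.inr h⟩⟩
      · exact ⟨Or.inl ⟨rfl, h1⟩, Or.inl ⟨rfl, (hs _ h1).2, h2⟩⟩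
  unfold Apex.deg
  cases hf : P.fix κ
  · have e1 : (P.vs s full).filter (fun u => P.G.A (κ, b, 0) u = true) =
        insert (κ, 0, tau κ 0 + 1) ((s.filter fun v => P.adj (κ, b) v = true).image
          fun u : ℕ × ℕ => (u.1, u.2, 0)) := by
      ext ⟨a, e, c⟩
      rw [key, mem_insert, deg_img, hf]
      simp only [Prod.mk.injEq, Bool.false_eq_true, false_and, false_or]
    rw [e1, card_insert_of_notMem (by rw [deg_img]; omega), deg_img_card]
    rfl
  · have e1 : (P.vs s full).filter (fun u => P.G.A (κ, b, 0) u = true) =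
        insert (κ, 0, tau κ 0 + 1) (insert (κ, 1, tau κ 1 + 1)
          ((s.filter fun v => P.adj (κ, b) v = true).image fun u : ℕ × ℕ => (u.1, u.2, 0))) := by
      ext ⟨a, e, c⟩
      rw [key, mem_insert, mem_insert, deg_img, hf]
      simp only [Prod.mk.injEq, true_and]
    rw [e1, card_insert_of_notMem (by rw [mem_insert, deg_img, Prod.mk.injEq, Prod.mk.injEq]; omega),
      card_insert_of_notMem (by rw [deg_img]; omega), deg_img_card]
    rfl

lemma deg_cyc (hv : S_vs) {P : Mach} (hP : P.Ok) {s : Finset (ℕ × ℕ)} {h : ℕ → ℕ → ℕ}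
    (hs : P.In s) (hh : ∀ κ e, h κ e ≤ tau κ e + 1) {κ e r : ℕ} (hκ : κ < P.K) (he : e < 2)
    (hr : 1 ≤ r) (hrh : r ≤ h κ e) :
    Odd (P.G.deg (P.vs s h) (κ, e, r)) ↔ r = h κ e ∧ P.Fr s h κ e := by
  have hm := (hv P hP s h hs hh).2.1
  have ht := Bool.toNat_le (P.side κ)
  have hτ : 4 ≤ tau κ e := by unfold tau; omega
  have hh' := hh κ e
  have key : ∀ a b c : ℕ, (a, b, c) ∈ (P.vs s h).filter (fun u => P.G.A (κ, e, r) u = true) ↔
      (r + 1 ≤ h κ e ∧ a = κ ∧ b = e ∧ c = r + 1) ∨ (2 ≤ r ∧ a = κ ∧ b = e ∧ c = r - 1) ∨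
      ((r = 1 ∨ r = tau κ e + 1) ∧ a = 0 ∧ b = 4 + (P.side κ).toNat ∧ c = 0) ∨
      (r = tau κ e + 1 ∧ (e = 0 ∨ P.fix κ = true) ∧ c = 0 ∧
        (a, b) ∈ s.filter fun u => u.1 = κ) := by
    intro a b c
    rw [mem_filter, mem_filter, hm, deg_A_cyc P hr]
    dsimp only
    constructor
    · rintro ⟨h1, ⟨rfl, rfl, rfl⟩ | h2 | h2 | h2⟩
      · exact Or.inl ⟨by omega, rfl, rfl, rfl⟩
      · exact Or.inr (Or.inl ⟨by omega, h2.1, h2.2.1, by omega⟩)
      · exact Or.inr (Or.inr (Or.inl h2))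
      · rcases h1 with h1 | h1 | h1
        · exact Or.inr (Or.inr (Or.inr ⟨h2.1, h2.2.1, h2.2.2.1, h1.2, h2.2.2.2.2⟩))
        · omega
        · omega
    · rintro (⟨h1, rfl, rfl, rfl⟩ | ⟨h1, rfl, rfl, rfl⟩ | ⟨h1, rfl, rfl, rfl⟩ | ⟨h1, h2, rfl, h3, rfl⟩)
      · exact ⟨Or.inr (Or.inl ⟨hκ, he, by omega, h1⟩), Or.inl ⟨rfl, rfl, rfl⟩⟩
      · exact ⟨Or.inr (Or.inl ⟨hκ, he, by omega, by omega⟩),
          Or.inr (Or.inl ⟨rfl, rfl, by omega, by omega⟩)⟩
      · exact ⟨Or.inr (Or.inr ⟨rfl, rfl, by omega, by omega⟩),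
          Or.inr (Or.inr (Or.inl ⟨h1, rfl, rfl, rfl⟩))⟩
      · exact ⟨Or.inl ⟨rfl, h3⟩, Or.inr (Or.inr (Or.inr ⟨h1, h2, rfl, (hs _ h3).2, rfl⟩))⟩
  unfold Apex.deg Mach.Fr Mach.lab
  by_cases c1 : r = tau κ e + 1
  · by_cases c2 : e = 0 ∨ P.fix κ = true
    · have e1 : (P.vs s h).filter (fun u => P.G.A (κ, e, r) u = true) =
          insert (κ, e, r - 1) (insert (0, 4 + (P.side κ).toNat, 0)
            ((s.filter fun u => u.1 = κ).image fun u : ℕ × ℕ => (u.1, u.2, 0))) := by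
        ext ⟨a, b, c⟩
        rw [key, mem_insert, mem_insert, deg_img, Prod.mk.injEq, Prod.mk.injEq, Prod.mk.injEq,
          Prod.mk.injEq]
        constructor
        · rintro (h1 | h1 | h1 | h1)
          · omega
          · exact Or.inl h1.2
          · exact Or.inr (Or.inl h1.2)
          · exact Or.inr (Or.inr h1.2.2)
        · rintro (h1 | h1 | h1)
          · exact Or.inr (Or.inl ⟨by omega, h1⟩)
          · exact Or.inr (Or.inr (Or.inl ⟨Or.inr c1, h1⟩))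
          · exact Or.inr (Or.inr (Or.inr ⟨c1, c2, h1⟩))
      have n1 : (0, 4 + (P.side κ).toNat, 0) ∉
          (s.filter fun u => u.1 = κ).image fun u : ℕ × ℕ => (u.1, u.2, 0) := by
        rw [deg_img]
        rintro ⟨-, h1⟩
        have := (hs _ (mem_filter.1 h1).1).2
        dsimp only at this
        omega
      rw [e1, card_insert_of_notMem
          (by rw [mem_insert, deg_img, Prod.mk.injEq, Prod.mk.injEq]; omega),
        card_insert_of_notMem n1, deg_img_card]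
      have e2 : Odd ((s.filter fun u => u.1 = κ).card + 1 + 1) ↔ Odd (cnt s κ) := by
        unfold cnt
        rw [Nat.odd_iff, Nat.odd_iff]
        omega
      rw [e2]
      constructor
      · intro h1
        exact ⟨by omega, hκ, he, by omega, Or.inr ⟨c2, h1⟩⟩
      · rintro ⟨h1, -, -, -, h2 | h2⟩
        · omega
        · exact h2.2
    · have e1 : (P.vs s h).filter (fun u => P.G.A (κ, e, r) u = true) =
          {(κ, e, r - 1), (0, 4 + (P.side κ).toNat, 0)} := by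
        ext ⟨a, b, c⟩
        rw [key, mem_insert, mem_singleton, Prod.mk.injEq, Prod.mk.injEq, Prod.mk.injEq,
          Prod.mk.injEq]
        constructor
        · rintro (h1 | h1 | h1 | h1)
          · omega
          · exact Or.inl h1.2
          · exact Or.inr h1.2
          · exact absurd h1.2.1 c2
        · rintro (h1 | h1)
          · exact Or.inr (Or.inl ⟨by omega, h1⟩)
          · exact Or.inr (Or.inr (Or.inl ⟨Or.inr c1, h1⟩))
      rw [e1, card_pair (by rw [Ne, Prod.mk.injEq, Prod.mk.injEq]; omega)]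
      constructor
      · intro h1
        exact absurd h1 (by decide)
      · rintro ⟨h1, -, -, -, h2 | h2⟩
        · omega
        · exact absurd h2.1 c2
  · obtain ⟨x, hx1, hx⟩ : ∃ x : ℕ × ℕ × ℕ, x.2.2 < r ∧ ∀ a b c : ℕ,
        (a, b, c) ∈ (P.vs s h).filter (fun u => P.G.A (κ, e, r) u = true) ↔
          (r + 1 ≤ h κ e ∧ a = κ ∧ b = e ∧ c = r + 1) ∨ (a, b, c) = x := by
      by_cases c2 : r = 1
      · refine ⟨(0, 4 + (P.side κ).toNat, 0), hr, fun a b c => ?_⟩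
        rw [key, Prod.mk.injEq, Prod.mk.injEq]
        constructor
        · rintro (h1 | h1 | h1 | h1)
          · exact Or.inl h1
          · omega
          · exact Or.inr h1.2
          · omega
        · rintro (h1 | h1)
          · exact Or.inl h1
          · exact Or.inr (Or.inr (Or.inl ⟨Or.inl c2, h1⟩))
      · refine ⟨(κ, e, r - 1), Nat.sub_lt hr one_pos, fun a b c => ?_⟩
        rw [key, Prod.mk.injEq, Prod.mk.injEq]
        constructor
        · rintro (h1 | h1 | h1 | h1)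
          · exact Or.inl h1
          · exact Or.inr h1.2
          · omega
          · omega
        · rintro (h1 | h1)
          · exact Or.inl h1
          · exact Or.inr (Or.inl ⟨by omega, h1⟩)
    by_cases c3 : r = h κ e
    · have e1 : (P.vs s h).filter (fun u => P.G.A (κ, e, r) u = true) = {x} := by
        ext ⟨a, b, c⟩
        rw [hx, mem_singleton]
        exact ⟨fun h1 => h1.resolve_left (by omega), Or.inr⟩
      rw [e1, card_singleton]
      exact ⟨fun _ => ⟨c3, hκ, he, by omega, Or.inl (by omega)⟩, fun _ => odd_one⟩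
    · have e1 : (P.vs s h).filter (fun u => P.G.A (κ, e, r) u = true) = {(κ, e, r + 1), x} := by
        ext ⟨a, b, c⟩
        rw [hx, mem_insert, mem_singleton, Prod.mk.injEq a (b, c) κ, Prod.mk.injEq b c e]
        exact ⟨fun h1 => h1.imp_left fun h2 => h2.2, fun h1 => h1.imp_left fun h2 => ⟨by omega, h2⟩⟩
      have n1 : (κ, e, r + 1) ≠ x := by
        rintro rfl
        dsimp only at hx1
        omega
      rw [e1, card_pair n1]
      exact ⟨fun h1 => absurd h1 (by decide), fun h1 => absurd h1.1 c3⟩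

lemma deg_w (hv : S_vs) {P : Mach} (hP : P.Ok) {s : Finset (ℕ × ℕ)} {h : ℕ → ℕ → ℕ}
    (hs : P.In s) (hh : ∀ κ e, h κ e ≤ tau κ e + 1) : P.G.deg (P.vs s h) (0, 6, 0) = 2 := by
  have hm := (hv P hP s h hs hh).2.1
  have e1 : (P.vs s h).filter (fun u => P.G.A (0, 6, 0) u = true) = {(0, 4, 0), (0, 5, 0)} := by
    ext ⟨a, b, c⟩
    rw [mem_filter, hm, deg_A_w, mem_insert, mem_singleton, Prod.mk.injEq, Prod.mk.injEq,
      Prod.mk.injEq, Prod.mk.injEq]
    dsimp only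
    constructor
    · rintro ⟨-, h1⟩
      omega
    · intro h1
      exact ⟨Or.inr (Or.inr (by omega)), by omega⟩
  unfold Apex.deg
  rw [e1]
  rfl

theorem p_deg (hv : S_vs) : S_deg := by
  intro P hP s h hs hh
  refine ⟨fun u hu => ?_, fun κ hκ e he r hr hrh => deg_cyc hv hP hs hh hκ he hr hrh, ?_⟩
  · rw [deg_mach hv hP hs (κ := u.1) (b := u.2) hu]
    rfl
  · show Even (P.G.deg (P.vs s h) (0, 6, 0))
    rw [deg_w hv hP hs hh]
    exact even_two

end Pool.Agent.Chomp.SC
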