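import Pool.Agent.Work.MP_ff0f6a_lc.SC.Main

open Pool.Agent.Chomp.SC Pool.Agent.Lib.Cx

/-- Deciding the winner of a down-closed position of Chomp on the board `{0,1}^n` is
`PSPACE`-hard under logarithmic-space reductions, already for a graph with one filled triangle. -/
theorem Pool.Agent.Chomp.SC.downClosed_hard (L : List Bool → Bool)
    (hL : L ∈ PSPACE) :
    ∃ f, LogspaceComputable f ∧ ∀ x, ∃ n S, f x = N487b59b3.bitEncode (table n S) ∧ Down n S ∧
      (∀ σ ∈ S, σ.card ≤ 3) ∧ (S.filter fun σ => σ.card = 3).card = 1 ∧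
      (L x = true ↔ Res true S) :=
  p_hard p_map p_not_both p_triple p_Gok p_vs p_mok a_main p_enc hL
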