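import Pool.Agent.Work.MP_ff0f6a_lc.SC.Stmt

/-!
The token sits in the class of a false clause.
-/

namespace Pool.Agent.Chomp.SC

open Finset Function

theorem Ehaven_adj3 (F : Qb) (d u : ℕ × ℕ) (hd : d.1 % 8 = 3) :
    F.mach.adj d u = true ↔
      (u.1 % 8 = 2 ∧ u.2 = 0 ∧ u.1 / 8 % 3 = F.sg (d.1 / 8) (u.1 / 8 / 3)) ∨
      (u.1 % 8 = 0 ∧ d.1 = 3 ∧ u.1 / 8 = 2 * F.n ∧ u.2 = 0) ∨
      (u.1 = d.1 + 1 ∧ d.2 = 1) ∨ (u.1 % 8 = 4 ∧ d.1 = u.1 + 7 ∧ u.2 = 1) := by
  simp only [Qb.mach, Qb.arc, Bool.or_eq_true, decide_eq_true_eq]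
  constructor
  · rintro ((h | h | h | h | h | h | h | h | h | h) | (h | h | h | h | h | h | h | h | h | h))
    all_goals first
      | exact Or.inl ⟨h.1, h.2.2.1, h.2.2.2⟩
      | exact Or.inr (Or.inl h)
      | exact Or.inr (Or.inr (Or.inl h.2))
      | exact Or.inr (Or.inr (Or.inr h))
      | (exfalso; have h1 := h.1; have h2 := h.2.1; omega)
  · rintro (h | h | h | h)
    · exact Or.inr (Or.inr (Or.inr (Or.inr (Or.inl ⟨h.1, hd, h.2.1, h.2.2⟩))))
    · exact Or.inr (Or.inr (Or.inr (Or.inr (Or.inr (Or.inl h)))))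
    · exact Or.inl (Or.inr (Or.inr (Or.inr (Or.inr (Or.inr (Or.inl ⟨hd, h.1, h.2⟩))))))
    · exact Or.inr (Or.inr (Or.inr (Or.inr (Or.inr (Or.inr (Or.inr (Or.inl h)))))))

theorem Ehaven_adj2 (F : Qb) (a u : ℕ × ℕ) (ha : a.1 % 8 = 2) :
    F.mach.adj a u = true ↔
      (u.1 % 8 = 3 ∧ a.2 = 0 ∧ a.1 / 8 % 3 = F.sg (u.1 / 8) (a.1 / 8 / 3)) ∨
      (u.1 % 8 = 1 ∧ a.1 / 8 / 3 = u.1 / 8 ∧
        ((F.q (u.1 / 8) = true ∧ u.2 / (a.1 / 8 % 3) % 2 = 1) ∨
         (F.q (u.1 / 8) = false ∧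
          ((a.1 / 8 % 3 = 1 ∧ u.2 = a.2) ∨ (a.1 / 8 % 3 = 2 ∧ u.2 = 1))))) := by
  simp only [Qb.mach, Qb.arc, Bool.or_eq_true, decide_eq_true_eq]
  constructor
  · rintro ((h | h | h | h | h | h | h | h | h | h) | (h | h | h | h | h | h | h | h | h | h))
    all_goals first
      | exact Or.inl h.2
      | exact Or.inr ⟨h.1, h.2.2.1, h.2.2.2⟩
      | (exfalso; have h1 := h.1; have h2 := h.2.1; omega)
  · rintro (h | h)
    · exact Or.inl (Or.inr (Or.inr (Or.inr (Or.inl ⟨ha, h⟩))))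
    · exact Or.inr (Or.inr (Or.inr (Or.inl ⟨h.1, ha, h.2.1, h.2.2⟩)))

theorem Ehaven_adj1 (F : Qb) (a u : ℕ × ℕ) (ha : a.1 % 8 = 1) :
    F.mach.adj a u = true ↔
      (u.1 % 8 = 0 ∧ u.1 / 8 = 2 * (a.1 / 8)) ∨
      (u.1 % 8 = 2 ∧ u.1 / 8 / 3 = a.1 / 8 ∧
        ((F.q (a.1 / 8) = true ∧ a.2 / (u.1 / 8 % 3) % 2 = 1) ∨
         (F.q (a.1 / 8) = false ∧
          ((u.1 / 8 % 3 = 1 ∧ a.2 = u.2) ∨ (u.1 / 8 % 3 = 2 ∧ a.2 = 1))))) := by
  simp only [Qb.mach, Qb.arc, Bool.or_eq_true, decide_eq_true_eq]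
  constructor
  · rintro ((h | h | h | h | h | h | h | h | h | h) | (h | h | h | h | h | h | h | h | h | h))
    all_goals first
      | exact Or.inl ⟨h.1, h.2.2⟩
      | exact Or.inr h.2
      | (exfalso; have h1 := h.1; have h2 := h.2.1; omega)
  · rintro (h | h)
    · exact Or.inr (Or.inr (Or.inl ⟨h.1, ha, h.2⟩))
    · exact Or.inl (Or.inr (Or.inr (Or.inl ⟨ha, h⟩)))

theorem Ehaven_size2 (F : Qb) (κ : ℕ) (h : κ % 8 = 2) :
    F.size κ ≤ 2 ∧ (0 < F.size κ → κ / 8 < 3 * F.n) := by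
  unfold Qb.size
  split_ifs with h1 h2
  · exfalso; rcases h1 with h1 | h1 <;> have := h1.1 <;> omega
  · refine ⟨le_rfl, fun _ => ?_⟩
    omega
  · exact ⟨by omega, fun h0 => absurd h0 (by omega)⟩

theorem Ehaven_size1 (F : Qb) (i : ℕ) (h : F.q i = false) : F.size (8 * i + 1) ≤ 2 := by
  unfold Qb.size
  have e : (8 * i + 1) / 8 = i := by omega
  split_ifs with h1 h2
  · exfalso
    rcases h1 with h1 | h1
    · rw [e, h] at h1; exact absurd h1.2.2 (by decide)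
    · have := h1.1; omega
  · exact le_rfl
  · omega

theorem Ehaven_xor (c x w : ℕ) (hc : c < 3) (hx : x < 4) (hw : w < 4) (h : w / c % 2 = 0) :
    (x ^^^ w) / c % 2 = x / c % 2 := by
  interval_cases c <;> interval_cases x <;> interval_cases w <;> first | rfl | omega

theorem p_ehaven (hm : S_mok) (he : S_elem) (hr : S_mirror) (hz : S_zl) (hq : S_qhaven) :
    S_ehaven := by
  intro F hF ω s0 j b hω hv0 hh0 hc0 hi0
  have hP : F.mach.Ok := (hm F).1
  refine hz F.mach hP (fun s => F.Val' s ∧ F.mach.Hot ω s (8 * j + 3, b) ∧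
    (∀ u ∈ s, u.1 % 8 ≠ 0 ∧ u.1 + 7 ≠ 8 * j + 3) ∧
    (∀ i < F.n, ¬ F.mach.od s (8 * (3 * i + F.sg j i) + 2, 0) ∧
      (F.q i = true → ω (8 * i + 1) / F.sg j i % 2 = 0) ∧
      (F.q i = false → F.sg j i = 2 → (8 * i + 1, 1) ∉ s) ∧
      (F.q i = false → F.sg j i = 1 → ∀ b', (8 * i + 1, b') ∈ s →
        ¬ F.mach.od s (8 * i + 1, b')))) ?_ s0 ⟨hv0, hh0, hc0, hi0⟩
  rintro s ⟨hv, hh, hc, hi⟩
  refine ⟨ω, (8 * j + 3, b), hh, fun u hu hud hod => ?_⟩
  obtain ⟨hp1, -, hp3, hp4, hp5⟩ := (hr F.mach hP ω s _ hh).2.2 u hu hud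
  have hd3 : ((8 * j + 3, b) : ℕ × ℕ).1 % 8 = 3 := by show (8 * j + 3) % 8 = 3; omega
  have hdj : (8 * j + 3) / 8 = j := by omega
  have hsub : ∀ v w, w ∈ (s.erase u).erase v → w ∈ s := fun v w hw =>
    mem_of_mem_erase (mem_of_mem_erase hw)
  obtain ⟨κ, x⟩ := u
  have hx : x < F.size κ := hv _ hu
  have hx4 : x < 4 := lt_of_lt_of_le hx ((hm F).2.1 κ).1
  have hκ0 : κ % 8 ≠ 0 := (hc _ hu).1
  have hκ7 : κ + 7 ≠ 8 * j + 3 := (hc _ hu).2
  by_cases hA : ∃ i < F.n, κ = 8 * (3 * i + F.sg j i) + 2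
  · obtain ⟨i, hin, rfl⟩ := hA
    have hs := hF.hs j i
    obtain ⟨h1, h2, h3, h4⟩ := hi i hin
    have hsz := (Ehaven_size2 F (8 * (3 * i + F.sg j i) + 2) (by omega)).1
    have hx1 : x = 1 := by
      have : x ≠ 0 := by rintro rfl; exact h1 hod
      omega
    subst hx1
    have hw : ω (8 * (3 * i + F.sg j i) + 2) = 1 := (hω _).2.2 (by omega)
    have hadj : F.mach.adj (8 * j + 3, b) (8 * (3 * i + F.sg j i) + 2, 1) = false := by
      rw [← Bool.not_eq_true, Ehaven_adj3 F _ _ hd3]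
      dsimp only
      omega
    have hhot := hp5 hod hadj
    have hpm : pm ω (8 * (3 * i + F.sg j i) + 2, 1) = (8 * (3 * i + F.sg j i) + 2, 0) := by
      unfold pm; dsimp only; rw [hw]; rfl
    rw [hpm] at hhot
    have hdm : ((8 * j + 3, b) : ℕ × ℕ) ∈ s.erase (8 * (3 * i + F.sg j i) + 2, 1) :=
      mem_erase.2 ⟨hud.symm, hh.2.1⟩
    refine ⟨(8 * j + 3, b), hdm, Or.inr ?_⟩
    refine hq F hF ω _ i (F.sg j i) 0 hω (fun w hw => hv w (hsub _ w hw)) hs hhot h2
      (fun a1 a2 a3 => h3 a1 a2 (hsub _ _ a3)) (fun a1 a2 a3 => ?_)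
    have ha1 : ((8 * i + 1, 0) : ℕ × ℕ).1 % 8 = 1 := by show (8 * i + 1) % 8 = 1; omega
    have e1 : F.mach.adj (8 * i + 1, 0) (8 * j + 3, b) = false := by
      rw [← Bool.not_eq_true, Ehaven_adj1 F _ _ ha1]
      dsimp only
      rintro (h | h) <;> have := h.1 <;> omega
    have e2 : F.mach.adj (8 * i + 1, 0) (8 * (3 * i + F.sg j i) + 2, 1) = false := by
      rw [← Bool.not_eq_true, Ehaven_adj1 F _ _ ha1]
      dsimp only
      have e : (8 * i + 1) / 8 = i := by omega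
      rw [e, a1]
      rintro (h | ⟨-, -, h | h⟩)
      · omega
      · exact absurd h.1 (by decide)
      · omega
    rw [(he F.mach hP _ ω).1 _ hdm, (he F.mach hP _ ω).1 _ hu, e1, e2]
    have := h4 a1 a2 0 (hsub _ _ a3)
    simpa using this
  · refine ⟨pm ω (κ, x), hp1, Or.inl ⟨fun w hw => hv w (hsub _ w hw), hp3 ?_,
      fun w hw => hc w (hsub _ w hw), fun i hin => ?_⟩⟩
    · unfold Mach.Sym
      rw [Bool.eq_iff_iff, Ehaven_adj3 F _ _ hd3, Ehaven_adj3 F _ _ hd3]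
      unfold pm
      dsimp only
      rw [hdj]
      have hno : ¬ (κ % 8 = 2 ∧ κ / 8 % 3 = F.sg j (κ / 8 / 3)) := by
        rintro ⟨a1, a2⟩
        have := (Ehaven_size2 F κ a1).2 (by omega)
        exact hA ⟨κ / 8 / 3, by omega, by omega⟩
      constructor
      · rintro (h | h | h | h)
        · exact absurd ⟨h.1, h.2.2⟩ hno
        · exact absurd h.1 hκ0
        · exact Or.inr (Or.inr (Or.inl h))
        · exact absurd h.2.1.symm hκ7
      · rintro (h | h | h | h)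
        · exact absurd ⟨h.1, h.2.2⟩ hno
        · exact absurd h.1 hκ0
        · exact Or.inr (Or.inr (Or.inl h))
        · exact absurd h.2.1.symm hκ7
    · have hs := hF.hs j i
      obtain ⟨h1, h2, h3, h4⟩ := hi i hin
      refine ⟨?_, h2, fun a1 a2 a3 => h3 a1 a2 (hsub _ _ a3), fun a1 a2 b' a3 => ?_⟩
      · rw [hp4]
        · exact h1
        unfold Mach.Sym
        have ha2 : ((8 * (3 * i + F.sg j i) + 2, 0) : ℕ × ℕ).1 % 8 = 2 := by
          show (8 * (3 * i + F.sg j i) + 2) % 8 = 2; omega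
        rw [Bool.eq_iff_iff, Ehaven_adj2 F _ _ ha2, Ehaven_adj2 F _ _ ha2]
        unfold pm
        dsimp only
        have e1 : (8 * (3 * i + F.sg j i) + 2) / 8 % 3 = F.sg j i := by omega
        have e2 : (8 * (3 * i + F.sg j i) + 2) / 8 / 3 = i := by omega
        rw [e1, e2]
        refine or_congr Iff.rfl (and_congr_right fun a1 => and_congr_right fun a2 => ?_)
        have hκ : κ = 8 * i + 1 := by omega
        subst hκ
        rw [← a2]
        refine or_congr (and_congr_right fun a3 => ?_) (and_congr_right fun a3 => ?_)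
        · rw [Ehaven_xor _ _ _ hs hx4 (hω _).2.1 (h2 a3)]
        · have hsz := Ehaven_size1 F i a3
          have hw : ω (8 * i + 1) = 1 := (hω _).2.2 (by omega)
          refine or_congr (and_congr_right fun a4 => ?_) (and_congr_right fun a4 => ?_)
          · exact absurd hod (h4 a3 a4 x hu)
          · exfalso
            apply h3 a3 a4
            have hx2 : x = 0 ∨ x = 1 := by omega
            rcases hx2 with rfl | rfl
            · have := mem_of_mem_erase hp1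
              unfold pm at this
              dsimp only at this
              rw [hw] at this
              exact this
            · exact hu
      · rw [hp4]
        · exact h4 a1 a2 b' (hsub _ _ a3)
        unfold Mach.Sym
        have ha1 : ((8 * i + 1, b') : ℕ × ℕ).1 % 8 = 1 := by show (8 * i + 1) % 8 = 1; omega
        rw [Bool.eq_iff_iff, Ehaven_adj1 F _ _ ha1, Ehaven_adj1 F _ _ ha1]
        unfold pm
        dsimp only
        have e : (8 * i + 1) / 8 = i := by omega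
        rw [e]
        refine or_congr Iff.rfl (and_congr_right fun a4 => and_congr_right fun a5 => ?_)
        refine or_congr Iff.rfl (and_congr_right fun _ => or_congr (and_congr_right fun a6 => ?_)
          Iff.rfl)
        exact absurd ⟨i, hin, by omega⟩ hA

end Pool.Agent.Chomp.SC
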