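import Pool.Agent.Work.MP_ff0f6a_lc.SC.Stmt

namespace Pool.Agent.Chomp.SC

open Finset Function

theorem elem_filter_erase {α : Type} [DecidableEq α] (s : Finset α) (p : α → Prop)
    [DecidablePred p] (u : α) (hu : u ∈ s) :
    (s.filter p).card = ((s.erase u).filter p).card + if p u then 1 else 0 := by
  conv_lhs => rw [← Finset.insert_erase hu, Finset.filter_insert]
  split_ifs with h
  · rw [Finset.card_insert_of_notMem]
    simp
  · rfl

theorem elem_even {α : Type} [DecidableEq α] (f : α → α) (hf : ∀ a, f (f a) = a) :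
    ∀ (n : ℕ) (s : Finset α), s.card = n → (∀ a ∈ s, f a ∈ s) → (∀ a ∈ s, f a ≠ a) →
      Even s.card := by
  intro n
  induction n using Nat.strong_induction_on with
  | _ n ih =>
    intro s hs hm hn
    rcases s.eq_empty_or_nonempty with rfl | ⟨a, ha⟩
    · simp
    · have hfa : f a ∈ s.erase a := Finset.mem_erase.2 ⟨hn a ha, hm a ha⟩
      have h1 := Finset.card_erase_add_one ha
      have h2 := Finset.card_erase_add_one hfa
      have h3 : Even ((s.erase a).erase (f a)).card := by
        refine ih _ (by omega) _ rfl ?_ ?_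
        · intro b hb
          simp only [Finset.mem_erase] at hb ⊢
          refine ⟨fun h => hb.2.1 ?_, fun h => hb.1 ?_, hm b hb.2.2⟩
          · have := congrArg f h
            rwa [hf, hf] at this
          · rw [← h, hf]
        · intro b hb
          exact hn b (Finset.mem_of_mem_erase (Finset.mem_of_mem_erase hb))
      rw [Nat.even_iff] at h3 ⊢
      omega

theorem elem_pm_pm (ω : ℕ → ℕ) (u : ℕ × ℕ) : pm ω (pm ω u) = u := by
  obtain ⟨a, b⟩ := u
  simp [pm]

theorem elem_pm_ne (ω : ℕ → ℕ) (u : ℕ × ℕ) (h : ω u.1 ≠ 0) : pm ω u ≠ u := by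
  obtain ⟨a, b⟩ := u
  intro e
  simp only [pm, Prod.mk.injEq, true_and] at e
  apply h
  have := congrArg (fun x => b ^^^ x) e
  simpa [← Nat.xor_assoc] using this

theorem elem_od (P : Mach) (s : Finset (ℕ × ℕ)) (u : ℕ × ℕ) (hu : u ∈ s) (v : ℕ × ℕ) :
    (P.od (s.erase u) v ↔ (P.od s v ↔ P.adj v u = false)) := by
  unfold Mach.od
  rw [elem_filter_erase s (fun w => P.adj v w = true) u hu]
  cases h : P.adj v u
  · simp
  · simp only [if_true, Bool.true_eq_false, iff_false, Nat.odd_iff]
    omega

theorem p_elem : S_elem := by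
  intro P hP s ω
  refine ⟨fun u hu v => elem_od P s u hu v, ?_, ?_, ?_⟩
  · intro u hu κ
    unfold cnt
    rw [elem_filter_erase s (fun w => w.1 = κ) u hu]
    by_cases h : u.1 = κ
    · simp only [h, if_true, ne_eq, not_true_eq_false, iff_false, Nat.odd_iff]
      omega
    · simp [h]
  · intro u
    refine ⟨elem_pm_pm ω u, ?_, elem_pm_ne ω u⟩
    cases h : P.adj u (pm ω u)
    · rfl
    · exact absurd rfl (hP.sd u (pm ω u) h)
  · intro hp
    refine ⟨?_, ?_, ?_⟩
    · exact elem_even (pm ω) (elem_pm_pm ω) _ s rfl hp.mem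
        (fun a ha => elem_pm_ne ω a (hp.nz a ha))
    · intro κ
      unfold cnt
      refine elem_even (pm ω) (elem_pm_pm ω) _ _ rfl ?_ ?_
      · intro a ha
        rw [Finset.mem_filter] at ha ⊢
        exact ⟨hp.mem a ha.1, ha.2⟩
      · intro a ha
        exact elem_pm_ne ω a (hp.nz a (Finset.mem_filter.1 ha).1)
    · intro u hu
      have hfu : pm ω u ∈ s.erase u :=
        Finset.mem_erase.2 ⟨elem_pm_ne ω u (hp.nz u hu), hp.mem u hu⟩
      have sub : ∀ a ∈ (s.erase u).erase (pm ω u), a ∈ s := fun a ha =>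
        Finset.mem_of_mem_erase (Finset.mem_of_mem_erase ha)
      refine ⟨?_, fun a ha => hp.nz a (sub a ha), ?_,
        fun a ha b hb => hp.blk a (sub a ha) b (sub b hb)⟩
      · intro b hb
        simp only [Finset.mem_erase] at hb ⊢
        refine ⟨fun h => hb.2.1 ?_, fun h => hb.1 ?_, hp.mem b hb.2.2⟩
        · have := congrArg (pm ω) h
          rwa [elem_pm_pm, elem_pm_pm] at this
        · rw [← h, elem_pm_pm]
      · intro a ha
        have h1 := hp.par a (sub a ha)
        have h2 := hp.blk a (sub a ha) u hu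
        rw [elem_od P _ _ hfu, elem_od P _ _ hfu, elem_od P _ _ hu, elem_od P _ _ hu, h1]
        revert h2
        cases P.adj a u <;> cases P.adj a (pm ω u) <;> cases P.adj (pm ω a) u <;>
          cases P.adj (pm ω a) (pm ω u) <;> simp

end Pool.Agent.Chomp.SC
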