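import Pool.Agent.Work.MP_ff0f6a_lc.SC.Stmt

/-!
Forced moves: two classes with an odd number of members.
-/

namespace Pool.Agent.Chomp.SC

open Finset Function

lemma forced_lt {P : Mach} {s : Finset (ℕ × ℕ)} (hs : P.In s) {κ : ℕ} (h : Odd (cnt s κ)) :
    κ < P.K := by
  have h1 : 0 < cnt s κ := h.pos
  obtain ⟨u, hu⟩ := card_pos.1 h1
  rw [mem_filter] at hu
  exact hu.2 ▸ (hs u hu.1).1

lemma forced_unbal {P : Mach} {s : Finset (ℕ × ℕ)} {h : ℕ → ℕ → ℕ} {κ : ℕ} (hK : κ < P.K)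
    (h1 : h κ 0 = tau κ 0 + 1) (h2 : Odd (cnt s κ)) : ¬ P.Bal s h :=
  fun hb => hb.1 κ hK 0 (by norm_num) h1 ⟨Or.inl rfl, h2⟩

lemma forced_low_le (κ e κ' e' : ℕ) : Mach.low full κ e κ' e' ≤ tau κ' e' + 1 := by
  unfold Mach.low full
  split_ifs with h
  · rw [h.1, h.2]
    omega
  · exact le_rfl

theorem p_forced (h0 : S_Gok) (hv : S_vs) (hd : S_deg) (hg : S_goal) (hf : S_fr) (ha : S_attack)
    (he : S_elem) (hl : S_lose) : S_forced := by
  intro P ok s κ₁ κ₂ hs hO hne h1 h2 H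
  have gok := h0 P ok
  have hfull : ∀ κ e, full κ e ≤ tau κ e + 1 := fun _ _ => le_rfl
  obtain ⟨v1, v2, v3, v4, -⟩ := hv P ok s full hs hfull
  obtain ⟨d1, d2, d3⟩ := hd P ok s full hs hfull
  obtain ⟨f1, -, f3⟩ := hf P full hfull
  obtain ⟨l1, -, -, l4⟩ := hl _ P.G gok (P.vs s full) true
  have k1 := forced_lt hs h1
  have k2 := forced_lt hs h2
  have g0 : ∀ σ, Even (P.G.deg (P.vs s full) (goal σ)) := fun σ => by
    rw [← Nat.not_odd_iff_even, hg P ok s full hs hfull σ, f1]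
    simp
  refine l4 v1 (Or.inr ⟨hO, g0 false, g0 true⟩) (fun v hvm hodd hc hz => ?_) fun _ =>
    (ha P ok s full hs hfull).1 hO (forced_unbal k1 rfl h1)
  have hE := (l1 v hvm hodd).2.1 hO
  obtain ⟨a, b, r⟩ := v
  rcases (v2 _).1 hvm with ⟨r0, hu⟩ | ⟨hK, hb, r1, r2⟩ | ⟨a0, r0, b1, b2⟩
  · simp only at r0 hu
    subst r0
    have e := v3 (a, b) hu
    simp only at e
    rw [e] at hE ⊢
    by_cases hk : a = κ₁ ∨ a = κ₂
    · exact H (a, b) hu ((d1 (a, b) hu).1 hodd) hk
    · have hs' : P.In (s.erase (a, b)) := fun u hu' => hs u (mem_of_mem_erase hu')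
      have c1 : Odd (cnt (s.erase (a, b)) κ₁) :=
        ((he P ok s id).2.1 _ hu κ₁).2 (iff_of_true h1 fun h => hk (Or.inl h))
      have c2 : Odd (cnt (s.erase (a, b)) κ₂) :=
        ((he P ok s id).2.1 _ hu κ₂).2 (iff_of_true h2 fun h => hk (Or.inr h))
      refine (hl _ P.G gok _ true).2.2.1 (hv P ok _ full hs' hfull).1
        ((ha P ok _ full hs' hfull).2 hE (fun u hu' _ => ?_) fun κ e' _ => ?_)
      · by_cases q : u.1 = κ₁
        · exact forced_unbal k2 rfl (((he P ok _ id).2.1 u hu' κ₂).2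
            (iff_of_true c2 fun h => hne (q.symm.trans h)))
        · exact forced_unbal k1 rfl (((he P ok _ id).2.1 u hu' κ₁).2 (iff_of_true c1 q))
      · by_cases q : κ₁ = κ
        · exact forced_unbal k2 (if_neg fun h => hne (q.trans h.1.symm)) c2
        · exact forced_unbal k1 (if_neg fun h => q h.1) c1
  · simp only at hK hb r1 r2
    obtain ⟨rfl, -⟩ := (d2 a hK b hb r r1 r2).1 hodd
    rw [v4 a hK b hb r1] at hE ⊢
    have hlow := forced_low_le a b
    have o0 : ¬ Even (P.fr (Mach.low full a b) (P.side a) 0) := by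
      rw [f3 a hK b hb r1, f1]
      simp [full]
    have oT : ¬ Even (P.fr (Mach.low full a b) (P.side a) (tau a b)) := by
      rw [f3 a hK b hb r1, f1]
      simp [full]
    refine (hl _ P.G gok _ true).2.2.1 (hv P ok s _ hs hlow).1
      ((ha P ok s _ hs hlow).2 hE (fun u _ _ hb' => o0 (hb'.2 _ _)) fun κ e hF hb' => ?_)
    have q := (hf P _ hlow).2.2 κ hF.1 e hF.2.1 hF.2.2.1 (P.side a)
    have q0 := (q 0).1 (hb'.2 _ _)
    have qT := (q (tau a b)).1 (hb'.2 _ _)
    have p0 := (not_not.1 fun h => o0 (q0.2 h)).2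
    have pT := (not_not.1 fun h => oT (qT.2 h)).2
    have he2 := hF.2.1
    unfold Mach.low full at p0 pT
    by_cases same : κ = a ∧ e = b
    · rw [if_pos same, same.1, same.2, Nat.add_sub_cancel, Nat.mod_eq_of_lt (Nat.lt_succ_self _)]
        at p0
      unfold tau at p0
      omega
    · rw [if_neg same, Nat.add_sub_cancel, Nat.mod_self] at pT
      unfold tau at pT
      omega
  · simp only at a0 r0 b1 b2
    subst a0 r0
    have : b = 4 ∨ b = 5 ∨ b = 6 := by omega
    rcases this with rfl | rfl | rfl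
    · exact absurd rfl hc
    · exact absurd rfl hz
    · exact absurd hodd (Nat.not_odd_iff_even.2 d3)

end Pool.Agent.Chomp.SC
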