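import Pool.Agent.Work.MP_ff0f6a_lc.SC.Stmt

/-!
Mirrored moves, moves of the token, and the two havens.
-/

namespace Pool.Agent.Chomp.SC

open Finset Function

theorem haven_in (P : Mach) {s t : Finset (ℕ × ℕ)} (h : P.In s) (hts : t ⊆ s) : P.In t :=
  fun u hu => h u (hts hu)

theorem p_mirror (he : S_elem) (hp : S_paired) (hm : S_move) : S_mirror := by
  intro P hP ω s d hH
  obtain ⟨hIn, hd, hod, hpa⟩ := hH
  obtain ⟨e1, e2, e3, -⟩ := he P hP s ω
  obtain ⟨f1, -, -, f4⟩ := he P hP (s.erase d) ω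
  obtain ⟨-, f5, f6⟩ := f4 hpa
  refine ⟨?_, ?_, ?_⟩
  · exact ((hm P hP s hIn d hd).2 hod).1.2
      (hp P hP (s.erase d) ω (haven_in P hIn (erase_subset _ _)) hpa).1
  · intro κ
    have h1 := e2 d hd κ
    have h2 : ¬ Odd (cnt (s.erase d) κ) := Nat.not_odd_iff_even.2 (f5 κ)
    rw [h1] at h2
    constructor
    · intro h
      by_contra hne
      exact h2 ⟨fun _ h' => hne h'.symm, fun _ => h⟩
    · intro h
      by_contra hne
      exact h2 ⟨fun h' => absurd h' hne, fun h' => absurd h.symm h'⟩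
  · intro u hu hud
    have hu' : u ∈ s.erase d := mem_erase.2 ⟨hud, hu⟩
    have hπ := mem_erase.1 (hpa.mem u hu')
    have hπu : pm ω u ≠ u := (e3 u).2.2 (hpa.nz u hu')
    have hπ' : pm ω u ∈ s.erase u := mem_erase.2 ⟨hπu, hπ.2⟩
    have hb : ∀ a, P.Sym ω a u → (P.od ((s.erase u).erase (pm ω u)) a ↔ P.od s a) := by
      intro a ha
      have h1 := (he P hP (s.erase u) ω).1 (pm ω u) hπ' a
      have h2 := e1 u hu a
      unfold Mach.Sym at ha
      rw [h1, h2, ha]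
      tauto
    refine ⟨hπ', hπ.1, ?_, hb, ?_⟩
    · intro hs
      refine ⟨haven_in P hIn ((erase_subset _ _).trans (erase_subset _ _)), ?_, (hb d hs).2 hod, ?_⟩
      · exact mem_erase.2 ⟨hπ.1.symm, mem_erase.2 ⟨hud.symm, hd⟩⟩
      · have h1 : ((s.erase u).erase (pm ω u)).erase d = ((s.erase d).erase u).erase (pm ω u) := by
          rw [erase_right_comm (s := s.erase u), erase_right_comm (s := s) (a := u)]
        rw [h1]
        exact f6 u hu'
    · intro hou hdu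
      have h0 : (s.erase u).erase d = (s.erase d).erase u := erase_right_comm
      refine ⟨haven_in P hIn ((erase_subset _ _).trans (erase_subset _ _)), ?_, ?_, ?_⟩
      · exact mem_erase.2 ⟨hπ.1, hπ'⟩
      · rw [h0, f1 u hu' (pm ω u), hpa.par u hu', e1 d hd u, hP.symm u d, hP.symm (pm ω u) u,
          (e3 u).2.1, hdu]
        simp [hou]
      · rw [h0]
        exact f6 u hu'

theorem haven_one (hr : S_mirror) (hz : S_zl) (P : Mach) (hP : P.Ok) (ω : ℕ → ℕ)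
    (s : Finset (ℕ × ℕ)) (d : ℕ × ℕ) (hH : P.Hot ω s d) (hs : ∀ u ∈ s, u ≠ d → P.Sym ω d u) :
    Res false (P.pos s true) := by
  refine hz P hP (fun t => P.Hot ω t d ∧ ∀ u ∈ t, u ≠ d → P.Sym ω d u) ?_ s ⟨hH, hs⟩
  rintro t ⟨hT, hts⟩
  refine ⟨ω, d, hT, fun u hu hud _ => ?_⟩
  obtain ⟨h1, -, h3, -, -⟩ := (hr P hP ω t d hT).2.2 u hu hud
  refine ⟨pm ω u, h1, Or.inl ⟨h3 (hts u hu hud), fun v hv hvd => hts v ?_ hvd⟩⟩
  exact mem_of_mem_erase (mem_of_mem_erase hv)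

theorem p_haven (he : S_elem) (hr : S_mirror) (hz : S_zl) : S_haven := by
  intro P hP ω s d hH
  refine ⟨haven_one hr hz P hP ω s d hH, fun x _ hdx hox hs => ?_⟩
  refine hz P hP (fun t => P.Hot ω t d ∧ ¬ P.od t x ∧
    ∀ u ∈ t, u ≠ d → u ≠ x → u ≠ pm ω x → P.Sym ω d u ∧ P.Sym ω x u) ?_ s ⟨hH, hox, hs⟩
  rintro t ⟨hT, hx, hts⟩
  refine ⟨ω, d, hT, fun u hu hud hou => ?_⟩
  obtain ⟨h1, -, h3, h4, h5⟩ := (hr P hP ω t d hT).2.2 u hu hud
  have hux : u ≠ x := fun h => hx (h ▸ hou)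
  by_cases hc : u = pm ω x
  · refine ⟨d, mem_erase.2 ⟨hud.symm, hT.2.1⟩, Or.inr ?_⟩
    have h6 := h5 hou (hc ▸ hdx)
    have h7 : pm ω u = x := by rw [hc]; exact ((he P hP t ω).2.2.1 x).1
    rw [h7] at h6
    refine haven_one hr hz P hP ω _ x h6 fun v hv hvx => ?_
    have hv1 := mem_erase.1 hv
    have hv2 := mem_erase.1 hv1.2
    exact (hts v hv2.2 hv1.1 hvx (hc ▸ hv2.1)).2
  · obtain ⟨k1, k2⟩ := hts u hu hud hux hc
    refine ⟨pm ω u, h1, Or.inl ⟨h3 k1, fun h => hx ((h4 x k2).1 h), fun v hv => hts v ?_⟩⟩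
    exact mem_of_mem_erase (mem_of_mem_erase hv)

end Pool.Agent.Chomp.SC
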