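import Pool.Agent.Work.MP_ff0f6a_lc.SC.Stmt

/-!
The states are hot, and admissible masks exist.
-/

namespace Pool.Agent.Chomp.SC

open Finset Function

lemma hot_adj (F : Qb) (t κ a : ℕ) : F.mach.adj (κ, a) (8 * t, 1) = false ↔
    ¬ ((κ % 8 = 0 ∧ a = 1 ∧ (κ / 8 = t + 1 ∨ t = κ / 8 + 1)) ∨ (κ % 8 = 1 ∧ t = 2 * (κ / 8)) ∨
      (κ % 8 = 5 ∧ a = 0 ∧ t = 2 * F.n)) := by
  have e1 : 8 * t % 8 = 0 := by omega
  have e2 : 8 * t / 8 = t := by omega
  have h1 : F.arc (κ, a) (8 * t, 1) = false ↔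
      ¬ ((κ % 8 = 0 ∧ a = 1 ∧ t = κ / 8 + 1) ∨ (κ % 8 = 5 ∧ a = 0 ∧ t = 2 * F.n)) := by
    simp only [Qb.arc, e1, e2, decide_eq_false_iff_not]
    constructor
    · intro h h'
      apply h
      rcases h' with h' | h'
      · exact Or.inl ⟨h'.1, trivial, h'.2.2, h'.2.1⟩
      · iterate 9 right
        exact ⟨h'.1, trivial, h'.2.1, h'.2.2⟩
    · intro h h'
      apply h
      rcases h' with h' | h' | h' | h' | h' | h' | h' | h' | h' | h' <;> omega
  have h2 : F.arc (8 * t, 1) (κ, a) = false ↔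
      ¬ ((κ % 8 = 0 ∧ a = 1 ∧ κ / 8 = t + 1) ∨ (κ % 8 = 1 ∧ t = 2 * (κ / 8))) := by
    simp only [Qb.arc, e1, e2, decide_eq_false_iff_not]
    constructor
    · intro h h'
      apply h
      rcases h' with h' | h'
      · exact Or.inl ⟨trivial, h'.1, h'.2.2, h'.2.1.symm⟩
      · exact Or.inr (Or.inl ⟨trivial, h'.1, h'.2⟩)
    · intro h h'
      apply h
      rcases h' with h' | h' | h' | h' | h' | h' | h' | h' | h' | h' <;> omega
  show (F.arc (κ, a) (8 * t, 1) || F.arc (8 * t, 1) (κ, a)) = false ↔ _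
  rw [Bool.or_eq_false_iff, h1, h2]
  omega

lemma hot_size (F : Qb) (κ : ℕ) (h : κ % 8 = 0 ∨ κ % 8 = 5) : F.size κ ≤ 2 := by
  unfold Qb.size
  split_ifs with h1 h2
  · omega
  · omega
  · omega

lemma hot_key (F : Qb) (t : ℕ) (R : ℕ → Finset ℕ) (g κ a b : ℕ) (ht : t ≤ 2 * F.n)
    (ha : a < F.size κ) (hb : b < F.size κ) (h0 : κ % 8 = 0 → t < κ / 8) :
    (F.tab t R g (κ, a) ↔ F.mach.adj (κ, a) (8 * t, 1) = false) ↔
      (F.tab t R g (κ, b) ↔ F.mach.adj (κ, b) (8 * t, 1) = false) := by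
  rw [hot_adj, hot_adj]
  have hs := hot_size F κ
  unfold Qb.tab
  generalize κ / 8 = k at *
  generalize F.size κ = z at *
  have h8 : κ % 8 < 8 := Nat.mod_lt _ (by norm_num)
  generalize κ % 8 = y at *
  interval_cases y
  · have h1 := h0 rfl
    have h2 := hs (Or.inl rfl)
    have h3 : k ≠ t := by omega
    have h4 : t ≠ k + 1 := by omega
    by_cases h5 : k = t + 1
    · have ha' : a = 0 ∨ a = 1 := by omega
      have hb' : b = 0 ∨ b = 1 := by omega
      rcases ha' with rfl | rfl <;> rcases hb' with rfl | rfl <;> simp [h5]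
    · simp [h3, h4, h5]
  · simp
  · simp
  · simp
  · simp
  · have h2 := hs (Or.inr rfl)
    have ha' : a = 0 ∨ a = 1 := by omega
    have hb' : b = 0 ∨ b = 1 := by omega
    rcases ha' with rfl | rfl <;> rcases hb' with rfl | rfl <;> simp <;> omega
  · simp
  · simp

theorem p_hot (hm : S_mok) (ht : S_table) (he : S_elem) : S_hot := by
  intro F hF t R g ω hW hA
  obtain ⟨hok, -, hmem, hin, hblk⟩ := hm F
  have hle := hW.le
  have hd : (8 * t, 1) ∈ F.St t R g := by
    rw [hmem]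
    refine ⟨?_, fun _ => Or.inr ⟨by omega, rfl⟩, fun h => ?_, fun h => ?_, fun h => ?_⟩
    · show 1 < F.size (8 * t)
      unfold Qb.size
      rw [if_neg (by omega), if_pos (Or.inl ⟨by omega, by omega⟩)]
      omega
    · exfalso; simp only at h; omega
    · exfalso; simp only at h; omega
    · exfalso; simp only at h; omega
  have hlt : ∀ u ∈ (F.St t R g).erase (8 * t, 1), u.1 % 8 = 0 → t < u.1 / 8 := by
    intro u hu h0
    obtain ⟨hne, hu⟩ := mem_erase.1 hu
    rcases ((hmem t R g u).1 hu).2.1 h0 with h | h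
    · exact h
    · exact absurd (Prod.ext (by simp only; omega) h.2) hne
  have hpm : ∀ u ∈ (F.St t R g).erase (8 * t, 1), pm ω u ∈ (F.St t R g).erase (8 * t, 1) := by
    intro u hu
    have h0 := hlt u hu
    obtain ⟨hne, hu⟩ := mem_erase.1 hu
    obtain ⟨a1, -, a3, a4, a5⟩ := (hmem t R g u).1 hu
    refine mem_erase.2 ⟨fun h => ?_, (hmem t R g _).2
      ⟨(hblk ω hA.1 u u a1).2.1, fun h => Or.inl (h0 h), fun h hh => a3 h ?_, a4, a5⟩⟩
    · have h1 : u.1 = 8 * t := congrArg Prod.fst h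
      have := h0 (by omega)
      omega
    · have h' : u.1 % 8 = 1 := h
      have h2 := hA.2 (u.1 / 8) _ hh
      have e : 8 * (u.1 / 8) + 1 = u.1 := by omega
      rw [e] at h2
      simpa [pm, Nat.xor_assoc] using h2
  refine ⟨hin t R g, hd, (ht F hF t R g hW _ hd).2 (Or.inl ⟨by simp, Or.inl (by simp)⟩),
    hpm, fun u _ => (hA.1 u.1).1, fun u hu => ?_, fun u hu v hv => ?_⟩
  · have hu' := mem_of_mem_erase hu
    have hp' := mem_of_mem_erase (hpm u hu)
    have e := (he F.mach hok (F.St t R g) ω).1 _ hd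
    rw [e, e, ht F hF t R g hW _ hu', ht F hF t R g hW _ hp']
    exact hot_key F t R g u.1 _ u.2 hle ((hmem t R g _).1 hp').1 ((hmem t R g _).1 hu').1 (hlt u hu)
  · exact (hblk ω hA.1 u v ((hmem t R g _).1 (mem_of_mem_erase hu)).1).2.2
      ((hmem t R g _).1 (mem_of_mem_erase hv)).1

lemma hot_four : ∀ T ∈ (range 4).powerset, ∀ c ∈ range 3, Even T.card →
    ¬ Odd (T.filter fun b => b / c % 2 = 1).card →
    ∃ w ∈ range 4, w ≠ 0 ∧ (∀ b ∈ T, b ^^^ w ∈ T) ∧ w / c % 2 = 0 := by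
  decide

lemma hot_two : ∀ T ∈ (range 2).powerset, Even T.card → ∀ b ∈ T, b ^^^ 1 ∈ T := by
  decide

theorem p_adm : S_adm := by
  intro F hF t R g hW c r hr hc
  have hw : ∀ i, ∃ w, w ≠ 0 ∧ w < 4 ∧ (F.size (8 * i + 1) ≠ 4 → w = 1) ∧
      (∀ b ∈ R i, b ^^^ w ∈ R i) ∧ (i < F.n → F.q i = true → w / c i % 2 = 0) := by
    intro i
    have e2 : (8 * i + 1) / 8 = i := by omega
    by_cases h : i < F.n ∧ F.q i = true
    · have hs : F.size (8 * i + 1) = 4 := by
        unfold Qb.size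
        rw [if_pos (Or.inl ⟨by omega, by rw [e2]; exact h.1, by rw [e2]; exact h.2⟩)]
      obtain ⟨w, hw1, hw2, hw3, hw4⟩ := hot_four (R i)
        (mem_powerset.2 fun b hb => mem_range.2 (hs ▸ hW.sub i b hb)) (c i)
        (mem_range.2 (hc i h.1).1) (hW.ev i) (fun ho => (hc i h.1).2 (Or.inl ⟨h.2, ho⟩))
      exact ⟨w, hw2, mem_range.1 hw1, fun hh => absurd hs hh, hw3, fun _ _ => hw4⟩
    · have hs : F.size (8 * i + 1) ≤ 2 := by
        unfold Qb.size
        rw [e2]
        split_ifs with h1 h2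
        · rcases h1 with h1 | h1
          · exact absurd h1.2 h
          · omega
        · omega
        · omega
      exact ⟨1, one_ne_zero, by omega, fun _ => rfl, hot_two (R i)
        (mem_powerset.2 fun b hb => mem_range.2 (lt_of_lt_of_le (hW.sub i b hb) hs)) (hW.ev i),
        fun h1 h2 => absurd ⟨h1, h2⟩ h⟩
  choose w hw1 hw2 hw3 hw4 hw5 using hw
  have hm := hF.hm
  have key : ∀ i, (if (8 * i + 1) % 8 = 1 then w ((8 * i + 1) / 8) else
      if (8 * i + 1) % 8 = 4 ∧ (8 * i + 1) / 8 + 1 = F.m then (if r = 0 then 2 else 1) else 1) =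
      w i := by
    intro i
    rw [if_pos (by omega), show (8 * i + 1) / 8 = i by omega]
  refine ⟨fun κ => if κ % 8 = 1 then w (κ / 8) else
    if κ % 8 = 4 ∧ κ / 8 + 1 = F.m then (if r = 0 then 2 else 1) else 1, ⟨fun κ => ?_, fun i => ?_⟩,
    fun i hi hq => ?_, ?_⟩
  · by_cases h1 : κ % 8 = 1
    · simp only [if_pos h1]
      refine ⟨hw1 _, hw2 _, fun h => hw3 _ ?_⟩
      rwa [show 8 * (κ / 8) + 1 = κ by omega]
    · simp only [if_neg h1]
      by_cases h2 : κ % 8 = 4 ∧ κ / 8 + 1 = F.m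
      · simp only [if_pos h2]
        refine ⟨by split_ifs <;> omega, by split_ifs <;> omega, fun h => absurd ?_ h⟩
        unfold Qb.size
        rw [if_pos (Or.inr h2)]
      · simp only [if_neg h2]
        exact ⟨one_ne_zero, by omega, fun _ => trivial⟩
  · simp only [key]
    exact hw4 i
  · simp only [key]
    exact hw5 i hi hq
  · simp only
    rw [if_neg (by omega), if_pos ⟨by omega, by omega⟩]
    rcases (show r = 0 ∨ r = 1 by omega) with h | h <;> simp [h]

end Pool.Agent.Chomp.SC
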