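import Pool.Agent.Work.MP_ff0f6a_lc.SC.Stmt

/-!
The machine of a formula is well formed; transitions between its states.
-/

namespace Pool.Agent.Chomp.SC

open Finset Function

/-- the relation between classes behind an arc -/
def mokT (F : Qb) (κ κ' : ℕ) : Prop :=
  (κ % 8 = 0 ∧ κ' % 8 = 0 ∧ κ' / 8 = κ / 8 + 1) ∨ (κ % 8 = 0 ∧ κ' % 8 = 1 ∧ κ / 8 = 2 * (κ' / 8)) ∨
  (κ % 8 = 1 ∧ κ' % 8 = 2) ∨ (κ % 8 = 2 ∧ κ' % 8 = 3) ∨ (κ % 8 = 0 ∧ κ' = 3 ∧ κ / 8 = 2 * F.n) ∨
  (κ % 8 = 3 ∧ κ' = κ + 1) ∨ (κ % 8 = 4 ∧ κ' = κ + 7) ∨ (κ = 6 ∧ κ' % 8 = 4) ∨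
  (κ % 8 = 4 ∧ κ' % 8 = 5) ∨ (κ % 8 = 5 ∧ κ' % 8 = 0 ∧ κ' / 8 = 2 * F.n)

lemma mok_T (F : Qb) {u v : ℕ × ℕ} (h : F.arc u v = true) : mokT F u.1 v.1 := by
  unfold Qb.arc at h
  rw [decide_eq_true_eq] at h
  unfold mokT
  rcases h with h | h | h | h | h | h | h | h | h | h
  · exact Or.inl ⟨h.1, h.2.1, h.2.2.1⟩
  · exact Or.inr (Or.inl h)
  · omega
  · omega
  · omega
  · omega
  · omega
  · omega
  · omega
  · omega

lemma mok_side (F : Qb) {κ κ' : ℕ} (h : mokT F κ κ') : F.mach.side κ ≠ F.mach.side κ' := by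
  unfold mokT at h
  simp only [Qb.mach, ne_eq, decide_eq_decide]
  split_ifs <;> omega

lemma mok_ex (F : Qb) (κ κ' : ℕ) : (∀ a b, F.arc (κ, a) (κ', b) = false) ∨
    ∀ a b, F.arc (κ', b) (κ, a) = false := by
  by_cases h : mokT F κ κ'
  · refine Or.inr fun a b => Bool.eq_false_iff.2 fun k => ?_
    have k1 : mokT F κ' κ := mok_T F k
    unfold mokT at h k1
    omega
  · exact Or.inl fun a b => Bool.eq_false_iff.2 fun k => h (mok_T F k)

lemma mok_cl (F : Qb) (κ κ' : ℕ) : (∀ a b b', F.arc (κ, a) (κ', b) = F.arc (κ, a) (κ', b')) ∨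
    (F.size κ ≠ 4 ∧ F.size κ' ≠ 4 ∧ ∀ a b, F.arc (κ, a) (κ', b) = decide (a = b)) := by
  by_cases h1 : κ % 8 = 0 ∧ κ' % 8 = 0 ∧ κ' / 8 = κ / 8 + 1
  · refine Or.inr ⟨?_, ?_, fun a b => ?_⟩
    · unfold Qb.size
      split_ifs <;> omega
    · unfold Qb.size
      split_ifs <;> omega
    · have e1 : κ' ≠ 3 := by omega
      have e2 : κ ≠ 6 := by omega
      simp [Qb.arc, h1.1, h1.2.1, h1.2.2, e1, e2]
  · by_cases h2 : κ % 8 = 1 ∧ κ' % 8 = 2 ∧ κ' / 8 / 3 = κ / 8 ∧ F.q (κ / 8) = false ∧ κ' / 8 % 3 = 1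
    · refine Or.inr ⟨?_, ?_, fun a b => ?_⟩
      · unfold Qb.size
        rw [h2.2.2.2.1]
        simp only [Bool.false_eq_true, and_false, false_or]
        split_ifs <;> omega
      · unfold Qb.size
        split_ifs <;> omega
      · have e2 : κ ≠ 6 := by omega
        simp [Qb.arc, h2.1, h2.2.1, h2.2.2.1, h2.2.2.2.1, h2.2.2.2.2, e2]
    · refine Or.inl fun a b b' => ?_
      unfold Qb.arc
      rw [decide_eq_decide]
      refine or_congr ?_ (or_congr Iff.rfl (or_congr ?_ Iff.rfl))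
      · exact ⟨fun k => absurd ⟨k.1, k.2.1, k.2.2.1⟩ h1, fun k => absurd ⟨k.1, k.2.1, k.2.2.1⟩ h1⟩
      · refine and_congr_right fun k1 => and_congr_right fun k2 => and_congr_right fun k3 =>
          or_congr Iff.rfl (and_congr_right fun k4 => or_congr ?_ Iff.rfl)
        exact ⟨fun k => absurd ⟨k1, k2, k3, k4, k.1⟩ h2, fun k => absurd ⟨k1, k2, k3, k4, k.1⟩ h2⟩

lemma mok_size (F : Qb) (κ : ℕ) : F.size κ = 4 ∨ F.size κ = 2 ∨ F.size κ = 0 := by
  unfold Qb.size
  split_ifs <;> simp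

lemma mok_K (F : Qb) (κ : ℕ) (h : 0 < F.size κ) : κ < F.mach.K := by
  unfold Qb.size at h
  show κ < 8 * (3 * F.n + F.m + 3)
  split_ifs at h <;> omega

lemma mok_mem (F : Qb) (t : ℕ) (R : ℕ → Finset ℕ) (g : ℕ) (u : ℕ × ℕ) :
    u ∈ F.St t R g ↔ F.alive t R g u := by
  unfold Qb.St
  rw [mem_filter, mem_product, mem_range, mem_range]
  refine ⟨fun h => h.2, fun h => ⟨⟨mok_K F _ (Nat.zero_lt_of_lt h.1), ?_⟩, h⟩⟩
  have h1 := h.1
  have h2 := mok_size F u.1
  omega

lemma mok_eq {a b : ℕ} (ha : a < 2) (hb : b < 2) :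
    (decide (a = b) ^^ decide (a = b ^^^ 1)) =
      (decide (a ^^^ 1 = b) ^^ decide (a ^^^ 1 = b ^^^ 1)) := by
  interval_cases a <;> interval_cases b <;> decide

theorem p_mok : S_mok := by
  intro F
  refine ⟨⟨fun u v => Bool.or_comm _ _, fun u v h => ?_⟩, fun κ => ⟨?_, mok_K F κ⟩, mok_mem F,
    fun t R g u hu => ?_, fun ω hω u v hu => ⟨?_, ?_, fun hv => ?_⟩⟩
  · rcases Bool.or_eq_true_iff.1 h with h | h
    · exact mok_side F (mok_T F h)
    · exact (mok_side F (mok_T F h)).symm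
  · have := mok_size F κ
    omega
  · have := mem_product.1 (mem_filter.1 hu).1
    exact ⟨mem_range.1 this.1, mem_range.1 this.2⟩
  · intro h
    have h1 : u.2 ^^^ ω u.1 = u.2 := congrArg Prod.snd h
    have h2 := congrArg (fun x => u.2 ^^^ x) h1
    simp only [← Nat.xor_assoc, Nat.xor_self, Nat.zero_xor] at h2
    exact (hω u.1).1 h2
  · show u.2 ^^^ ω u.1 < F.size u.1
    obtain ⟨-, h2, h3⟩ := hω u.1
    rcases mok_size F u.1 with k | k | k
    · rw [k] at hu ⊢
      exact Nat.xor_lt_two_pow (n := 2) hu h2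
    · rw [h3 (by omega)]
      rw [k] at hu ⊢
      exact Nat.xor_lt_two_pow (n := 1) hu (by norm_num)
    · omega
  · obtain ⟨κ, a⟩ := u
    obtain ⟨κ', b⟩ := v
    have s1 := mok_size F κ
    have s2 := mok_size F κ'
    have hu' : a < F.size κ := hu
    have hv' : b < F.size κ' := hv
    simp only [Qb.mach, pm]
    rcases mok_ex F κ κ' with h | h
    · simp only [h, Bool.false_or]
      rcases mok_cl F κ' κ with k | ⟨k1, k2, k⟩
      · rw [k b a (a ^^^ ω κ), k (b ^^^ ω κ') a (a ^^^ ω κ)]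
      · simp only [k]
        rw [(hω κ).2.2 k2, (hω κ').2.2 k1]
        have := mok_eq (a := a) (b := b) (by omega) (by omega)
        simpa only [eq_comm] using this
    · simp only [h, Bool.or_false]
      rcases mok_cl F κ κ' with k | ⟨k1, k2, k⟩
      · rw [k a b (b ^^^ ω κ'), k (a ^^^ ω κ) b (b ^^^ ω κ'), Bool.xor_self, Bool.xor_self]
      · simp only [k]
        rw [(hω κ).2.2 k1, (hω κ').2.2 k2]
        exact mok_eq (by omega) (by omega)

lemma mok_two (F : Qb) {κ : ℕ} (h : κ % 8 = 0 ∨ κ % 8 = 3 ∨ (κ % 8 = 4 ∧ κ / 8 + 1 ≠ F.m)) :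
    F.size κ ≤ 2 := by
  unfold Qb.size
  split_ifs <;> omega

lemma mok_xor {a : ℕ} (h : a < 2) : a ^^^ 1 = 1 - a := by
  interval_cases a <;> decide

theorem p_trans (_hm : S_mok) : S_trans := by
  intro F hF t R g hW
  refine ⟨fun ht => ⟨?_, ?_⟩, fun i a b hi hab ha hb => ⟨?_, ?_⟩, fun j a ht hg ha => ⟨?_, ?_⟩,
    fun j a hg hj ha => ⟨?_, ?_⟩⟩
  · ext ⟨κ, x⟩
    simp only [mem_erase, mok_mem, Qb.alive, ne_eq, Prod.mk.injEq]
    by_cases h : κ % 8 = 0
    · have := mok_two F (Or.inl h)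
      simp only [h, true_imp_iff, Nat.reduceEqDiff, false_imp_iff, and_true]
      omega
    · have e1 : κ ≠ 8 * t := by omega
      have e2 : κ ≠ 8 * (t + 1) := by omega
      simp [h, e1, e2]
  · exact ⟨ht, fun i hi => hW.fut i (by omega), hW.sub, hW.ev, fun _ => hW.g0 ht, hW.gm⟩
  · ext ⟨κ, x⟩
    simp only [mem_erase, mok_mem, Qb.alive, ne_eq, Prod.mk.injEq]
    by_cases h : κ = 8 * i + 1
    · have e1 : κ % 8 = 1 := by omega
      have e2 : κ / 8 = i := by omega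
      simp only [e1, e2, update_self, mem_insert, ← h]
      simp
      tauto
    · by_cases k : κ % 8 = 1
      · have e2 : κ / 8 ≠ i := by omega
        simp [h, update_of_ne e2]
      · simp [h, k]
  · rw [mok_mem] at ha hb
    have e1 : (8 * i + 1) % 8 = 1 := by omega
    have e2 : (8 * i + 1) / 8 = i := by omega
    have ha2 : a ∉ R i := by simpa only [e2] using ha.2.2.1 e1
    have hb2 : b ∉ R i := by simpa only [e2] using hb.2.2.1 e1
    refine ⟨hW.le, fun k hk => ?_, fun k x hx => ?_, fun k => ?_, hW.g0, hW.gm⟩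
    · rw [update_of_ne (by omega)]
      exact hW.fut k hk
    · by_cases h : k = i
      · subst h
        rw [update_self, mem_insert, mem_insert] at hx
        rcases hx with rfl | rfl | hx
        · exact ha.1
        · exact hb.1
        · exact hW.sub k x hx
      · rw [update_of_ne h] at hx
        exact hW.sub k x hx
    · by_cases h : k = i
      · subst h
        rw [update_self, card_insert_of_notMem (by simp [hab, ha2]), card_insert_of_notMem hb2]
        exact (hW.ev k).add (even_two)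
      · rw [update_of_ne h]
        exact hW.ev k
  · ext ⟨κ, x⟩
    rw [mok_xor ha]
    simp only [mem_erase, mok_mem, Qb.alive, ne_eq, Prod.mk.injEq]
    by_cases h : κ % 8 = 3
    · have := mok_two F (Or.inr (Or.inl h))
      simp only [h, true_imp_iff, Nat.reduceEqDiff, false_imp_iff, and_true, true_and]
      omega
    · have e1 : κ ≠ 8 * j + 3 := by omega
      have e2 : g ≤ 2 * (κ / 8) + 1 ↔ g + 1 ≤ 2 * (κ / 8) + 1 := by omega
      simp only [h, e1, e2, false_and, not_false_eq_true, true_and, false_imp_iff]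
  · have := hW.gm
    exact ⟨hW.le, hW.fut, hW.sub, hW.ev, fun h => by omega, by omega⟩
  · ext ⟨κ, x⟩
    rw [mok_xor ha]
    simp only [mem_erase, mok_mem, Qb.alive, ne_eq, Prod.mk.injEq]
    by_cases h : κ % 8 = 4
    · simp only [h, true_imp_iff, Nat.reduceEqDiff, false_imp_iff, true_and]
      by_cases k : κ / 8 = j
      · have := mok_two F (Or.inr (Or.inr ⟨h, by omega⟩))
        omega
      · omega
    · have e1 : κ ≠ 8 * j + 4 := by omega
      have e2 : g ≤ 2 * (κ / 8) ↔ g + 1 ≤ 2 * (κ / 8) := by omega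
      simp only [h, e1, e2, false_and, not_false_eq_true, true_and, false_imp_iff]
  · have := hW.g0
    exact ⟨hW.le, hW.fut, hW.sub, hW.ev, fun h => by omega, by omega⟩

end Pool.Agent.Chomp.SC
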