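import Pool.Agent.Work.MP_ff0f6a_lc.SC.Stmt
import Pool.Agent.Work.MP_ff0f6a_lc.SC.Eqs

/-! The strategy for a false formula, and the start position. -/

namespace Pool.Agent.Chomp.SC

open Finset Function

/-- the invariant for a false formula -/
def OneInv (F : Qb) (t : ℕ) (R : ℕ → Finset ℕ) (a : ℕ → Bool) : Prop :=
  F.Wf t R 0 ∧ ¬ F.Val (F.n - Qb.dec t R) (Qb.dec t R) a ∧
    ∀ i < Qb.dec t R, ∀ s < 3, F.en R i s → lit s (a i)

theorem One_en0 (F : Qb) (R : ℕ → Finset ℕ) (i : ℕ) : ¬ F.en R i 0 := by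
  simp [Qb.en]

theorem One_en_upd (F : Qb) (R : ℕ → Finset ℕ) {i j : ℕ} (h : j ≠ i) (T : Finset ℕ) (s : ℕ) :
    F.en (update R i T) j s ↔ F.en R j s := by
  simp only [Qb.en, update_of_ne h]

theorem One_end (hg : S_oneG) {F : Qb} (hF : F.Ok) {R : ℕ → Finset ℕ} {a : ℕ → Bool}
    (h : OneInv F (2 * F.n) R a) : Res false (F.mach.pos (F.St (2 * F.n) R 0) true) := by
  obtain ⟨w, v, e⟩ := h
  have r : R F.n = ∅ := eq_empty_of_forall_notMem fun b hb => by
    have := w.sub _ b hb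
    unfold Qb.size at this
    split_ifs at this <;> omega
  have d : Qb.dec (2 * F.n) R = F.n := by
    unfold Qb.dec
    rw [Nat.mul_div_cancel_left _ two_pos, if_pos ⟨by omega, r⟩]
  rw [d] at v e
  rw [Nat.sub_self] at v
  simp only [Qb.Val, Qb.Mat, not_forall, not_exists, not_and] at v
  obtain ⟨j, hj, v⟩ := v
  exact hg F hF R 0 j w hj (Nat.zero_le _) fun i hi k => v i hi (e i hi _ (hF.hs j i) k)

/-- deciding the variable `i` -/
theorem One_dec {F : Qb} {t t' i : ℕ} {R R' : ℕ → Finset ℕ} {a : ℕ → Bool} (h : OneInv F t R a)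
    (d : Qb.dec t R = i) (d' : Qb.dec t' R' = i + 1) (w : F.Wf t' R' 0) {b : Bool}
    (v : ¬ F.Val (F.n - (i + 1)) (i + 1) (update a i b))
    (e : ∀ j < i, ∀ s, F.en R' j s → F.en R j s) (e' : ∀ s < 3, F.en R' i s → lit s b) :
    OneInv F t' R' (update a i b) := by
  refine ⟨w, by rwa [d'], fun j hj s hs k => ?_⟩
  rw [d'] at hj
  rcases (Nat.lt_succ_iff.1 hj).eq_or_lt with rfl | l
  · rw [update_self]
    exact e' s hs k
  · rw [update_of_ne l.ne]
    exact h.2.2 j (by omega) s hs (e j l s k)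

theorem One_val {F : Qb} {i : ℕ} (hi : i < F.n) {a : ℕ → Bool} (v : ¬ F.Val (F.n - i) i a) :
    (F.q i = true → ∃ b, ¬ F.Val (F.n - (i + 1)) (i + 1) (update a i b)) ∧
      (F.q i = false → ∀ b, ¬ F.Val (F.n - (i + 1)) (i + 1) (update a i b)) := by
  rw [show F.n - i = F.n - (i + 1) + 1 by omega, Qb.Val] at v
  constructor
  · intro q
    rwa [if_pos q, not_forall] at v
  · intro q
    rwa [if_neg (by simp [q]), not_exists] at v

theorem One_step {F : Qb} {t : ℕ} {R : ℕ → Finset ℕ} {a : ℕ → Bool} (h : OneInv F t R a)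
    (ht : t < 2 * F.n) (w : F.Wf (t + 1) R 0) : ∃ a', OneInv F (t + 1) R a' := by
  by_cases e : Qb.dec (t + 1) R = Qb.dec t R
  · exact ⟨a, w, by rw [e]; exact h.2.1, by rw [e]; exact h.2.2⟩
  · obtain ⟨i, rfl | rfl⟩ := Nat.even_or_odd' t
    · have d' : Qb.dec (2 * i + 1) R = i + 1 := by
        unfold Qb.dec
        rw [if_neg (by omega)]
        omega
      have r : R i = ∅ := by
        by_contra r
        apply e
        rw [d']
        unfold Qb.dec
        rw [Nat.mul_div_cancel_left _ two_pos, if_neg fun k => r k.2]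
      have d : Qb.dec (2 * i) R = i := by
        unfold Qb.dec
        rw [Nat.mul_div_cancel_left _ two_pos, if_pos ⟨by omega, r⟩]
      have v := One_val (by omega : i < F.n) (d ▸ h.2.1)
      cases q : F.q i
      · exact ⟨_, One_dec h d d' w (v.2 q false) (fun _ _ _ k => k) fun s _ k => by
          simpa [Qb.en, q, r, lit] using k⟩
      · obtain ⟨b, v⟩ := v.1 q
        exact ⟨_, One_dec h d d' w v (fun _ _ _ k => k) fun s _ k => by
          simp [Qb.en, q, r] at k⟩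
    · exfalso
      apply e
      have r := h.1.fut (i + 1) (by omega)
      unfold Qb.dec
      rw [show (2 * i + 1 + 1) / 2 = i + 1 by omega, if_pos ⟨by omega, r⟩, if_neg (by omega)]
      omega

theorem One_last : ∀ T ∈ powerset (range 4), Even T.card → T ≠ ∅ → ∀ x < 4, x ∉ T →
    ∃ y < 4, x ≠ y ∧ y ∉ T ∧ ∀ s < 3,
      ¬ Odd ((insert x (insert y T)).filter fun b => b / s % 2 = 1).card := by
  decide

theorem One_first : ∀ x < 4, ∀ b : Bool, ∃ y < 4, x ≠ y ∧ ∀ s < 3,
    Odd ((insert x (insert y ∅) : Finset ℕ).filter fun b => b / s % 2 = 1).card →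
      (s = 1 ∧ b = true) ∨ (s = 2 ∧ b = false) := by
  decide

theorem One_two : ∀ T ∈ powerset (range 2), Even T.card → ∀ x < 2, x ∉ T → T = ∅ := by
  decide

/-- the answer to a move in a variable class -/
theorem One_var {F : Qb} {i x : ℕ} {R : ℕ → Finset ℕ} {a : ℕ → Bool} (h : OneInv F (2 * i) R a)
    (hi : i < F.n) (hx : x < F.size (8 * i + 1)) (hx' : x ∉ R i) :
    ∃ y < F.size (8 * i + 1), x ≠ y ∧ y ∉ R i ∧
      (F.Wf (2 * i) (update R i (insert x (insert y (R i)))) 0 →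
        ∃ a', OneInv F (2 * i) (update R i (insert x (insert y (R i)))) a') := by
  have d' : ∀ y, Qb.dec (2 * i) (update R i (insert x (insert y (R i)))) = i + 1 := fun y => by
    unfold Qb.dec
    rw [Nat.mul_div_cancel_left _ two_pos, update_self, if_neg fun k => insert_ne_empty _ _ k.2]
  have d : R i = ∅ → Qb.dec (2 * i) R = i := fun r => by
    unfold Qb.dec
    rw [Nat.mul_div_cancel_left _ two_pos, if_pos ⟨by omega, r⟩]
  have e1 : (8 * i + 1) % 8 = 1 := by omega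
  have e2 : (8 * i + 1) / 8 = i := by omega
  have sub := h.1.sub i
  have ev := h.1.ev i
  cases q : F.q i
  · have z : F.size (8 * i + 1) = 2 := by simp [Qb.size, e1, e2, q, hi]
    rw [z] at hx sub ⊢
    have r := One_two _ (mem_powerset.2 fun b hb => mem_range.2 (sub b hb)) ev x hx hx'
    have v := One_val hi (d r ▸ h.2.1)
    refine ⟨1 - x, by omega, by omega, by simp [r], fun w => ⟨_, One_dec h (d r) (d' _) w
      (v.2 q true) (fun j hj s k => (One_en_upd F R hj.ne _ s).1 k) fun s _ k => ?_⟩⟩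
    simpa [Qb.en, q, lit] using k
  · have z : F.size (8 * i + 1) = 4 := by simp [Qb.size, e1, e2, q, hi]
    rw [z] at hx sub ⊢
    by_cases r : R i = ∅
    · obtain ⟨b, v⟩ := (One_val hi (d r ▸ h.2.1)).1 q
      obtain ⟨y, y1, y2, y3⟩ := One_first x hx b
      refine ⟨y, y1, y2, by simp [r], fun w => ⟨_, One_dec h (d r) (d' _) w v
        (fun j hj s k => (One_en_upd F R hj.ne _ s).1 k) fun s hs k => y3 s hs ?_⟩⟩
      simpa only [Qb.en, q, update_self, r, true_and, Bool.true_eq_false, false_and, or_false]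
        using k
    · obtain ⟨y, y1, y2, y3, y4⟩ :=
        One_last _ (mem_powerset.2 fun b hb => mem_range.2 (sub b hb)) ev r x hx hx'
      have d2 : Qb.dec (2 * i) R = i + 1 := by
        unfold Qb.dec
        rw [Nat.mul_div_cancel_left _ two_pos, if_neg fun k => r k.2]
      refine ⟨y, y1, y2, y3, fun w => ⟨a, w, by rw [d', ← d2]; exact h.2.1, fun j hj s hs k => ?_⟩⟩
      rw [d'] at hj
      by_cases e : j = i
      · subst e
        refine (y4 s hs ?_).elim
        simpa only [Qb.en, q, update_self, true_and, Bool.true_eq_false, false_and, or_false]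
          using k
      · exact h.2.2 j (by omega) s hs ((One_en_upd F R e _ s).1 k)

theorem p_one (hm : S_mok) (ht : S_table) (hh : S_hot) (ha : S_adm) (hz : S_zl) (hs : S_trans)
    (hw : S_switch) (hg : S_oneG) : S_one := by
  intro F hF t R a w v e
  obtain ⟨ok, -, mem, -, -⟩ := hm F
  have nxt : ∀ t R a, OneInv F t R a →
      (∃ t' R' a', OneInv F t' R' a' ∧ t' < 2 * F.n ∧ F.St t R 0 = F.St t' R' 0) ∨
        Res false (F.mach.pos (F.St t R 0) true) := by
    intro t R a h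
    rcases h.1.le.eq_or_lt with rfl | l
    · exact Or.inr (One_end hg hF h)
    · exact Or.inl ⟨t, R, a, h, l, rfl⟩
  refine (nxt t R a ⟨w, v, e⟩).elim (hz F.mach ok
    (fun s => ∃ t R a, OneInv F t R a ∧ t < 2 * F.n ∧ s = F.St t R 0) ?_ _) id
  rintro _ ⟨t, R, a, h, l, rfl⟩
  obtain ⟨ω, adm, -⟩ := ha F hF t R 0 h.1 (fun _ => 0) 0 two_pos
    fun i _ => ⟨by omega, One_en0 F R i⟩
  have hot := hh F hF t R 0 ω h.1 adm
  refine ⟨ω, _, hot, fun u hu ne od => ?_⟩
  have tb := (ht F hF t R 0 h.1 u hu).1 od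
  have al := (mem t R 0 u).1 hu
  have dm : (8 * t, 1) ∈ (F.St t R 0).erase u := mem_erase.2 ⟨ne.symm, hot.2.1⟩
  obtain ⟨tr1, tr2, -⟩ := hs F hF t R 0 h.1
  obtain ⟨κ, x⟩ := u
  rcases tb with ⟨k1, k2 | k2⟩ | ⟨k1, k2⟩ | ⟨k1, k2⟩ | ⟨-, k2, -⟩ | ⟨-, k2⟩ | ⟨k1, k2⟩
  · have := al.2.1 k1
    dsimp only at k1 k2 this
    exact (ne (Prod.ext (by dsimp only; omega) (by dsimp only; omega))).elim
  · dsimp only at k1 k2
    obtain rfl : κ = 8 * (t + 1) := by omega
    obtain rfl : x = 0 := k2.2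
    obtain ⟨e, w⟩ := tr1 l
    obtain ⟨a', h'⟩ := One_step h l w
    exact ⟨_, dm, by rw [e]; exact nxt _ _ _ h'⟩
  · dsimp only at k1 k2
    obtain ⟨i, rfl⟩ : ∃ i, κ = 8 * i + 1 := ⟨κ / 8, by omega⟩
    have e2 : (8 * i + 1) / 8 = i := by omega
    rw [e2] at k2
    subst k2
    have hx' := al.2.2.1 k1
    dsimp only at hx'
    rw [e2] at hx'
    obtain ⟨y, y1, y2, y3, y4⟩ := One_var h (by omega) al.1 hx'
    have ym : (8 * i + 1, y) ∈ F.St (2 * i) R 0 := (mem _ _ _ _).2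
      ⟨y1, fun k => by dsimp only at k; omega, fun _ => by dsimp only; rwa [e2],
        fun _ => Nat.zero_le _, fun _ => Nat.zero_le _⟩
    obtain ⟨e, w⟩ := tr2 i x y rfl y2 hu ym
    obtain ⟨a', h'⟩ := y4 w
    exact ⟨_, mem_erase.2 ⟨fun k => y2 (congrArg Prod.snd k).symm, ym⟩,
      by rw [e]; exact nxt _ _ _ h'⟩
  · exact ⟨_, dm, Or.inr (hw F hF t R 0 h.1 _ hu (Or.inl k1)
      ((ht F hF t R 0 h.1 _ hu).1 od))⟩
  · omega
  · omega
  · exact ⟨_, dm, Or.inr (hw F hF t R 0 h.1 _ hu (Or.inr k1)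
      ((ht F hF t R 0 h.1 _ hu).1 od))⟩

theorem p_main (hn : S_not_both) (hm : S_mok) (ht : S_table) (he : S_elem) (hh : S_hot)
    (ha : S_adm) (hr : S_mirror) (hv : S_move) (hf : S_forced) (hs : S_trans) (h0 : S_zero)
    (h1 : S_one) : S_main := by
  intro F hF q
  obtain ⟨ok, -, mem, inn, -⟩ := hm F
  have n0 := hF.hn
  have m0 := hF.hm
  have w : F.Wf 0 (fun _ => ∅) 0 :=
    ⟨Nat.zero_le _, fun _ _ => rfl, fun _ _ k => by simp at k, fun _ => by simp, fun _ => rfl,
      by omega⟩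
  obtain ⟨e, w1⟩ := (hs F hF 0 _ 0 w).1 (by omega)
  obtain ⟨ω, adm, -⟩ := ha F hF 0 _ 0 w (fun _ => 0) 0 two_pos
    fun i _ => ⟨by omega, One_en0 F _ i⟩
  have hot := hh F hF 0 _ 0 ω w adm
  have in1 : F.mach.In F.s1 := fun u hu => inn _ _ _ u (mem_of_mem_erase hu)
  have e' : F.s1.erase (0, 1) = F.St 1 (fun _ => ∅) 0 := e
  have z : F.size 8 = 2 := by
    unfold Qb.size
    rw [if_neg (by omega), if_pos (by omega)]
  constructor
  · intro r v
    refine hn _ _ r ?_
    have r1 : Res true (F.mach.pos (F.St 1 (fun _ => ∅) 0) true) :=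
      h0 F hF 1 _ (fun _ => false) w1 (fun k => by omega) v fun i hi s k => by
        obtain rfl : i = 0 := by omega
        simpa [Qb.en, q, lit] using k
    have u8 : (8, 0) ∈ F.St 0 (fun _ => ∅) 0 := (mem _ _ _ _).2 (by simp [Qb.alive, z])
    have o8 := (ht F hF 0 _ 0 w _ u8).2 (by simp [Qb.tab])
    obtain ⟨ce, cn, -⟩ := hr F.mach ok ω _ _ hot
    obtain ⟨el1, el2, -⟩ := he F.mach ok (F.St 0 (fun _ => ∅) 0) ω
    refine hf F.mach ok F.s1 0 8 in1 (((hv F.mach ok _ (inn _ _ _) _ u8).2 o8).1.1 ce) (by omega)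
      ((el2 _ u8 0).2 (by rw [cn]; simp)) ((el2 _ u8 8).2 (by rw [cn]; simp)) ?_
    rintro ⟨κ, x⟩ hu od k
    obtain ⟨ne, hu'⟩ := mem_erase.1 hu
    have al := (mem _ _ _ _).1 hu'
    rcases k with rfl | rfl
    · obtain rfl : x = 1 := by simpa using al.2.1 rfl
      rwa [e']
    · have x2 : x < 2 := z ▸ al.1
      obtain rfl : x = 1 := by
        have : x ≠ 0 := fun k => ne (by rw [k])
        omega
      have ad : F.mach.adj (8, 1) (8, 0) = false := by
        by_contra k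
        exact ok.sd (8, 1) (8, 0) (by simpa using k) rfl
      have := (ht F hF 0 _ 0 w _ hu').1 (((el1 _ u8 _).1 od).2 ad)
      simp [Qb.tab] at this
  · intro v
    refine (hv F.mach ok F.s1 in1 (0, 1) (mem_erase.2 ⟨by simp, hot.2.1⟩)).1 true ?_
    rw [e']
    refine h1 F hF 1 _ (fun _ => false) w1 v fun i hi s _ k => ?_
    obtain rfl : i = 0 := by
      have : Qb.dec 1 (fun _ => ∅) = 1 := rfl
      omega
    simpa [Qb.en, q, lit] using k

end Pool.Agent.Chomp.SC
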