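import Pool.Agent.Work.MP_ff0f6a_lc.SC.Ehaven

/-!
The second player leaves the main line; the gates when the matrix is false.
-/

namespace Pool.Agent.Chomp.SC

open Finset Function

theorem oneb_val (hm : S_mok) (F : Qb) (t : ℕ) (R : ℕ → Finset ℕ) (g : ℕ) (u v : ℕ × ℕ) :
    F.Val' (((F.St t R g).erase u).erase v) := fun w k =>
  (((hm F).2.2.1 t R g w).1 (mem_of_mem_erase (mem_of_mem_erase k))).1

theorem oneb_dead (hm : S_mok) {F : Qb} {t : ℕ} {R : ℕ → Finset ℕ} {g : ℕ} (W : F.Wf t R g) {i : ℕ}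
    (hq : F.q i = false) (h : R i ≠ ∅) : (8 * i + 1, 1) ∉ F.St t R g := fun k => by
  have a := (((hm F).2.2.1 t R g _).1 k).2.2.1 (by simp only; omega)
  simp only [show (8 * i + 1) / 8 = i by omega] at a
  have s : R i ⊆ {0} := fun b l => by
    have c := W.sub i b l
    have e : b ≠ 1 := fun e => a (e ▸ l)
    have : F.size (8 * i + 1) ≤ 2 := by
      unfold Qb.size
      rw [if_neg (by simp only [show (8 * i + 1) / 8 = i by omega, hq]; simp)]
      split_ifs <;> omega
    simp only [mem_singleton]; omega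
  have e := W.ev i
  rcases subset_singleton_iff.1 s with s | s
  · exact h s
  · rw [s] at e; simp at e

theorem oneb_sz (F : Qb) (κ : ℕ) (h : 0 < F.size κ) : (κ % 8 = 0 → κ / 8 ≤ 2 * F.n) ∧
    (κ % 8 = 1 → κ / 8 < F.n) ∧ (κ % 8 = 2 → κ / 8 < 3 * F.n ∧ F.size κ = 2) ∧
    (κ % 8 = 3 → κ / 8 < F.m ∧ F.size κ = 2) ∧ (κ % 8 = 4 → κ / 8 + 1 < F.m → F.size κ = 2) ∧
    (κ % 8 = 5 → κ / 8 < 2 ∧ F.size κ = 2) := by
  unfold Qb.size at *
  split_ifs at * <;> omega

theorem oneb_tok (F : Qb) (t : ℕ) (u : ℕ × ℕ) : F.mach.adj (8 * t, 1) u = true ↔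
    (u.1 % 8 = 0 ∧ u.2 = 1 ∧ (u.1 / 8 = t + 1 ∨ t = u.1 / 8 + 1)) ∨
    (u.1 % 8 = 1 ∧ t = 2 * (u.1 / 8)) ∨ (u.1 % 8 = 5 ∧ u.2 = 0 ∧ t = 2 * F.n) := by
  simp only [Qb.mach, Qb.arc, Bool.or_eq_true, decide_eq_true_eq]
  constructor
  · rintro ((h | h | h | h | h | h | h | h | h | h) | (h | h | h | h | h | h | h | h | h | h))
    all_goals omega
  · rintro (⟨a, b, h | h⟩ | h | h)
    · exact .inl (.inl (by omega))
    · exact .inr (.inl (by omega))
    · exact .inl (.inr (.inl (by omega)))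
    · iterate 10 right
      omega

theorem b_switch (hm : S_mok) (ht : S_table) (he : S_elem) (hh : S_hot) (ha : S_adm)
    (hr : S_mirror) (hq : S_qhaven) (hs : S_shaven) : S_switch := by
  intro F O t R g W ⟨κ, b⟩ hu ty tb
  have M := (hm F).1
  have al := ((hm F).2.2.1 t R g _).1 hu
  have sz := oneb_sz F κ (Nat.zero_lt_of_lt al.1)
  have o := (ht F O t R g W _ hu).2 tb
  have ne : (κ, b) ≠ (8 * t, 1) := fun e => by
    have := congrArg Prod.fst e
    simp only at this ty; omega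
  have na : F.mach.adj (8 * t, 1) (κ, b) = false := by
    rw [← Bool.not_eq_true, oneb_tok]
    have := W.le
    simp only [Qb.tab] at tb ty ⊢
    rcases tb with k | k | k | k | k | k <;> (try have := k.1) <;> omega
  have key := fun ω (A : F.Adm ω R) =>
    ((hr _ M ω _ _ (hh F O t R g ω W A)).2.2 _ hu ne).2.2.2.2 o na
  simp only at ty
  rcases ty with ty | ty
  · have ne' : ¬ F.en R (κ / 8 / 3) (κ / 8 % 3) := by
      simp only [Qb.tab] at tb
      rcases tb with k | k | k | k | k | k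
      any_goals exact k.2
      all_goals (have := k.1; omega)
    obtain ⟨ω, A, a1, -⟩ := ha F O t R g W (fun i => if i = κ / 8 / 3 then κ / 8 % 3 else 0) 0
      (by omega) fun i _ => by
        split_ifs with k
        · exact ⟨by omega, k ▸ ne'⟩
        · simp [Qb.en]
    have H := key ω A
    have e : κ = 8 * (3 * (κ / 8 / 3) + κ / 8 % 3) + 2 := by omega
    have w1 : ω κ = 1 := (A.1 κ).2.2 (by have := sz.2.2.1 ty; omega)
    have b2 : b < 2 := by have := sz.2.2.1 ty; have := al.1; simp only at this; omega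
    have hc : κ / 8 % 3 < 3 := by omega
    have hi : κ / 8 / 3 < F.n := by have := sz.2.2.1 ty; omega
    generalize κ / 8 / 3 = i at *
    generalize κ / 8 % 3 = c at *
    subst e
    refine hq F O ω _ i c (b ^^^ ω _) A.1 (oneb_val hm F t R g _ _) hc H
      (fun k => by simpa using a1 i hi k) (fun k l m => ?_) fun k l m => ?_
    · exact oneb_dead hm W k (fun z => ne' (.inr ⟨k, .inr ⟨l, z⟩⟩))
        (mem_of_mem_erase (mem_of_mem_erase m))
    · have m1 := mem_of_mem_erase (mem_of_mem_erase m)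
      have d1 : (8 * t, 1) ∈ (F.St t R g).erase (8 * (3 * i + c) + 2, b) :=
        mem_erase.2 ⟨ne.symm, (hh F O t R g ω W A).2.1⟩
      rw [(he _ M _ ω).1 _ d1, (he _ M _ ω).1 _ hu, ht F O t R g W _ m1, M.symm _ (8 * t, 1),
        ← Bool.not_eq_true, ← Bool.not_eq_true, oneb_tok, Ehaven_adj1 _ _ _ (by simp only; omega)]
      have x : b ^^^ 1 ≠ b := by interval_cases b <;> decide
      simp only [Qb.tab, w1, show (8 * i + 1) / 8 = i by omega, show (8 * i + 1) % 8 = 1 by omega,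
        show (8 * (3 * i + c) + 2) % 8 = 2 by omega, show (8 * (3 * i + c) + 2) / 8 = 3 * i + c by omega,
        show (3 * i + c) % 3 = 1 by omega, k, x]
      by_cases y : 2 * i = t <;> simp [y] <;> omega
  · obtain ⟨ω, A, -, a2⟩ := ha F O t R g W (fun _ => 0) (κ / 8) (sz.2.2.2.2.2 ty).1
      fun i _ => by simp [Qb.en]
    have H := key ω A
    have e : κ = 8 * (κ / 8) + 5 := by omega
    refine hs F O ω _ (κ / 8) (b ^^^ ω κ) A.1 (oneb_val hm F t R g _ _) ?_ a2
    rw [← e]; exact H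

theorem b_oneG (hm : S_mok) (ht : S_table) (he : S_elem) (hh : S_hot) (ha : S_adm)
    (hr : S_mirror) (hz : S_zl) (hs : S_trans) (hw : S_switch) (hE : S_ehaven) : S_oneG := by
  intro F O R g j W hj hg hn
  have M := (hm F).1
  refine hz _ M (fun s => ∃ g, F.Wf (2 * F.n) R g ∧ g ≤ 2 * j ∧ s = F.St (2 * F.n) R g) ?_ _
    ⟨g, W, hg, rfl⟩
  rintro _ ⟨g, W, hg, rfl⟩
  obtain ⟨ω, A, a1, -⟩ := ha F O _ R g W (F.sg j) 0 (by omega) fun i k => ⟨O.hs _ _, hn i k⟩
  have H := hh F O _ R g ω W A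
  refine ⟨ω, _, H, ?_⟩
  rintro ⟨κ, b⟩ hu ne o
  have al := ((hm F).2.2.1 _ R g _).1 hu
  have sz := oneb_sz F κ (Nat.zero_lt_of_lt al.1)
  have tb := (ht F O _ R g W _ hu).1 o
  have d1 : (8 * (2 * F.n), 1) ∈ (F.St (2 * F.n) R g).erase (κ, b) := mem_erase.2 ⟨ne.symm, H.2.1⟩
  have mr := (hr _ M ω _ _ H).2.2 _ hu ne
  have a0 := al.1
  simp only at a0
  rcases id tb with k | k | k | k | k | k
  · have := al.2.1 k.1
    exact absurd (Prod.ext (by simp only at k this ⊢; omega) (by simp only at k this ⊢; omega)) ne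
  · simp only at k; omega
  · exact ⟨_, d1, .inr (hw F O _ R g W _ hu (.inl k.1) tb)⟩
  · simp only at k
    have w1 : ω κ = 1 := (A.1 κ).2.2 (by omega)
    have e : κ = 8 * (κ / 8) + 3 := by omega
    generalize κ / 8 = i at *
    subst e
    rcases (show i < j ∨ i = j by omega) with l | rfl
    · have := (hs F O _ R g W).2.2.1 i b rfl k.2.2 (by omega)
      refine ⟨_, mr.1, .inl ⟨g + 1, this.2, by omega, ?_⟩⟩
      rw [← this.1, pm, w1]
    have na : F.mach.adj (8 * (2 * F.n), 1) (8 * i + 3, b) = false := by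
      rw [← Bool.not_eq_true, oneb_tok]; simp only; omega
    refine ⟨_, d1, .inr (hE F O ω _ i (b ^^^ ω _) A.1 (oneb_val hm F _ R g _ _) (mr.2.2.2.2 o na)
      (fun u l => ?_) fun x l => ⟨?_, a1 x l, fun q1 q2 q3 => ?_, fun q1 q2 b' q3 => ?_⟩)⟩
    · have c := ((hm F).2.2.1 _ R g _).1 (mem_of_mem_erase (mem_of_mem_erase l))
      have c' := oneb_sz F u.1 (Nat.zero_lt_of_lt c.1)
      refine ⟨fun z => ne_of_mem_erase l (Prod.ext ?_ ?_), fun z => ?_⟩
      · have := c.2.1 z; simp only; omega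
      · have := c.2.1 z; simp only; omega
      · have := c.2.2.2.2; omega
    · have s3 := O.hs i x
      have m1 : (8 * (3 * x + F.sg i x) + 2, 0) ∈ F.St (2 * F.n) R g := by
        rw [(hm F).2.2.1]
        refine ⟨?_, by simp only; omega, by simp only; omega, by simp only; omega,
          by simp only; omega⟩
        unfold Qb.size
        split_ifs <;> simp only at * <;> omega
      rw [(he _ M _ ω).1 _ d1, (he _ M _ ω).1 _ hu, ht F O _ R g W _ m1,
        M.symm _ (8 * (2 * F.n), 1), ← Bool.not_eq_true, ← Bool.not_eq_true, oneb_tok,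
        Ehaven_adj2 _ _ _ (by simp only; omega)]
      simp [Qb.tab, show (8 * (3 * x + F.sg i x) + 2) % 8 = 2 by omega,
        show (8 * (3 * x + F.sg i x) + 2) / 8 = 3 * x + F.sg i x by omega,
        show (3 * x + F.sg i x) % 3 = F.sg i x by omega, show (3 * x + F.sg i x) / 3 = x by omega,
        show (8 * i + 3) % 8 = 3 by omega, show (8 * i + 3) / 8 = i by omega, hn x l]
    · exact oneb_dead hm W q1 (fun z => hn x l (.inr ⟨q1, .inr ⟨q2, z⟩⟩))
        (mem_of_mem_erase (mem_of_mem_erase q3))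
    · rw [(he _ M _ ω).1 _ d1, (he _ M _ ω).1 _ hu,
        ht F O _ R g W _ (mem_of_mem_erase (mem_of_mem_erase q3)),
        M.symm _ (8 * (2 * F.n), 1), ← Bool.not_eq_true, ← Bool.not_eq_true, oneb_tok,
        Ehaven_adj1 _ _ _ (by simp only; omega)]
      simp [Qb.tab, show (8 * x + 1) % 8 = 1 by omega, show (8 * x + 1) / 8 = x by omega,
        show (8 * i + 3) % 8 = 3 by omega, l.ne, l.ne']
  · simp only at k
    have w1 : ω κ = 1 := (A.1 κ).2.2 (by omega)
    have e : κ = 8 * (κ / 8) + 4 := by omega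
    generalize κ / 8 = i at *
    subst e
    have := (hs F O _ R g W).2.2.2 i b k.2 (by omega) (by omega)
    refine ⟨_, mr.1, .inl ⟨g + 1, this.2, by omega, ?_⟩⟩
    rw [← this.1, pm, w1]
  · exact ⟨_, d1, .inr (hw F O _ R g W _ hu (.inr k.1) tb)⟩

end Pool.Agent.Chomp.SC
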