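import Pool.Agent.Work.MP_ff0f6a_lc.SC.Stmt

/-!
Paired machine states, and single machine moves.
-/

namespace Pool.Agent.Chomp.SC

open Finset Function

/-- the pairing on all vertices -/
def pairedPi (ω : ℕ → ℕ) (v : ℕ × ℕ × ℕ) : ℕ × ℕ × ℕ :=
  if v.2.2 = 0 ∧ v.2.1 < 4 then (v.1, v.2.1 ^^^ ω v.1, 0) else v

theorem paired_pi_m (ω : ℕ → ℕ) {u : ℕ × ℕ} (h : u.2 < 4) :
    pairedPi ω (u.1, u.2, 0) = ((pm ω u).1, (pm ω u).2, 0) := by
  simp [pairedPi, pm, h]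

theorem paired_pi_n (ω : ℕ → ℕ) {v : ℕ × ℕ × ℕ} (h : ¬ (v.2.2 = 0 ∧ v.2.1 < 4)) :
    pairedPi ω v = v := if_neg h

theorem paired_mm {P : Mach} (hP : P.Ok) {u v : ℕ × ℕ} (hu : u.2 < 4) (hv : v.2 < 4) :
    P.G.A (u.1, u.2, 0) (v.1, v.2, 0) = P.adj u v := by
  have e : ∀ {u v : ℕ × ℕ}, u.2 < 4 → v.2 < 4 → P.arc (u.1, u.2, 0) (v.1, v.2, 0) = P.adj u v := by
    intro u v hu hv
    rw [Bool.eq_iff_iff, Mach.arc, decide_eq_true_iff]
    constructor
    · rintro (h | h | h | h | h)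
      · exact h.2.2.2.2
      all_goals
        exfalso
        simp only at h
        omega
    · exact fun h => Or.inl ⟨rfl, rfl, hu, hv, h⟩
  change (P.arc _ _ || P.arc _ _) = _
  rw [e hu hv, e hv hu, hP.symm v u, Bool.or_self]

theorem paired_mn (P : Mach) {v : ℕ × ℕ × ℕ} (hv : ¬ (v.2.2 = 0 ∧ v.2.1 < 4)) (κ : ℕ) {b b' : ℕ}
    (hb : b < 4) (hb' : b' < 4) : P.G.A (κ, b, 0) v = P.G.A (κ, b', 0) v := by
  have e1 : ∀ {b : ℕ}, b < 4 → P.arc v (κ, b, 0) = false := by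
    intro b hb
    rw [Mach.arc, decide_eq_false_iff_not]
    rintro (h | h | h | h | h)
    · exact hv ⟨h.1, h.2.2.1⟩
    · exact hv ⟨h.1, h.2.1⟩
    all_goals
      simp only at h
      omega
  have e2 : ∀ {b b' : ℕ}, b < 4 → b' < 4 → P.arc (κ, b, 0) v = true → P.arc (κ, b', 0) v = true := by
    intro b b' hb hb'
    rw [Mach.arc, Mach.arc, decide_eq_true_iff, decide_eq_true_iff]
    rintro (h | h | h | h | h)
    · exact absurd ⟨h.2.1, h.2.2.2.1⟩ hv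
    · exact Or.inr (Or.inl ⟨rfl, hb', h.2.2⟩)
    all_goals
      exfalso
      simp only at h
      omega
  change (P.arc _ _ || P.arc _ _) = (P.arc _ _ || P.arc _ _)
  rw [e1 hb, e1 hb', Bool.eq_iff_iff.2 ⟨e2 hb hb', e2 hb' hb⟩]

theorem p_paired (h0 : S_Gok) (hv : S_vs) (hd : S_deg) (hg : S_goal) (hf : S_fr) (he : S_elem)
    (ho : S_pairO) (hp : S_pair) (hl : S_lose) : S_paired := by
  intro P hP s ω hs hq
  have hh : ∀ κ e, full κ e ≤ tau κ e + 1 := fun _ _ => le_rfl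
  obtain ⟨v1, v2, -, -, v5⟩ := hv P hP s full hs hh
  obtain ⟨d1, d2, d3⟩ := hd P hP s full hs hh
  obtain ⟨-, -, e3, e4⟩ := he P hP s ω
  obtain ⟨e5, e6, -⟩ := e4 hq
  have cl : ∀ v ∈ P.vs s full, (∃ u ∈ s, v = (u.1, u.2, 0)) ∨ ¬ (v.2.2 = 0 ∧ v.2.1 < 4) := by
    rintro ⟨a, b, c⟩ h
    rcases (v2 _).1 h with h | h | h
    · obtain ⟨rfl, k⟩ : c = 0 ∧ (a, b) ∈ s := h
      exact Or.inl ⟨(a, b), k, rfl⟩
    · right
      omega
    · right
      omega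
  have lt4 : ∀ u ∈ s, u.2 < 4 := fun u hu => (hs u hu).2
  have pd : P.G.Pd (pairedPi ω) (P.vs s full) := by
    refine ⟨v1, ⟨rfl, rfl, rfl⟩, fun v h => ?_, fun v h => ?_, fun v h => ?_, fun v h => ?_,
      fun v h e => ⟨?_, fun u hu => ?_⟩, fun u hu v h => ?_⟩
    · rcases cl v h with ⟨u, hu, rfl⟩ | hn
      · rw [paired_pi_m ω (lt4 u hu)]
        exact (v2 _).2 (Or.inl ⟨rfl, hq.mem u hu⟩)
      · rwa [paired_pi_n ω hn]
    · rcases cl v h with ⟨u, hu, rfl⟩ | hn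
      · rw [paired_pi_m ω (lt4 u hu), paired_pi_m ω (lt4 _ (hq.mem u hu)), (e3 u).1]
      · rw [paired_pi_n ω hn, paired_pi_n ω hn]
    · rcases cl v h with ⟨u, hu, rfl⟩ | hn
      · rw [paired_pi_m ω (lt4 u hu)]
        have a1 := lt4 u hu
        have a2 := lt4 _ (hq.mem u hu)
        simp only [Mach.G, a1, a2, if_true]
        rfl
      · rw [paired_pi_n ω hn]
    · rcases cl v h with ⟨u, hu, rfl⟩ | hn
      · rw [paired_pi_m ω (lt4 u hu), d1 _ (hq.mem u hu), d1 u hu]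
        exact hq.par u hu
      · rw [paired_pi_n ω hn]
    · rw [← Nat.not_odd_iff_even]
      obtain ⟨a, b, c⟩ := v
      rcases (v2 _).1 h with h | h | h
      · exfalso
        obtain ⟨rfl, k⟩ : c = 0 ∧ (a, b) ∈ s := h
        rw [paired_pi_m ω (lt4 _ k)] at e
        exact (e3 _).2.2 (hq.nz _ k) (Prod.ext rfl (congrArg (fun x => x.2.1) e))
      · rw [d2 a h.1 b h.2.1 c h.2.2.1 h.2.2.2]
        rintro ⟨-, -, -, -, k | k⟩
        · exact Nat.not_succ_le_self _ k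
        · exact Nat.not_odd_iff_even.2 (e6 a) k.2
      · obtain ⟨rfl, rfl, h1, h2⟩ : a = 0 ∧ c = 0 ∧ 4 ≤ b ∧ b ≤ 6 := h
        have k := fun σ => hg P hP s full hs hh σ
        simp only [(hf P full hh).1, Nat.not_odd_zero, iff_false] at k
        obtain rfl | rfl | rfl : b = 4 ∨ b = 5 ∨ b = 6 := by omega
        · exact k false
        · exact k true
        · exact Nat.not_odd_iff_even.2 d3
    · rcases cl v h with ⟨a, ha, rfl⟩ | hn
      · exfalso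
        rw [paired_pi_m ω (lt4 _ ha)] at e
        exact (e3 _).2.2 (hq.nz _ ha) (Prod.ext rfl (congrArg (fun x => x.2.1) e))
      · rcases cl u hu with ⟨a, ha, rfl⟩ | hn'
        · rw [paired_pi_m ω (lt4 a ha)]
          exact paired_mn P hn a.1 (lt4 _ (hq.mem a ha)) (lt4 a ha)
        · rw [paired_pi_n ω hn']
    · rcases cl v h with ⟨b, hb, rfl⟩ | hn
      · rcases cl u hu with ⟨a, ha, rfl⟩ | hn'
        · rw [paired_pi_m ω (lt4 a ha), paired_pi_m ω (lt4 b hb),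
            paired_mm hP (lt4 a ha) (lt4 b hb), paired_mm hP (lt4 a ha) (lt4 _ (hq.mem b hb)),
            paired_mm hP (lt4 _ (hq.mem a ha)) (lt4 b hb),
            paired_mm hP (lt4 _ (hq.mem a ha)) (lt4 _ (hq.mem b hb))]
          exact hq.blk a ha b hb
        · rw [paired_pi_n ω hn']
      · rw [paired_pi_n ω hn, Bool.xor_self, Bool.xor_self]
  have co : P.CO s := ⟨v5.2 e5, ho _ P.G (h0 P hP) _ _ pd⟩
  have r0 := hp _ P.G (h0 P hP) _ _ pd co
  exact ⟨co, r0, (hl _ P.G (h0 P hP) _ true).2.2.1 v1 r0⟩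

theorem p_move (h0 : S_Gok) (hv : S_vs) (hd : S_deg) (hl : S_lose) : S_move := by
  intro P hP s hs u hu
  have hh : ∀ κ e, full κ e ≤ tau κ e + 1 := fun _ _ => le_rfl
  obtain ⟨-, v2, v3, -⟩ := hv P hP s full hs hh
  have hm : (u.1, u.2, 0) ∈ P.vs s full := (v2 _).2 (Or.inl ⟨rfl, hu⟩)
  refine ⟨fun b h => (hl _ P.G (h0 P hP) _ b).2.1 _ hm ?_, fun h => ?_⟩
  · rw [v3 u hu]
    exact h
  · have k := (hl _ P.G (h0 P hP) _ true).1 _ hm (((hd P hP s full hs hh).1 u hu).2 h)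
    rw [v3 u hu] at k
    exact k

end Pool.Agent.Chomp.SC
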