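import Pool.Agent.Work.MP_ff0f6a_lc.SC.Stmt

/-!
The token sits in a literal class or in a final class.
-/

namespace Pool.Agent.Chomp.SC

open Finset Function

theorem Qhaven_adj2 (F : Qb) (a u : ℕ × ℕ) (ha : a.1 % 8 = 2) :
    F.mach.adj a u = true ↔
      (u.1 % 8 = 3 ∧ a.2 = 0 ∧ a.1 / 8 % 3 = F.sg (u.1 / 8) (a.1 / 8 / 3)) ∨
      (u.1 % 8 = 1 ∧ a.1 / 8 / 3 = u.1 / 8 ∧
        ((F.q (u.1 / 8) = true ∧ u.2 / (a.1 / 8 % 3) % 2 = 1) ∨
         (F.q (u.1 / 8) = false ∧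
          ((a.1 / 8 % 3 = 1 ∧ u.2 = a.2) ∨ (a.1 / 8 % 3 = 2 ∧ u.2 = 1))))) := by
  simp only [Qb.mach, Qb.arc, Bool.or_eq_true, decide_eq_true_eq]
  constructor
  · rintro ((h | h | h | h | h | h | h | h | h | h) | (h | h | h | h | h | h | h | h | h | h))
    all_goals first
      | exact Or.inl h.2
      | exact Or.inr ⟨h.1, h.2.2.1, h.2.2.2⟩
      | (exfalso; have h1 := h.1; have h2 := h.2.1; omega)
  · rintro (h | h)
    · exact Or.inl (Or.inr (Or.inr (Or.inr (Or.inl ⟨ha, h⟩))))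
    · exact Or.inr (Or.inr (Or.inr (Or.inl ⟨h.1, ha, h.2.1, h.2.2⟩)))

theorem Qhaven_adj1 (F : Qb) (a u : ℕ × ℕ) (ha : a.1 % 8 = 1) :
    F.mach.adj a u = true ↔
      (u.1 % 8 = 0 ∧ u.1 / 8 = 2 * (a.1 / 8)) ∨
      (u.1 % 8 = 2 ∧ u.1 / 8 / 3 = a.1 / 8 ∧
        ((F.q (a.1 / 8) = true ∧ a.2 / (u.1 / 8 % 3) % 2 = 1) ∨
         (F.q (a.1 / 8) = false ∧
          ((u.1 / 8 % 3 = 1 ∧ a.2 = u.2) ∨ (u.1 / 8 % 3 = 2 ∧ a.2 = 1))))) := by
  simp only [Qb.mach, Qb.arc, Bool.or_eq_true, decide_eq_true_eq]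
  constructor
  · rintro ((h | h | h | h | h | h | h | h | h | h) | (h | h | h | h | h | h | h | h | h | h))
    all_goals first
      | exact Or.inl ⟨h.1, h.2.2⟩
      | exact Or.inr h.2
      | (exfalso; have h1 := h.1; have h2 := h.2.1; omega)
  · rintro (h | h)
    · exact Or.inr (Or.inr (Or.inl ⟨h.1, ha, h.2⟩))
    · exact Or.inl (Or.inr (Or.inr (Or.inl ⟨ha, h⟩)))

theorem Qhaven_adj5 (F : Qb) (a u : ℕ × ℕ) (ha : a.1 % 8 = 5) :
    F.mach.adj a u = true ↔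
      (u.1 % 8 = 0 ∧ a.2 = 0 ∧ u.1 / 8 = 2 * F.n) ∨
      (u.1 % 8 = 4 ∧ u.1 / 8 + 1 = F.m ∧ u.2 / (a.1 / 8 + 1) % 2 = 1) := by
  simp only [Qb.mach, Qb.arc, Bool.or_eq_true, decide_eq_true_eq]
  constructor
  · rintro ((h | h | h | h | h | h | h | h | h | h) | (h | h | h | h | h | h | h | h | h | h))
    all_goals first
      | exact Or.inl h.2
      | exact Or.inr ⟨h.1, h.2.2.1, h.2.2.2⟩
      | (exfalso; have h1 := h.1; have h2 := h.2.1; omega)
  · rintro (h | h)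
    · exact Or.inl (Or.inr (Or.inr (Or.inr (Or.inr (Or.inr (Or.inr (Or.inr (Or.inr (Or.inr
        ⟨ha, h⟩)))))))))
    · exact Or.inr (Or.inr (Or.inr (Or.inr (Or.inr (Or.inr (Or.inr (Or.inr (Or.inr (Or.inl
        ⟨h.1, ha, h.2⟩)))))))))

theorem Qhaven_size2 (F : Qb) (κ : ℕ) (h : κ % 8 = 2) : F.size κ ≤ 2 := by
  unfold Qb.size
  split_ifs with h1 h2
  · exfalso; rcases h1 with h1 | h1 <;> have := h1.1 <;> omega
  · exact le_rfl
  · omega

theorem Qhaven_size5 (F : Qb) (r : ℕ) (h : 0 < F.size (8 * r + 5)) : r < 2 := by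
  unfold Qb.size at h
  split_ifs at h with h1 h2
  · exfalso; rcases h1 with h1 | h1 <;> have := h1.1 <;> omega
  · omega
  · omega

theorem Qhaven_size1 (F : Qb) (i : ℕ) (h : F.q i = false) : F.size (8 * i + 1) ≤ 2 := by
  unfold Qb.size
  have e : (8 * i + 1) / 8 = i := by omega
  split_ifs with h1 h2
  · exfalso
    rcases h1 with h1 | h1
    · rw [e, h] at h1; exact absurd h1.2.2 (by decide)
    · have := h1.1; omega
  · exact le_rfl
  · omega

theorem Qhaven_xor (c x w : ℕ) (hc : c < 3) (hx : x < 4) (hw : w < 4) (h : w / c % 2 = 0) :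
    (x ^^^ w) / c % 2 = x / c % 2 := by
  interval_cases c <;> interval_cases x <;> interval_cases w <;> first | rfl | omega

theorem Qhaven_x1 (x y : ℕ) (hx : x < 2) (hy : y < 2) (h : x ≠ y) : x ^^^ 1 = y := by
  interval_cases x <;> interval_cases y <;> first | rfl | omega

/-- the other member of a class of size at most two -/
theorem Qhaven_oth {F : Qb} {ω : ℕ → ℕ} {s : Finset (ℕ × ℕ)} {d : ℕ × ℕ} (hω : F.Msk ω)
    (hv : F.Val' s) (hh : F.mach.Hot ω s d) {κ x y : ℕ} (hs : F.size κ ≤ 2) (hu : (κ, x) ∈ s)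
    (hud : (κ, x) ≠ d) (hy : y < 2) (hxy : x ≠ y) : (κ, y) ∈ s.erase d := by
  have h1 := hh.2.2.2.mem _ (mem_erase.2 ⟨hud, hu⟩)
  have hx : x < F.size κ := hv _ hu
  have hw : ω κ = 1 := (hω _).2.2 (by omega)
  unfold pm at h1
  dsimp only at h1
  rwa [hw, Qhaven_x1 x y (by omega) hy hxy] at h1

theorem p_qhaven (hm : S_mok) (hr : S_mirror) (hh : S_haven) : S_qhaven := by
  intro F hF ω s i c b hω hv hc hot h1 h2 h3
  have _ := hr
  have hP : F.mach.Ok := (hm F).1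
  have hd2 : ((8 * (3 * i + c) + 2, b) : ℕ × ℕ).1 % 8 = 2 := by
    show (8 * (3 * i + c) + 2) % 8 = 2; omega
  have e1 : (8 * (3 * i + c) + 2) / 8 % 3 = c := by omega
  have e2 : (8 * (3 * i + c) + 2) / 8 / 3 = i := by omega
  have e3 : (8 * i + 1) / 8 = i := by omega
  have hs2 := Qhaven_size2 F _ hd2
  have hb : b < 2 := lt_of_lt_of_le (hv _ hot.2.1) hs2
  have key : ∀ κ x, (κ = 8 * i + 1 → ((F.q i = true ∧ (x ^^^ ω (8 * i + 1)) / c % 2 = 1) ∨
      (F.q i = false ∧ ((c = 1 ∧ x ^^^ ω (8 * i + 1) = b) ∨ (c = 2 ∧ x ^^^ ω (8 * i + 1) = 1))) ↔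
      (F.q i = true ∧ x / c % 2 = 1) ∨ (F.q i = false ∧ ((c = 1 ∧ x = b) ∨ (c = 2 ∧ x = 1))))) →
      F.mach.Sym ω (8 * (3 * i + c) + 2, b) (κ, x) := fun κ x h => by
    unfold Mach.Sym
    rw [Bool.eq_iff_iff, Qhaven_adj2 F _ _ hd2, Qhaven_adj2 F _ _ hd2]
    unfold pm
    dsimp only
    rw [e1, e2]
    refine or_congr Iff.rfl (and_congr_right fun a1 => and_congr_right fun a2 => ?_)
    have hκ : κ = 8 * i + 1 := by omega
    subst hκ
    rw [← a2]
    exact h rfl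
  have hne : ∀ x, ((8 * i + 1, x) : ℕ × ℕ) ≠ (8 * (3 * i + c) + 2, b) := fun x e => by
    have := congrArg Prod.fst e
    dsimp only at this
    omega
  by_cases hx : F.q i = false ∧ c = 1 ∧ (8 * i + 1, b) ∈ s
  · obtain ⟨a1, a2, a3⟩ := hx
    have hs1 := Qhaven_size1 F i a1
    have hw : ω (8 * i + 1) = 1 := (hω _).2.2 (by omega)
    have hpm : pm ω (8 * i + 1, b) = (8 * i + 1, b ^^^ 1) := by
      unfold pm; dsimp only; rw [hw]
    have hb1 : b ^^^ 1 ≠ b := by interval_cases b <;> decide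
    refine (hh F.mach hP ω s _ hot).2 (8 * i + 1, b) ?_ ?_ (h3 a1 a2 a3) ?_
    · rw [Qhaven_adj2 F _ _ hd2]
      dsimp only
      rw [e1, e2, e3]
      exact Or.inr ⟨by omega, rfl, Or.inr ⟨a1, Or.inl ⟨a2, rfl⟩⟩⟩
    · rw [← Bool.not_eq_true, hpm, Qhaven_adj2 F _ _ hd2]
      dsimp only
      rw [e1, e2, e3, a1]
      rintro (h | ⟨-, -, h | ⟨-, h | h⟩⟩)
      · omega
      · exact absurd h.1 (by decide)
      · exact hb1 h.2
      · omega
    · rintro ⟨κ, x⟩ hu hud hux hup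
      refine ⟨key κ x fun e => ?_, ?_⟩
      · exfalso
        subst e
        have hx2 : x < 2 := lt_of_lt_of_le (hv _ hu) hs1
        have hxb : x ≠ b := fun e => hux (by rw [e])
        exact hup (by rw [hpm, Qhaven_x1 b x hb hx2 hxb.symm])
      · have ha1 : ((8 * i + 1, b) : ℕ × ℕ).1 % 8 = 1 := by show (8 * i + 1) % 8 = 1; omega
        unfold Mach.Sym
        rw [Bool.eq_iff_iff, Qhaven_adj1 F _ _ ha1, Qhaven_adj1 F _ _ ha1]
        unfold pm
        dsimp only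
        rw [e3]
        refine or_congr Iff.rfl (and_congr_right fun a4 => and_congr_right fun a5 => ?_)
        refine or_congr Iff.rfl (and_congr_right fun _ => or_congr (and_congr_right fun a6 => ?_)
          Iff.rfl)
        exfalso
        have hκ : κ = 8 * (3 * i + c) + 2 := by omega
        subst hκ
        exact notMem_erase _ s (Qhaven_oth hω hv hot hs2 hu hud hb fun e => hud (by rw [e]))
  · refine (hh F.mach hP ω s _ hot).1 ?_
    rintro ⟨κ, x⟩ hu hud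
    refine key κ x fun e => ?_
    subst e
    have hx4 : x < 4 := lt_of_lt_of_le (hv _ hu) ((hm F).2.1 _).1
    refine or_congr (and_congr_right fun a3 => ?_) (and_congr_right fun a3 => ?_)
    · rw [Qhaven_xor _ _ _ hc hx4 (hω _).2.1 (h1 a3)]
    · have hs1 := Qhaven_size1 F i a3
      have oth : ∀ y < 2, (8 * i + 1, y) ∈ s := fun y hy => by
        by_cases e : x = y
        · rwa [← e]
        · exact mem_of_mem_erase (Qhaven_oth hω hv hot hs1 hu hud hy e)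
      exact or_congr (and_congr_right fun a4 => absurd ⟨a3, a4, oth b hb⟩ hx)
        (and_congr_right fun a4 => absurd (oth 1 (by omega)) (h2 a3 a4))

theorem p_shaven (hm : S_mok) (hr : S_mirror) (hh : S_haven) : S_shaven := by
  intro F hF ω s r b hω hv hot h1
  have _ := hr
  have hd5 : ((8 * r + 5, b) : ℕ × ℕ).1 % 8 = 5 := by show (8 * r + 5) % 8 = 5; omega
  have hr2 : r < 2 := Qhaven_size5 F r (lt_of_le_of_lt (Nat.zero_le _) (hv _ hot.2.1))
  refine (hh F.mach (hm F).1 ω s _ hot).1 ?_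
  rintro ⟨κ, x⟩ hu -
  have hx4 : x < 4 := lt_of_lt_of_le (hv _ hu) ((hm F).2.1 _).1
  unfold Mach.Sym
  rw [Bool.eq_iff_iff, Qhaven_adj5 F _ _ hd5, Qhaven_adj5 F _ _ hd5]
  unfold pm
  dsimp only
  have e : (8 * r + 5) / 8 = r := by omega
  rw [e]
  refine or_congr Iff.rfl (and_congr_right fun a1 => and_congr_right fun a2 => ?_)
  have hκ : κ = 8 * (F.m - 1) + 4 := by omega
  subst hκ
  rw [Qhaven_xor _ _ _ (by omega) hx4 (hω _).2.1 h1]

end Pool.Agent.Chomp.SC
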