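import Pool.Agent.Work.MP_ff0f6a_lc.SC.Stmt

/-!
The parity table for the classes of type `0`.
-/

namespace Pool.Agent.Chomp.SC

open Finset Function

lemma tab0_adj (F : Qb) (k b : ℕ) (v : ℕ × ℕ) : F.mach.adj (8 * k, b) v = true ↔
    (v.1 = 8 * (k + 1) ∧ v.2 = b) ∨ (v.1 % 8 = 1 ∧ k = 2 * (v.1 / 8)) ∨
    (v.1 = 3 ∧ k = 2 * F.n ∧ b = 0) ∨ (v.1 + 8 = 8 * k ∧ v.2 = b) ∨
    (v.1 % 8 = 5 ∧ v.2 = 0 ∧ k = 2 * F.n) := by
  have h0 : 8 * k % 8 = 0 := by omega
  have h1 : 8 * k / 8 = k := by omega
  simp only [Qb.mach, Qb.arc, Bool.or_eq_true, decide_eq_true_eq, h0, h1, true_and]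
  constructor
  · rintro ((h | h | h | h | h | h | h | h | h | h) | (h | h | h | h | h | h | h | h | h | h)) <;>
      omega
  · rintro (h | h | h | h | h)
    · exact Or.inl (Or.inl (by omega))
    · exact Or.inl (Or.inr (Or.inl (by omega)))
    · exact Or.inl (Or.inr (Or.inr (Or.inr (Or.inr (Or.inl (by omega))))))
    · exact Or.inr (Or.inl (by omega))
    · exact Or.inr (Or.inr (Or.inr (Or.inr (Or.inr (Or.inr (Or.inr (Or.inr (Or.inr (Or.inr
        (by omega))))))))))

lemma tab0_size0 (F : Qb) (k : ℕ) : F.size (8 * k) = if k ≤ 2 * F.n then 2 else 0 := by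
  unfold Qb.size
  rw [if_neg (by rintro (⟨h, -⟩ | h) <;> omega)]
  split_ifs <;> omega

lemma tab0_size5 (F : Qb) (k : ℕ) : F.size (8 * k + 5) = if k < 2 then 2 else 0 := by
  unfold Qb.size
  rw [if_neg (by rintro (⟨h, -⟩ | h) <;> omega)]
  split_ifs <;> omega

lemma tab0_size3 (F : Qb) (hF : F.Ok) : F.size 3 = 2 := by
  have := hF.hm
  unfold Qb.size
  rw [if_neg (by rintro (⟨h, -⟩ | h) <;> omega), if_pos (by omega)]

lemma tab0_even (F : Qb) (κ : ℕ) : Even (F.size κ) := by
  unfold Qb.size
  split_ifs <;> decide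

theorem p_tab0 (hm : S_mok) : S_tab 0 := by
  intro F hF t R g hW u hu h8
  obtain ⟨-, -, hmem, -, -⟩ := hm F
  obtain ⟨κ, b⟩ := u
  obtain ⟨k, rfl⟩ : ∃ k, κ = 8 * k := ⟨κ / 8, by simp only at h8; omega⟩
  obtain ⟨a1, a2, -⟩ := (hmem _ _ _ _).1 hu
  have a3 := a2 h8
  simp only [tab0_size0] at a1 a3
  have hk : k ≤ 2 * F.n ∧ b < 2 := by split_ifs at a1 <;> omega
  have hle := hW.le
  set S := (F.St t R g).filter fun v => F.mach.adj (8 * k, b) v = true with hS
  have mS : ∀ v, v ∈ S ↔ F.alive t R g v ∧ _ := fun v => by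
    rw [hS, mem_filter, hmem, tab0_adj]
  have hsum : S.card = ∑ ty ∈ range 8, (S.filter fun v => v.1 % 8 = ty).card :=
    card_eq_sum_card_fiberwise fun v _ => mem_coe.2 (mem_range.2 (Nat.mod_lt _ (by norm_num)))
  have e0 : ∀ ty, ty = 2 ∨ ty = 4 ∨ ty = 6 ∨ ty = 7 →
      (S.filter fun v => v.1 % 8 = ty).card = 0 := fun ty h => by
    rw [card_eq_zero, filter_eq_empty_iff]
    intro v hv
    have := ((mS v).1 hv).2
    omega
  have e1 : Even (S.filter fun v => v.1 % 8 = 1).card := by
    by_cases c : k % 2 = 0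
    · have : (S.filter fun v => v.1 % 8 = 1) =
          (range (F.size (8 * (k / 2) + 1)) \ R (k / 2)).image fun c => (8 * (k / 2) + 1, c) := by
        ext ⟨x, y⟩
        rw [mem_filter, mS, mem_image]
        constructor
        · rintro ⟨⟨⟨b1, -, b2, -⟩, b3⟩, b4⟩
          simp only at b1 b2 b3 b4
          have ex : x = 8 * (k / 2) + 1 := by omega
          have ey : x / 8 = k / 2 := by omega
          rw [ey] at b2
          exact ⟨y, mem_sdiff.2 ⟨mem_range.2 (ex ▸ b1), b2 b4⟩, by rw [ex]⟩
        · rintro ⟨c', hc, e⟩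
          obtain ⟨rfl, rfl⟩ := Prod.mk.inj e
          obtain ⟨c1, c2⟩ := mem_sdiff.1 hc
          have ey : (8 * (k / 2) + 1) / 8 = k / 2 := by omega
          refine ⟨⟨⟨mem_range.1 c1, by simp only; omega, fun _ => by simpa only [ey] using c2,
            by simp only; omega, by simp only; omega⟩, by simp only; omega⟩, by simp only; omega⟩
      rw [this, card_image_of_injective _ fun a a' e => (Prod.mk.inj e).2,
        card_sdiff_of_subset fun c hc => mem_range.2 (hW.sub _ c hc), card_range]
      exact (Nat.even_sub ((card_le_card fun c hc => mem_range.2 (hW.sub _ c hc)).trans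
        (card_range _).le)).2 ⟨fun _ => hW.ev _, fun _ => tab0_even F _⟩
    · have : (S.filter fun v => v.1 % 8 = 1) = ∅ := by
        rw [filter_eq_empty_iff]
        intro v hv
        have := ((mS v).1 hv).2
        omega
      rw [this]
      decide
  have e3 : Even (S.filter fun v => v.1 % 8 = 3).card := by
    by_cases c : k = 2 * F.n ∧ b = 0 ∧ g = 0
    · have : (S.filter fun v => v.1 % 8 = 3) = {(3, 0), (3, 1)} := by
        ext ⟨x, y⟩
        rw [mem_filter, mS, mem_insert, mem_singleton, Prod.mk.injEq, Prod.mk.injEq]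
        constructor
        · rintro ⟨⟨⟨b1, -⟩, b3⟩, b4⟩
          simp only at b1 b3 b4
          have ex : x = 3 := by omega
          rw [ex, tab0_size3 F hF] at b1
          omega
        · intro h
          have ex : x = 3 := by omega
          refine ⟨⟨⟨?_, by simp only; omega, by simp only; omega, by simp only; omega,
            by simp only; omega⟩, by simp only; omega⟩, by simp only; omega⟩
          simp only
          rw [ex, tab0_size3 F hF]
          omega
      rw [this]
      decide
    · have : (S.filter fun v => v.1 % 8 = 3) = ∅ := by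
        rw [filter_eq_empty_iff]
        intro v hv h3
        obtain ⟨⟨-, -, -, b2, -⟩, b3⟩ := (mS v).1 hv
        have := b2 h3
        omega
      rw [this]
      decide
  have e5 : Even (S.filter fun v => v.1 % 8 = 5).card := by
    by_cases c : k = 2 * F.n
    · have : (S.filter fun v => v.1 % 8 = 5) = {(5, 0), (13, 0)} := by
        ext ⟨x, y⟩
        rw [mem_filter, mS, mem_insert, mem_singleton, Prod.mk.injEq, Prod.mk.injEq]
        constructor
        · rintro ⟨⟨⟨b1, -⟩, b3⟩, b4⟩
          simp only at b1 b3 b4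
          have ex : x = 8 * (x / 8) + 5 := by omega
          rw [ex, tab0_size5] at b1
          split_ifs at b1 <;> omega
        · intro h
          refine ⟨⟨⟨?_, by simp only; omega, by simp only; omega, by simp only; omega,
            by simp only; omega⟩, by simp only; omega⟩, by simp only; omega⟩
          have ex : x = 8 * (x / 8) + 5 := by omega
          simp only
          rw [ex, tab0_size5, if_pos (by omega)]
          omega
      rw [this]
      decide
    · have : (S.filter fun v => v.1 % 8 = 5) = ∅ := by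
        rw [filter_eq_empty_iff]
        intro v hv
        have := ((mS v).1 hv).2
        omega
      rw [this]
      decide
  have e00 : (S.filter fun v => v.1 % 8 = 0) =
      (if k < 2 * F.n then {(8 * (k + 1), b)} else ∅) ∪
        (if t + 1 < k ∨ (k = t + 1 ∧ b = 1) then {(8 * (k - 1), b)} else ∅) := by
    ext ⟨x, y⟩
    rw [mem_filter, mS, mem_union]
    constructor
    · rintro ⟨⟨⟨b1, b2, -⟩, b3⟩, b4⟩
      simp only at b1 b2 b3 b4
      have b5 := b2 b4
      have ex : x = 8 * (x / 8) := by omega
      rw [ex, tab0_size0] at b1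
      by_cases c : x = 8 * (k + 1)
      · left
        rw [if_pos (by split_ifs at b1 <;> omega), mem_singleton, Prod.mk.injEq]
        omega
      · right
        rw [if_pos (by omega), mem_singleton, Prod.mk.injEq]
        omega
    · intro h
      have h' : (k < 2 * F.n ∧ x = 8 * (k + 1) ∧ y = b) ∨
          ((t + 1 < k ∨ (k = t + 1 ∧ b = 1)) ∧ x = 8 * (k - 1) ∧ y = b) := by
        rcases h with h | h
        · split_ifs at h with c
          · exact Or.inl ⟨c, Prod.mk.inj (mem_singleton.1 h)⟩
          · exact absurd h (notMem_empty _)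
        · split_ifs at h with c
          · exact Or.inr ⟨c, Prod.mk.inj (mem_singleton.1 h)⟩
          · exact absurd h (notMem_empty _)
      refine ⟨⟨⟨?_, by simp only; omega, by simp only; omega, by simp only; omega,
        by simp only; omega⟩, by simp only; omega⟩, by simp only; omega⟩
      have ex : x = 8 * (x / 8) := by omega
      simp only
      rw [ex, tab0_size0, if_pos (by omega)]
      omega
  have e01 : (S.filter fun v => v.1 % 8 = 0).card = (if k < 2 * F.n then 1 else 0) +
      if t + 1 < k ∨ (k = t + 1 ∧ b = 1) then 1 else 0 := by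
    rw [e00, card_union_of_disjoint]
    · split_ifs <;> rfl
    · split_ifs with c1 c2
      · rw [disjoint_singleton, Ne, Prod.mk.injEq]
        omega
      all_goals simp
  have ef : (F.mach.fix (8 * k)).toNat = if k < 2 * F.n then 1 else 0 := by
    have h0 : 8 * k % 8 = 0 := by omega
    have h1 : 8 * k / 8 = k := by omega
    simp only [Qb.mach, h0, h1]
    split_ifs with c <;> simp [c]
  have et : F.tab t R g (8 * k, b) ↔ k = t ∨ (k = t + 1 ∧ b = 0) := by
    have h0 : 8 * k % 8 = 0 := by omega
    have h1 : 8 * k / 8 = k := by omega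
    simp [Qb.tab, h0, h1]
  rw [et]
  show Odd (S.card + 1 + (F.mach.fix (8 * k)).toNat) ↔ _
  simp only [sum_range_succ, sum_range_zero, e0 2 (by omega), e0 4 (by omega), e0 6 (by omega),
    e0 7 (by omega), e01] at hsum
  rw [ef, hsum, Nat.odd_iff]
  rw [Nat.even_iff] at e1 e3 e5
  split_ifs <;> omega

end Pool.Agent.Chomp.SC
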