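import Pool.Agent.Work.MP_ff0f6a_lc.SC.Stmt

/-!
The parity table for the classes of types 1 and 2.
-/

namespace Pool.Agent.Chomp.SC

open Finset Function

theorem Tab12_par (S : Finset (ℕ × ℕ)) (p : ℕ → Prop) [DecidablePred p]
    (h : ∀ v ∈ S, ¬ p v.1 → v.2 < 2 ∧ (v.1, 1 - v.2) ∈ S) :
    S.card % 2 = (S.filter fun v => p v.1).card % 2 := by
  have h1 := Finset.card_filter_add_card_filter_not (s := S) (fun v => p v.1)
  have h2 : ∑ _v ∈ S.filter (fun v => ¬ p v.1), (1 : ZMod 2) = 0 := by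
    refine Finset.sum_involution (fun v _ => (v.1, 1 - v.2)) (fun _ _ => by decide) ?_ ?_ ?_
    · intro v hv _ e
      have h3 := (h v (mem_filter.1 hv).1 (mem_filter.1 hv).2).1
      have h4 : 1 - v.2 = v.2 := congrArg Prod.snd e
      omega
    · intro v hv
      exact mem_filter.2 ⟨(h v (mem_filter.1 hv).1 (mem_filter.1 hv).2).2, (mem_filter.1 hv).2⟩
    · intro v hv
      have h3 := (h v (mem_filter.1 hv).1 (mem_filter.1 hv).2).1
      refine Prod.ext rfl ?_
      show 1 - (1 - v.2) = v.2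
      omega
  rw [Finset.sum_const, nsmul_eq_mul, mul_one, ZMod.natCast_eq_zero_iff_even, Nat.even_iff] at h2
  omega

theorem Tab12_sz0 (F : Qb) {κ : ℕ} (h : κ % 8 = 0) :
    F.size κ = if κ / 8 ≤ 2 * F.n then 2 else 0 := by
  unfold Qb.size
  rw [if_neg (by omega)]
  split_ifs <;> first | rfl | omega

theorem Tab12_sz2 (F : Qb) {κ : ℕ} (h : κ % 8 = 2) :
    F.size κ = if κ / 8 < 3 * F.n then 2 else 0 := by
  unfold Qb.size
  rw [if_neg (by omega)]
  split_ifs <;> first | rfl | omega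

theorem Tab12_sz3 (F : Qb) {κ : ℕ} (h : κ % 8 = 3) :
    F.size κ = if κ / 8 < F.m then 2 else 0 := by
  unfold Qb.size
  rw [if_neg (by omega)]
  split_ifs <;> first | rfl | omega

theorem Tab12_sz1 (F : Qb) (i : ℕ) :
    F.size (8 * i + 1) = if i < F.n then (if F.q i = true then 4 else 2) else 0 := by
  have e1 : (8 * i + 1) % 8 = 1 := by omega
  have e2 : (8 * i + 1) / 8 = i := by omega
  have e3 : 8 * i + 1 ≠ 6 := by omega
  unfold Qb.size
  rw [e1, e2]
  by_cases h1 : i < F.n <;> cases h2 : F.q i <;> simp [h1, e3]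

theorem Tab12_adj1 (F : Qb) (i b κ c : ℕ) : F.mach.adj (8 * i + 1, b) (κ, c) = true ↔
    κ = 16 * i ∨ (κ % 8 = 2 ∧ κ / 8 / 3 = i ∧ ((F.q i = true ∧ b / (κ / 8 % 3) % 2 = 1) ∨
      (F.q i = false ∧ ((κ / 8 % 3 = 1 ∧ b = c) ∨ (κ / 8 % 3 = 2 ∧ b = 1))))) := by
  have e1 : (8 * i + 1) % 8 = 1 := by omega
  have e2 : (8 * i + 1) / 8 = i := by omega
  simp only [Qb.mach, Qb.arc, Bool.or_eq_true, decide_eq_true_eq, e1, e2]
  constructor
  · rintro ((h | h | h | h | h | h | h | h | h | h) | (h | h | h | h | h | h | h | h | h | h)) <;>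
      first | (exfalso; omega) | exact Or.inr h.2 | (left; omega)
  · rintro (h | h)
    · exact Or.inr (Or.inr (Or.inl ⟨by omega, by trivial, by omega⟩))
    · exact Or.inl (Or.inr (Or.inr (Or.inl ⟨by trivial, h⟩)))

theorem Tab12_adj2 (F : Qb) (k b κ c : ℕ) : F.mach.adj (8 * k + 2, b) (κ, c) = true ↔
    (κ % 8 = 3 ∧ b = 0 ∧ k % 3 = F.sg (κ / 8) (k / 3)) ∨
    (κ = 8 * (k / 3) + 1 ∧ ((F.q (k / 3) = true ∧ c / (k % 3) % 2 = 1) ∨
      (F.q (k / 3) = false ∧ ((k % 3 = 1 ∧ c = b) ∨ (k % 3 = 2 ∧ c = 1))))) := by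
  have e1 : (8 * k + 2) % 8 = 2 := by omega
  have e2 : (8 * k + 2) / 8 = k := by omega
  simp only [Qb.mach, Qb.arc, Bool.or_eq_true, decide_eq_true_eq, e1, e2]
  constructor
  · rintro ((h | h | h | h | h | h | h | h | h | h) | (h | h | h | h | h | h | h | h | h | h)) <;>
      first | (exfalso; omega) | exact Or.inl h.2 | skip
    obtain ⟨h1, -, h2, h3⟩ := h
    rw [← h2] at h3
    exact Or.inr ⟨by omega, h3⟩
  · rintro (h | ⟨h1, h2⟩)
    · exact Or.inl (Or.inr (Or.inr (Or.inr (Or.inl ⟨by trivial, h⟩))))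
    · have h3 : κ / 8 = k / 3 := by omega
      rw [h3]
      exact Or.inr (Or.inr (Or.inr (Or.inl ⟨by omega, by trivial, rfl, h2⟩)))

theorem p_tab1 (hm : S_mok) : S_tab 1 := by
  rintro F - t R g - ⟨κ0, b⟩ hu hty
  obtain ⟨-, -, hmem, -, -⟩ := hm F
  obtain ⟨i, rfl⟩ : ∃ i, κ0 = 8 * i + 1 := ⟨κ0 / 8, by simp only at hty; omega⟩
  have e1 : (8 * i + 1) % 8 = 1 := by omega
  have e2 : (8 * i + 1) / 8 = i := by omega
  have hb : b < F.size (8 * i + 1) := ((hmem t R g _).1 hu).1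
  rw [Tab12_sz1] at hb
  have hi : i < F.n := by
    by_contra hi
    rw [if_neg hi] at hb
    omega
  rw [if_pos hi] at hb
  have a0 : ∀ c, (16 * i, c) ∈ F.St t R g ↔ c < 2 ∧ (t < 2 * i ∨ (2 * i = t ∧ c = 1)) := by
    intro c
    have f1 : 16 * i % 8 = 0 := by omega
    have f2 : 16 * i / 8 = 2 * i := by omega
    rw [hmem]
    simp only [Qb.alive, Tab12_sz0 F f1, f1, f2]
    rw [if_pos (by omega)]
    simp
  have a2 : ∀ κ c, κ % 8 = 2 → κ / 8 / 3 = i → ((κ, c) ∈ F.St t R g ↔ c < 2) := by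
    intro κ c f1 f2
    rw [hmem]
    simp only [Qb.alive, Tab12_sz2 F f1, f1]
    rw [if_pos (by omega)]
    simp
  have hp := Tab12_par ((F.St t R g).filter fun v => F.mach.adj (8 * i + 1, b) v = true)
    (fun κ => (κ = 16 * i ∧ 2 * i = t) ∨ (κ = 24 * i + 10 ∧ F.q i = false)) (by
      rintro ⟨κ, c⟩ hv hn
      simp only [mem_filter, Tab12_adj1] at hv hn ⊢
      obtain ⟨h1, rfl | ⟨h2, h3, h4⟩⟩ := hv
      · rw [a0] at h1 ⊢
        refine ⟨h1.1, ?_, Or.inl rfl⟩
        have : ¬ 2 * i = t := fun h => hn (Or.inl ⟨rfl, h⟩)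
        omega
      · rw [a2 _ _ h2 h3] at h1 ⊢
        refine ⟨h1, by omega, Or.inr ⟨h2, h3, ?_⟩⟩
        rcases h4 with h4 | ⟨h4, h5 | h5⟩
        · exact Or.inl h4
        · exact absurd (Or.inr ⟨by omega, h4⟩) hn
        · exact Or.inr ⟨h4, Or.inr h5⟩)
  have hs : (((F.St t R g).filter fun v => F.mach.adj (8 * i + 1, b) v = true).filter
      fun v => (v.1 = 16 * i ∧ 2 * i = t) ∨ (v.1 = 24 * i + 10 ∧ F.q i = false)) =
      (if 2 * i = t then {(16 * i, 1)} else ∅) ∪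
        if F.q i = false then {(24 * i + 10, b)} else ∅ := by
    ext ⟨κ, c⟩
    simp only [mem_filter, Tab12_adj1, mem_union]
    constructor
    · rintro ⟨⟨h1, h2⟩, ⟨rfl, h3⟩ | ⟨rfl, h3⟩⟩
      · rw [a0] at h1
        rw [if_pos h3]
        exact Or.inl (mem_singleton.2 (Prod.ext rfl (by simp only; omega)))
      · rw [if_pos h3]
        refine Or.inr (mem_singleton.2 (Prod.ext rfl ?_))
        rcases h2 with h2 | ⟨-, -, ⟨h2, -⟩ | ⟨-, h2⟩⟩
        · omega
        · rw [h3] at h2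
          exact absurd h2 (by decide)
        · simp only
          omega
    · rintro (h | h)
      · by_cases h3 : 2 * i = t
        · rw [if_pos h3, mem_singleton, Prod.mk.injEq] at h
          obtain ⟨rfl, rfl⟩ := h
          exact ⟨⟨(a0 1).2 (by omega), Or.inl rfl⟩, Or.inl ⟨rfl, h3⟩⟩
        · rw [if_neg h3] at h
          exact absurd h (notMem_empty _)
      · by_cases h3 : F.q i = false
        · rw [if_pos h3, mem_singleton, Prod.mk.injEq] at h
          obtain ⟨rfl, rfl⟩ := h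
          rw [h3] at hb
          exact ⟨⟨(a2 _ _ (by omega) (by omega)).2 (by simpa using hb),
            Or.inr ⟨by omega, by omega, Or.inr ⟨h3, Or.inl ⟨by omega, rfl⟩⟩⟩⟩, Or.inr ⟨rfl, h3⟩⟩
        · rw [if_neg h3] at h
          exact absurd h (notMem_empty _)
  rw [hs] at hp
  have hf : F.mach.fix (8 * i + 1) = F.q i := by
    simp only [Qb.mach, e1, e2]
    cases F.q i <;> simp
  have ht : F.tab t R g (8 * i + 1, b) ↔ 2 * i = t := by
    simp [Qb.tab, e1, e2]
  have hne : ((16 * i, 1) : ℕ × ℕ) ≠ (24 * i + 10, b) := fun h => by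
    have := congrArg Prod.fst h
    simp only at this
    omega
  rw [ht, Mach.od, hf, Nat.odd_iff]
  by_cases h3 : 2 * i = t <;> cases h4 : F.q i <;>
    simp only [h3, h4, if_true, if_false, Bool.toNat_false, Bool.toNat_true, reduceCtorEq,
      union_empty, empty_union, card_singleton, card_empty, singleton_union, iff_true,
      iff_false] at hp ⊢
  · rw [card_pair hne] at hp
    omega
  all_goals omega

theorem p_tab2 (hm : S_mok) : S_tab 2 := by
  rintro F - t R g hw ⟨κ0, b⟩ hu hty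
  obtain ⟨-, -, hmem, -, -⟩ := hm F
  obtain ⟨k, rfl⟩ : ∃ k, κ0 = 8 * k + 2 := ⟨κ0 / 8, by simp only at hty; omega⟩
  have e1 : (8 * k + 2) % 8 = 2 := by omega
  have e2 : (8 * k + 2) / 8 = k := by omega
  have hb : b < F.size (8 * k + 2) := ((hmem t R g _).1 hu).1
  rw [Tab12_sz2 F e1, e2] at hb
  have hk : k < 3 * F.n := by
    by_contra hk
    rw [if_neg hk] at hb
    omega
  rw [if_pos hk] at hb
  have hi : k / 3 < F.n := by omega
  have a1 : ∀ c, (8 * (k / 3) + 1, c) ∈ F.St t R g ↔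
      c < (if F.q (k / 3) = true then 4 else 2) ∧ c ∉ R (k / 3) := by
    intro c
    have f1 : (8 * (k / 3) + 1) % 8 = 1 := by omega
    have f2 : (8 * (k / 3) + 1) / 8 = k / 3 := by omega
    rw [hmem]
    simp only [Qb.alive, Tab12_sz1, f1, f2]
    rw [if_pos hi]
    simp
  have a3 : ∀ κ c, κ % 8 = 3 → (κ, c) ∈ F.St t R g → c < 2 ∧ (κ, 1 - c) ∈ F.St t R g := by
    intro κ c f1
    rw [hmem, hmem]
    simp only [Qb.alive, Tab12_sz3 F f1]
    split_ifs
    · rintro ⟨h1, -, -, h2, -⟩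
      exact ⟨h1, by omega, fun h => absurd h (by omega), fun h => absurd h (by omega), h2,
        fun h => absurd h (by omega)⟩
    · rintro ⟨h1, -⟩
      omega
  have hp := Tab12_par ((F.St t R g).filter fun v => F.mach.adj (8 * k + 2, b) v = true)
    (fun κ => κ = 8 * (k / 3) + 1) (by
      rintro ⟨κ, c⟩ hv hn
      simp only [mem_filter, Tab12_adj2] at hv hn ⊢
      obtain ⟨h1, h2 | h2⟩ := hv
      · exact ⟨(a3 κ c h2.1 h1).1, (a3 κ c h2.1 h1).2, Or.inl h2⟩
      · exact absurd h2.1 hn)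
  have hs : (((F.St t R g).filter fun v => F.mach.adj (8 * k + 2, b) v = true).filter
      fun v => v.1 = 8 * (k / 3) + 1) =
      ((range 4).filter fun c => (c < (if F.q (k / 3) = true then 4 else 2) ∧ c ∉ R (k / 3)) ∧
        ((F.q (k / 3) = true ∧ c / (k % 3) % 2 = 1) ∨ (F.q (k / 3) = false ∧
          ((k % 3 = 1 ∧ c = b) ∨ (k % 3 = 2 ∧ c = 1))))).image fun c => (8 * (k / 3) + 1, c) := by
    ext ⟨κ, c⟩
    simp only [mem_filter, Tab12_adj2, mem_image, mem_range, Prod.mk.injEq]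
    constructor
    · rintro ⟨⟨h1, h2⟩, rfl⟩
      rw [a1] at h1
      refine ⟨c, ⟨?_, h1, ?_⟩, rfl, rfl⟩
      · have := h1.1
        split_ifs at this <;> omega
      · rcases h2 with h2 | h2
        · omega
        · exact h2.2
    · rintro ⟨c', ⟨-, h1, h2⟩, rfl, rfl⟩
      exact ⟨⟨(a1 _).2 h1, Or.inr ⟨rfl, h2⟩⟩, rfl⟩
  rw [hs, card_image_of_injective _ (fun c c' h => congrArg Prod.snd h)] at hp
  have ht : F.tab t R g (8 * k + 2, b) ↔ ¬ F.en R (k / 3) (k % 3) := by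
    simp [Qb.tab, e1, e2]
  have hf : F.mach.fix (8 * k + 2) = decide (k % 3 = 1 ∧ F.q (k / 3) = false) := by
    simp [Qb.mach, e1, e2]
  have hsub := hw.sub (k / 3)
  have hev := hw.ev (k / 3)
  rw [Tab12_sz1, if_pos hi] at hsub
  rw [ht, Mach.od, hf, Nat.odd_iff, Qb.en]
  have key : ∀ (N s : ℕ) (Q : Bool) (T : Finset ℕ), s < 3 →
      (∀ c ∈ T, c < if Q = true then 4 else 2) → Even T.card →
      N % 2 = ((range 4).filter fun c => (c < (if Q = true then 4 else 2) ∧ c ∉ T) ∧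
        ((Q = true ∧ c / s % 2 = 1) ∨ (Q = false ∧
          ((s = 1 ∧ c = b) ∨ (s = 2 ∧ c = 1))))).card % 2 →
      ((N + 1 + (decide (s = 1 ∧ Q = false)).toNat) % 2 = 1 ↔
        ¬ ((Q = true ∧ Odd (T.filter fun b => b / s % 2 = 1).card) ∨
          (Q = false ∧ ((s = 1 ∧ T ≠ ∅) ∨ (s = 2 ∧ T = ∅))))) := by
    intro N s Q T h1 h2 h3 h4
    have h5 : T ∈ (range 4).powerset := mem_powerset.2 fun c hc => mem_range.2 (by
      have := h2 c hc
      split_ifs at this <;> omega)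
    rw [Nat.add_assoc, Nat.add_mod, h4]
    clear h4
    have h6 : ∀ b < 2, ∀ s < 3, ∀ Q : Bool, ∀ T ∈ (range 4).powerset,
        (∀ c ∈ T, c < if Q = true then 4 else 2) → Even T.card →
        ((((range 4).filter fun c => (c < (if Q = true then 4 else 2) ∧ c ∉ T) ∧
        ((Q = true ∧ c / s % 2 = 1) ∨ (Q = false ∧
          ((s = 1 ∧ c = b) ∨ (s = 2 ∧ c = 1))))).card % 2 +
          (1 + (decide (s = 1 ∧ Q = false)).toNat) % 2) % 2 = 1 ↔
        ¬ ((Q = true ∧ Odd (T.filter fun b => b / s % 2 = 1).card) ∨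
          (Q = false ∧ ((s = 1 ∧ T ≠ ∅) ∨ (s = 2 ∧ T = ∅))))) := by
      intro b hb s hs Q
      interval_cases b <;> interval_cases s <;> cases Q <;>
        simp only [Nat.even_iff, Nat.odd_iff, Bool.false_eq_true, Bool.true_eq_false, if_true,
          if_false, true_and, false_and, and_false, false_or, or_false, and_true, not_false_iff,
          iff_true, OfNat.ofNat_ne_one, OfNat.one_ne_ofNat, OfNat.zero_ne_ofNat, zero_ne_one] <;>
        decide
    exact h6 b hb s h1 Q T h5 h2 h3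
  exact key _ _ _ _ (by omega) hsub hev hp

end Pool.Agent.Chomp.SC
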