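import Pool.Agent.Work.MP_ff0f6a_lc.SC.Stmt

/-!
The parity table for the clause classes.
-/

namespace Pool.Agent.Chomp.SC

open Finset Function

theorem tab34_adj3 (F : Qb) (j b : ℕ) (v : ℕ × ℕ) : F.mach.adj (8 * j + 3, b) v = true ↔
    (v.1 % 8 = 2 ∧ v.2 = 0 ∧ v.1 / 8 % 3 = F.sg j (v.1 / 8 / 3)) ∨ (b = 1 ∧ v.1 = 8 * j + 4) ∨
      (j = 0 ∧ v.1 = 16 * F.n ∧ v.2 = 0) ∨ (v.1 + 4 = 8 * j ∧ v.2 = 1) := by
  have e1 : (8 * j + 3) % 8 = 3 := by omega
  have e2 : (8 * j + 3) / 8 = j := by omega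
  simp only [Qb.mach, Qb.arc, Bool.or_eq_true, decide_eq_true_eq, e1, e2, Nat.reduceEqDiff,
    false_and, and_false, false_or, or_false, true_and]
  generalize F.sg j (v.1 / 8 / 3) = s
  omega

theorem tab34_adj4 (F : Qb) (j b : ℕ) (v : ℕ × ℕ) : F.mach.adj (8 * j + 4, b) v = true ↔
    ((b = 1 ∧ v.1 = 8 * j + 11) ∨ (v.1 % 8 = 5 ∧ j + 1 = F.m ∧ b / (v.1 / 8 + 1) % 2 = 1)) ∨
      (v.1 = 8 * j + 3 ∧ v.2 = 1) ∨ (v.1 = 6 ∧ v.2 = 0) := by
  have e1 : (8 * j + 4) % 8 = 4 := by omega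
  have e2 : (8 * j + 4) / 8 = j := by omega
  simp only [Qb.mach, Qb.arc, Bool.or_eq_true, decide_eq_true_eq, e1, e2, Nat.reduceEqDiff,
    false_and, and_false, false_or, or_false, true_and]
  generalize b / (v.1 / 8 + 1) = s
  omega

theorem tab34_al0 (F : Qb) (t : ℕ) (R : ℕ → Finset ℕ) (g i y : ℕ) : F.alive t R g (8 * i, y) ↔
    y < 2 ∧ i ≤ 2 * F.n ∧ (t < i ∨ (i = t ∧ y = 1)) := by
  have e1 : (8 * i) % 8 = 0 := by omega
  have e2 : (8 * i) / 8 = i := by omega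
  have e3 : 8 * i ≠ 6 := by omega
  simp only [Qb.alive, Qb.size, e1, e2, e3, Nat.reduceEqDiff, false_and, or_false,
    true_and, false_imp_iff, and_true, if_false, true_imp_iff]
  split_ifs <;> omega

theorem tab34_al2 (F : Qb) (t : ℕ) (R : ℕ → Finset ℕ) (g i y : ℕ) :
    F.alive t R g (8 * i + 2, y) ↔ y < 2 ∧ i < 3 * F.n := by
  have e1 : (8 * i + 2) % 8 = 2 := by omega
  have e2 : (8 * i + 2) / 8 = i := by omega
  have e3 : 8 * i + 2 ≠ 6 := by omega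
  simp only [Qb.alive, Qb.size, e1, e2, e3, Nat.reduceEqDiff, false_and, false_or, or_false,
    true_and, false_imp_iff, and_true, if_false]
  split_ifs <;> omega

theorem tab34_al3 (F : Qb) (t : ℕ) (R : ℕ → Finset ℕ) (g i y : ℕ) :
    F.alive t R g (8 * i + 3, y) ↔ y < 2 ∧ i < F.m ∧ g ≤ 2 * i := by
  have e1 : (8 * i + 3) % 8 = 3 := by omega
  have e2 : (8 * i + 3) / 8 = i := by omega
  have e3 : 8 * i + 3 ≠ 6 := by omega
  simp only [Qb.alive, Qb.size, e1, e2, e3, Nat.reduceEqDiff, false_and, false_or, or_false,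
    true_and, false_imp_iff, and_true, if_false, true_imp_iff]
  split_ifs <;> omega

theorem tab34_al4 (F : Qb) (t : ℕ) (R : ℕ → Finset ℕ) (g i y : ℕ) :
    F.alive t R g (8 * i + 4, y) ↔
      ((i + 1 = F.m ∧ y < 4) ∨ (y < 2 ∧ i < F.m)) ∧ g ≤ 2 * i + 1 := by
  have e1 : (8 * i + 4) % 8 = 4 := by omega
  have e2 : (8 * i + 4) / 8 = i := by omega
  have e3 : 8 * i + 4 ≠ 6 := by omega
  simp only [Qb.alive, Qb.size, e1, e2, e3, Nat.reduceEqDiff, false_and, false_or, or_false,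
    true_and, false_imp_iff, true_imp_iff]
  split_ifs <;> omega

theorem tab34_al5 (F : Qb) (t : ℕ) (R : ℕ → Finset ℕ) (g i y : ℕ) :
    F.alive t R g (8 * i + 5, y) ↔ y < 2 ∧ i < 2 := by
  have e1 : (8 * i + 5) % 8 = 5 := by omega
  have e2 : (8 * i + 5) / 8 = i := by omega
  have e3 : 8 * i + 5 ≠ 6 := by omega
  simp only [Qb.alive, Qb.size, e1, e2, e3, Nat.reduceEqDiff, false_and, false_or, or_false,
    true_and, false_imp_iff, and_true, if_false]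
  split_ifs <;> omega

theorem tab34_al6 (F : Qb) (t : ℕ) (R : ℕ → Finset ℕ) (g y : ℕ) :
    F.alive t R g (6, y) ↔ y < 2 := by
  simp [Qb.alive, Qb.size]

theorem tab34_mem3 (F : Qb) (t : ℕ) (R : ℕ → Finset ℕ) (g j b x y : ℕ) (w1 : t ≤ 2 * F.n)
    (w2 : t < 2 * F.n → g = 0) (hj : j < F.m) (hg : g ≤ 2 * j) :
    (F.alive t R g (x, y) ∧ F.mach.adj (8 * j + 3, b) (x, y) = true) ↔
      (x / 8 < 3 * F.n ∧ x % 8 = 2 ∧ y = 0 ∧ x / 8 % 3 = F.sg j (x / 8 / 3)) ∨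
      (x = 8 * j + 4 ∧ y < 2 * if b = 1 then if j + 1 = F.m then 2 else 1 else 0) ∨
      ((x, y) = (if j = 0 then (16 * F.n, 0) else (8 * j - 4, 1)) ∧
        ¬ (t = 2 * F.n ∧ g = 2 * j)) := by
  rw [tab34_adj3]
  dsimp only
  constructor
  · rintro ⟨ha, h | ⟨rfl, rfl⟩ | ⟨rfl, rfl, rfl⟩ | ⟨h, rfl⟩⟩
    · rw [show x = 8 * (x / 8) + 2 by omega, tab34_al2] at ha
      exact Or.inl ⟨ha.2, h⟩
    · rw [tab34_al4] at ha
      refine Or.inr (Or.inl ⟨rfl, ?_⟩)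
      rw [if_pos rfl]
      split_ifs <;> omega
    · rw [show 16 * F.n = 8 * (2 * F.n) by omega, tab34_al0] at ha
      exact Or.inr (Or.inr ⟨by rw [if_pos rfl], by omega⟩)
    · rw [show x = 8 * (j - 1) + 4 by omega, tab34_al4] at ha
      refine Or.inr (Or.inr ⟨?_, by omega⟩)
      rw [if_neg (by omega), show x = 8 * j - 4 by omega]
  · rintro (⟨h0, h⟩ | ⟨rfl, h⟩ | ⟨h, h'⟩)
    · refine ⟨?_, Or.inl h⟩
      rw [show x = 8 * (x / 8) + 2 by omega, tab34_al2]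
      omega
    · rw [tab34_al4]
      split_ifs at h <;> omega
    · split_ifs at h with h0
      · obtain ⟨rfl, rfl⟩ := Prod.mk.inj h
        refine ⟨?_, Or.inr (Or.inr (Or.inl ⟨h0, rfl, rfl⟩))⟩
        rw [show 16 * F.n = 8 * (2 * F.n) by omega, tab34_al0]
        omega
      · obtain ⟨rfl, rfl⟩ := Prod.mk.inj h
        refine ⟨?_, Or.inr (Or.inr (Or.inr ⟨by omega, rfl⟩))⟩
        rw [show 8 * j - 4 = 8 * (j - 1) + 4 by omega, tab34_al4]
        omega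

theorem tab34_mem4 (F : Qb) (t : ℕ) (R : ℕ → Finset ℕ) (g j b x y : ℕ) (hj : j < F.m)
    (hg : g ≤ 2 * j + 1) :
    (F.alive t R g (x, y) ∧ F.mach.adj (8 * j + 4, b) (x, y) = true) ↔
      ((x < 8 * j + 14 ∧ ((b = 1 ∧ x = 8 * j + 11 ∧ j + 1 < F.m) ∨
        (x % 8 = 5 ∧ x / 8 < 2 ∧ j + 1 = F.m ∧ b / (x / 8 + 1) % 2 = 1))) ∧ y < 2) ∨
      (x = 6 ∧ y = 0) ∨ ((x = 8 * j + 3 ∧ y = 1) ∧ g ≤ 2 * j) := by
  rw [tab34_adj4]
  dsimp only
  constructor
  · rintro ⟨ha, (⟨hb, rfl⟩ | h) | ⟨rfl, rfl⟩ | h⟩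
    · rw [show 8 * j + 11 = 8 * (j + 1) + 3 by omega, tab34_al3] at ha
      exact Or.inl ⟨⟨by omega, Or.inl ⟨hb, rfl, ha.2.1⟩⟩, ha.1⟩
    · have h1 := h.1
      rw [show x = 8 * (x / 8) + 5 by omega, tab34_al5] at ha
      exact Or.inl ⟨⟨by omega, Or.inr ⟨h.1, ha.2, h.2⟩⟩, ha.1⟩
    · rw [tab34_al3] at ha
      exact Or.inr (Or.inr ⟨⟨rfl, rfl⟩, ha.2.2⟩)
    · exact Or.inr (Or.inl h)
  · rintro (⟨⟨-, ⟨hb, rfl, h⟩ | ⟨h1, h2, h⟩⟩, hy⟩ | ⟨rfl, rfl⟩ | ⟨⟨rfl, rfl⟩, h⟩)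
    · refine ⟨?_, Or.inl (Or.inl ⟨hb, rfl⟩)⟩
      rw [show 8 * j + 11 = 8 * (j + 1) + 3 by omega, tab34_al3]
      omega
    · refine ⟨?_, Or.inl (Or.inr ⟨h1, h⟩)⟩
      rw [show x = 8 * (x / 8) + 5 by omega, tab34_al5]
      exact ⟨hy, h2⟩
    · exact ⟨(tab34_al6 F t R g 0).2 (by omega), Or.inr (Or.inr ⟨rfl, rfl⟩)⟩
    · exact ⟨(tab34_al3 F t R g j 1).2 ⟨by omega, hj, h⟩, Or.inr (Or.inl ⟨rfl, rfl⟩)⟩

theorem tab34_card {N A B C : Finset (ℕ × ℕ)} (h : ∀ v, v ∈ N ↔ v ∈ A ∨ v ∈ B ∨ v ∈ C)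
    (h1 : ∀ v ∈ A, v ∉ B ∧ v ∉ C) (h2 : ∀ v ∈ B, v ∉ C) : #N = #A + (#B + #C) := by
  rw [← card_union_of_disjoint (disjoint_left.2 h2), ← card_union_of_disjoint
    (disjoint_left.2 fun v hv hb => (mem_union.1 hb).elim (h1 v hv).1 (h1 v hv).2)]
  congr 1
  ext v
  rw [h, mem_union, mem_union]

theorem tab34_one (x : ℕ × ℕ) (p : Prop) [Decidable p] :
    #(({x} : Finset (ℕ × ℕ)).filter fun _ => p) = if p then 1 else 0 := by
  split_ifs with h
  · rw [filter_true_of_mem fun _ _ => h, card_singleton]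
  · rw [filter_false_of_mem fun _ _ => h, card_empty]

theorem p_tab3 (hm : S_mok) : S_tab 3 := by
  intro F hF t R g W u hu h3
  obtain ⟨-, -, hS, -⟩ := hm F
  obtain ⟨κ, b⟩ := u
  obtain ⟨j, rfl⟩ : ∃ j, κ = 8 * j + 3 := ⟨κ / 8, by dsimp only at h3; omega⟩
  have e1 : (8 * j + 3) % 8 = 3 := by omega
  have e2 : (8 * j + 3) / 8 = j := by omega
  obtain ⟨-, hj, hg⟩ := (tab34_al3 F t R g j b).1 ((hS _ _ _ _).1 hu)
  have hc := tab34_card (N := (F.St t R g).filter fun v => F.mach.adj (8 * j + 3, b) v = true)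
    (A := (range F.n).image fun i => (8 * (3 * i + F.sg j i) + 2, 0))
    (B := {8 * j + 4} ×ˢ range (2 * if b = 1 then if j + 1 = F.m then 2 else 1 else 0))
    (C := ({if j = 0 then (16 * F.n, 0) else (8 * j - 4, 1)} : Finset (ℕ × ℕ)).filter fun _ =>
      ¬ (t = 2 * F.n ∧ g = 2 * j)) (fun v => by
      obtain ⟨x, y⟩ := v
      have hA : (x, y) ∈ (range F.n).image (fun i => (8 * (3 * i + F.sg j i) + 2, 0)) ↔
          x / 8 < 3 * F.n ∧ x % 8 = 2 ∧ y = 0 ∧ x / 8 % 3 = F.sg j (x / 8 / 3) := by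
        simp only [mem_image, mem_range, Prod.mk.injEq]
        constructor
        · rintro ⟨i, hi, rfl, rfl⟩
          have := hF.hs j i
          rw [show (8 * (3 * i + F.sg j i) + 2) / 8 / 3 = i by omega]
          omega
        · exact fun h => ⟨x / 8 / 3, by omega, by omega, by omega⟩
      rw [hA, mem_filter, hS, tab34_mem3 F t R g j b x y W.le W.g0 hj hg, mem_filter,
        mem_singleton, mem_product, mem_singleton, mem_range])
    (fun v hv => by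
      obtain ⟨i, -, rfl⟩ := mem_image.1 hv
      rw [mem_filter, mem_singleton, mem_product, mem_singleton]
      refine ⟨fun h => ?_, fun h => ?_⟩
      · have := h.1
        omega
      · have := h.1
        split_ifs at this <;> have := (Prod.mk.inj this).1 <;> omega)
    (fun v hv h => by
      obtain ⟨x, y⟩ := v
      have h1 := mem_singleton.1 (mem_product.1 hv).1
      have h2 := mem_singleton.1 (mem_filter.1 h).1
      split_ifs at h2 <;> have := (Prod.mk.inj h2).1 <;> omega)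
  rw [card_image_of_injOn (fun i _ i' _ e => by
    have h1 := hF.hs j i
    have h2 := hF.hs j i'
    have h3 := (Prod.mk.inj e).1
    omega), card_range, card_product, card_singleton, card_range, tab34_one] at hc
  have hf : (F.mach.fix (8 * j + 3)).toNat = F.n % 2 := by
    simp only [Qb.mach, e1, Nat.reduceEqDiff, false_and, false_or, or_false, true_and]
    rcases Nat.mod_two_eq_zero_or_one F.n with h | h <;> simp [h]
  rw [Mach.od, hc, hf, Nat.odd_iff, Qb.tab]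
  simp only [e1, e2, Nat.reduceEqDiff, false_and, false_or, or_false, true_and]
  generalize (if b = 1 then if j + 1 = F.m then 2 else 1 else 0) = c
  split_ifs <;> omega

theorem p_tab4 (hm : S_mok) : S_tab 4 := by
  intro F hF t R g W u hu h3
  obtain ⟨-, -, hS, -⟩ := hm F
  obtain ⟨κ, b⟩ := u
  obtain ⟨j, rfl⟩ : ∃ j, κ = 8 * j + 4 := ⟨κ / 8, by dsimp only at h3; omega⟩
  have e1 : (8 * j + 4) % 8 = 4 := by omega
  have e2 : (8 * j + 4) / 8 = j := by omega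
  obtain ⟨hj, hg⟩ := (tab34_al4 F t R g j b).1 ((hS _ _ _ _).1 hu)
  replace hj : j < F.m := by omega
  have hc := tab34_card (N := (F.St t R g).filter fun v => F.mach.adj (8 * j + 4, b) v = true)
    (A := ((range (8 * j + 14)).filter fun x => (b = 1 ∧ x = 8 * j + 11 ∧ j + 1 < F.m) ∨
      (x % 8 = 5 ∧ x / 8 < 2 ∧ j + 1 = F.m ∧ b / (x / 8 + 1) % 2 = 1)) ×ˢ range 2)
    (B := {(6, 0)})
    (C := ({(8 * j + 3, 1)} : Finset (ℕ × ℕ)).filter fun _ => g ≤ 2 * j) (fun v => by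
      obtain ⟨x, y⟩ := v
      rw [mem_filter, hS, tab34_mem4 F t R g j b x y hj hg, mem_filter, mem_singleton, mem_product,
        mem_singleton, mem_range, mem_filter, mem_range, Prod.mk.injEq, Prod.mk.injEq])
    (fun v hv => by
      obtain ⟨x, y⟩ := v
      have := (mem_filter.1 (mem_product.1 hv).1).2
      rw [mem_filter, mem_singleton, mem_singleton, Prod.mk.injEq, Prod.mk.injEq]
      dsimp only at this
      generalize b / (x / 8 + 1) = s at this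
      omega)
    (fun v hv => by
      rw [mem_singleton.1 hv, mem_filter, mem_singleton, Prod.mk.injEq]
      omega)
  rw [card_product, card_singleton, card_range, tab34_one] at hc
  have hf : (F.mach.fix (8 * j + 4)).toNat = 1 := by
    simp only [Qb.mach, e1, Nat.reduceEqDiff, false_and, false_or, or_false, decide_true,
      Bool.toNat_true]
  rw [Mach.od, hc, hf, Nat.odd_iff, Qb.tab]
  simp only [e1, e2, Nat.reduceEqDiff, false_and, false_or, or_false, true_and]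
  split_ifs <;> omega

end Pool.Agent.Chomp.SC
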