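import Pool.Agent.Work.MP_ff0f6a_lc.SC.Stmt

/-!
The parity table for the classes of types 5 and 6, and the whole table.
-/

namespace Pool.Agent.Chomp.SC

open Finset Function

lemma Tab5_adj5 (F : Qb) (r b : ℕ) (v : ℕ × ℕ) : F.mach.adj (8 * r + 5, b) v = true ↔
    (b = 0 ∧ v.1 = 16 * F.n) ∨ (v.1 + 4 = 8 * F.m ∧ v.2 / (r + 1) % 2 = 1) := by
  have e1 : (8 * r + 5) % 8 = 5 := by omega
  have e2 : (8 * r + 5) / 8 = r := by omega
  simp only [Qb.mach, Qb.arc, Bool.or_eq_true, decide_eq_true_eq, e1, e2]
  constructor
  · rintro (h | h)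
    · rcases h with h | h | h | h | h | h | h | h | h | h <;> omega
    · rcases h with h | h | h | h | h | h | h | h | h | h <;> omega
  · rintro (h | h)
    · left
      iterate 9 right
      exact ⟨trivial, by omega⟩
    · right
      iterate 8 right
      left
      exact ⟨by omega, trivial, by omega, h.2⟩

lemma Tab5_adj6 (F : Qb) (b : ℕ) (v : ℕ × ℕ) : F.mach.adj (6, b) v = true ↔
    b = 0 ∧ v.1 % 8 = 4 := by
  simp only [Qb.mach, Qb.arc, Bool.or_eq_true, decide_eq_true_eq]
  constructor
  · rintro (h | h)
    · rcases h with h | h | h | h | h | h | h | h | h | h <;> omega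
    · rcases h with h | h | h | h | h | h | h | h | h | h <;> omega
  · intro h
    left
    iterate 7 right
    left
    exact ⟨trivial, by omega⟩

lemma Tab5_sizeU (F : Qb) : F.size (16 * F.n) = 2 := by
  unfold Qb.size
  rw [if_neg (by omega), if_pos (by omega)]

lemma Tab5_sizeD (F : Qb) {κ : ℕ} (h : κ + 4 = 8 * F.m) : F.size κ = 4 := by
  unfold Qb.size
  rw [if_pos (by omega)]

lemma Tab5_size_even (F : Qb) (κ : ℕ) : F.size κ % 2 = 0 := by
  unfold Qb.size
  split_ifs <;> rfl

theorem p_tab5 (hm : S_mok) : S_tab 5 := by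
  intro F hF t R g hW u hu h5
  obtain ⟨-, -, hal, -, -⟩ := hm F
  obtain ⟨κ, b⟩ := u
  obtain ⟨r, rfl⟩ : ∃ r, κ = 8 * r + 5 := ⟨κ / 8, by simp only at h5; omega⟩
  have hs := ((hal _ _ _ _).1 hu).1
  have hrb : r < 2 ∧ b < 2 := by
    unfold Qb.size at hs
    simp only at hs
    split_ifs at hs <;> omega
  have hle := hW.le
  have hgm := hW.gm
  have hm0 := hF.hm
  have hfix : F.mach.fix (8 * r + 5) = false := by
    simp only [Qb.mach, decide_eq_false_iff_not]
    omega
  have hset : (F.St t R g).filter (fun v => F.mach.adj (8 * r + 5, b) v = true) =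
      insert (8 * F.m - 4, r + 1) (insert (8 * F.m - 4, 3)
        (if b = 0 then (if t < 2 * F.n then {(16 * F.n, 0), (16 * F.n, 1)} else {(16 * F.n, 1)})
          else ∅)) := by
    ext ⟨κ, c⟩
    rw [mem_filter, hal, Tab5_adj5]
    have hU := Tab5_sizeU F
    have hD := Tab5_sizeD F (κ := 8 * F.m - 4) (by omega)
    have hr : r = 0 ∨ r = 1 := by omega
    unfold Qb.alive
    simp only [mem_insert, Prod.mk.injEq]
    constructor
    · rintro ⟨⟨h1, h2, -, -, -⟩, h | h⟩
      · obtain ⟨rfl, rfl⟩ := h
        rw [hU] at h1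
        right
        right
        rw [if_pos rfl]
        split_ifs
        · simp only [mem_insert, mem_singleton, Prod.mk.injEq, true_and]
          omega
        · simp only [mem_singleton, Prod.mk.injEq, true_and]
          omega
      · have e : κ = 8 * F.m - 4 := by omega
        subst e
        rw [hD] at h1
        rcases hr with rfl | rfl <;> omega
    · rintro (⟨rfl, rfl⟩ | ⟨rfl, rfl⟩ | h)
      · rw [hD]
        refine ⟨⟨by omega, by omega, by omega, by omega, by omega⟩, Or.inr ⟨by omega, ?_⟩⟩
        rcases hr with rfl | rfl <;> rfl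
      · rw [hD]
        refine ⟨⟨by omega, by omega, by omega, by omega, by omega⟩, Or.inr ⟨by omega, ?_⟩⟩
        rcases hr with rfl | rfl <;> rfl
      · split_ifs at h with h1 h2
        · simp only [mem_insert, mem_singleton, Prod.mk.injEq] at h
          have e : κ = 16 * F.n := by omega
          subst e
          rw [hU]
          exact ⟨⟨by omega, by omega, by omega, by omega, by omega⟩, Or.inl ⟨h1, rfl⟩⟩
        · simp only [mem_singleton, Prod.mk.injEq] at h
          have e : κ = 16 * F.n := by omega
          subst e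
          rw [hU]
          exact ⟨⟨by omega, by omega, by omega, by omega, by omega⟩, Or.inl ⟨h1, rfl⟩⟩
        · simp at h
  have hne : 8 * F.m - 4 ≠ 16 * F.n := by omega
  have hr3 : r + 1 ≠ 3 := by omega
  have htab : F.tab t R g (8 * r + 5, b) ↔ t < 2 * F.n ∨ b = 1 := by
    unfold Qb.tab
    simp only
    constructor
    · rintro (h | h | h | h | h | h) <;> omega
    · intro h
      iterate 5 right
      omega
  rw [htab]
  unfold Mach.od
  rw [hset, hfix]
  split_ifs with h1 h2
  · rw [card_insert_of_notMem (by simp [hne, hr3]), card_insert_of_notMem (by simp [hne]),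
      card_pair (by simp)]
    rw [Bool.toNat_false, Nat.odd_iff]
    omega
  · rw [card_insert_of_notMem (by simp [hne, hr3]), card_insert_of_notMem (by simp [hne]),
      card_singleton]
    rw [Bool.toNat_false, Nat.odd_iff]
    omega
  · rw [card_insert_of_notMem (by simp [hr3]), card_insert_of_notMem (by simp), card_empty]
    rw [Bool.toNat_false, Nat.odd_iff]
    omega

theorem p_tab6 (hm : S_mok) : S_tab 6 := by
  intro F _ t R g _ u hu h6
  obtain ⟨-, -, hal, -, -⟩ := hm F
  obtain ⟨κ, b⟩ := u
  have hs := ((hal _ _ _ _).1 hu).1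
  have hκ : κ = 6 := by
    unfold Qb.size at hs
    simp only at hs h6
    split_ifs at hs <;> omega
  subst hκ
  have hfix : F.mach.fix 6 = true := by simp [Qb.mach]
  have htab : ¬ F.tab t R g (6, b) := by
    unfold Qb.tab
    simp only
    rintro (h | h | h | h | h | h) <;> omega
  have hev : Even ((F.St t R g).filter fun v => F.mach.adj (6, b) v = true).card := by
    rw [← ZMod.natCast_eq_zero_iff_even, card_eq_sum_ones, Nat.cast_sum]
    refine sum_involution (fun v _ => (v.1, if v.2 % 2 = 0 then v.2 + 1 else v.2 - 1))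
      (fun _ _ => by decide) (fun v _ _ e => ?_) (fun v hv => ?_) fun v _ => ?_
    · have e2 := congrArg Prod.snd e
      simp only at e2
      split_ifs at e2 <;> omega
    · rw [mem_filter, hal, Tab5_adj6] at hv ⊢
      obtain ⟨⟨h1, h2, h3, h4, h5⟩, h7, h8⟩ := hv
      have h9 := Tab5_size_even F v.1
      refine ⟨⟨?_, ?_, ?_, h4, h5⟩, h7, h8⟩
      · simp only
        split_ifs <;> omega
      · simp only
        omega
      · simp only
        omega
    · refine Prod.ext rfl ?_
      simp only
      split_ifs <;> omega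
  unfold Mach.od
  rw [hfix]
  simp only [htab, iff_false, Bool.toNat_true, Nat.odd_iff]
  rw [Nat.even_iff] at hev
  omega

theorem p_table (hm : S_mok) (h : ∀ ty < 7, S_tab ty) : S_table := by
  intro F hF t R g hW u hu
  obtain ⟨-, -, hal, -, -⟩ := hm F
  have hs := ((hal _ _ _ _).1 hu).1
  have h7 : u.1 % 8 < 7 := by
    unfold Qb.size at hs
    split_ifs at hs <;> omega
  exact h _ h7 F hF t R g hW u hu rfl

end Pool.Agent.Chomp.SC
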