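import Pool.Agent.Work.MP_ff0f6a_lc.SC.Stmt

namespace Pool.Agent.Chomp.SC

open Finset

section

variable {α : Type} [DecidableEq α] {G : Apex α} {s : Finset α}

lemma triple_mem (h : G.Tri s) (σ : Finset α) : σ ∈ G.cx s true ↔ (∃ v ∈ s, σ = {v}) ∨
    (∃ u ∈ s, ∃ v ∈ s, G.A u v = true ∧ σ = {u, v}) ∨ σ = {G.c, G.z, G.w} := by
  have h' : true = true ∧ G.c ∈ s ∧ G.z ∈ s ∧ G.w ∈ s := ⟨rfl, h⟩
  unfold Apex.cx
  rw [if_pos h', mem_union, mem_union, mem_image, mem_image, mem_singleton, or_assoc]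
  refine or_congr ⟨fun ⟨v, hv, e⟩ => ⟨v, hv, e.symm⟩, fun ⟨v, hv, e⟩ => ⟨v, hv, e.symm⟩⟩
    (or_congr ⟨?_, ?_⟩ Iff.rfl)
  · rintro ⟨p, hp, e⟩
    rw [mem_filter, mem_product] at hp
    exact ⟨p.1, hp.1.1, p.2, hp.1.2, hp.2, e.symm⟩
  · rintro ⟨u, hu, v, hv, a, e⟩
    exact ⟨(u, v), mem_filter.2 ⟨mem_product.2 ⟨hu, hv⟩, a⟩, e.symm⟩

lemma triple_cz (k : G.Ok) : G.c ≠ G.z := fun e => k.prop _ _ k.cz k.cw k.zw (by rw [e])

lemma triple_clique (k : G.Ok) (h : G.Tri s) {σ : Finset α} (hσ : σ ∈ G.cx s true) :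
    σ ⊆ s ∧ ∀ u ∈ σ, ∀ v ∈ σ, u = v ∨ G.A u v = true := by
  have wc := (k.apex G.c).2 (Or.inl rfl)
  have wz := (k.apex G.z).2 (Or.inr rfl)
  have cw := (k.symm _ _).trans wc
  have zw := (k.symm _ _).trans wz
  have zc := (k.symm _ _).trans k.cz
  rcases (triple_mem h σ).1 hσ with ⟨v, hv, rfl⟩ | ⟨u, hu, v, hv, a, rfl⟩ | rfl
  · exact ⟨singleton_subset_iff.2 hv, fun x hx y hy =>
      Or.inl ((mem_singleton.1 hx).trans (mem_singleton.1 hy).symm)⟩
  · refine ⟨insert_subset hu (singleton_subset_iff.2 hv), fun x hx y hy => ?_⟩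
    have a' := (k.symm _ _).trans a
    rw [mem_insert, mem_singleton] at hx hy
    rcases hx with rfl | rfl <;> rcases hy with rfl | rfl <;> simp only [true_or, or_true, a, a']
  · refine ⟨insert_subset h.1 (insert_subset h.2.1 (singleton_subset_iff.2 h.2.2)),
      fun x hx y hy => ?_⟩
    rw [mem_insert, mem_insert, mem_singleton] at hx hy
    rcases hx with rfl | rfl | rfl <;> rcases hy with rfl | rfl | rfl <;>
      simp only [true_or, or_true, wc, wz, cw, zw, zc, k.cz]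

lemma triple_w (k : G.Ok) {a b : α} (ha : G.A G.w a = true) (hb : G.A G.w b = true)
    (ab : a ≠ b) : ({G.w, a, b} : Finset α) = {G.c, G.z, G.w} := by
  ext x
  simp only [mem_insert, mem_singleton]
  rcases (k.apex a).1 ha with rfl | rfl <;> rcases (k.apex b).1 hb with rfl | rfl <;> tauto

lemma triple_tri (k : G.Ok) {a b c : α} (ab : G.A a b = true) (ac : G.A a c = true)
    (bc : G.A b c = true) (nab : a ≠ b) (nac : a ≠ c) (nbc : b ≠ c) :
    ({a, b, c} : Finset α) = {G.c, G.z, G.w} := by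
  by_cases ha : a = G.w
  · subst ha
    exact triple_w k ab ac nbc
  by_cases hb : b = G.w
  · subst hb
    rw [insert_comm]
    exact triple_w k ((k.symm _ _).trans ab) bc nac
  by_cases hc : c = G.w
  · subst hc
    rw [pair_comm, insert_comm]
    exact triple_w k ((k.symm _ _).trans ac) ((k.symm _ _).trans bc) nab
  have h1 := k.prop _ _ ab ha hb
  have h2 := k.prop _ _ ac ha hc
  have h3 := k.prop _ _ bc hb hc
  revert h1 h2 h3
  cases G.col a <;> cases G.col b <;> cases G.col c <;> simp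

lemma triple_of (k : G.Ok) (h : G.Tri s) {a b c : α} (ha : a ∈ s) (hb : b ∈ s) (hc : c ∈ s)
    (ab : a = b ∨ G.A a b = true) (ac : a = c ∨ G.A a c = true) (bc : b = c ∨ G.A b c = true) :
    ({a, b, c} : Finset α) ∈ G.cx s true := by
  have two : ∀ u ∈ s, ∀ v ∈ s, u = v ∨ G.A u v = true → ({u, v} : Finset α) ∈ G.cx s true := by
    rintro u hu v hv (rfl | e)
    · exact (triple_mem h _).2 (Or.inl ⟨u, hu, pair_eq_singleton u⟩)
    · exact (triple_mem h _).2 (Or.inr (Or.inl ⟨u, hu, v, hv, e, rfl⟩))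
  by_cases nab : a = b
  · subst nab
    rw [insert_idem]
    exact two _ ha _ hc ac
  by_cases nac : a = c
  · subst nac
    rw [insert_eq_of_mem (mem_insert_of_mem (mem_singleton_self _))]
    exact two _ hb _ ha bc
  by_cases nbc : b = c
  · subst nbc
    rw [pair_eq_singleton]
    exact two _ ha _ hb ab
  exact (triple_mem h _).2 (Or.inr (Or.inr (triple_tri k (ab.resolve_left nab)
    (ac.resolve_left nac) (bc.resolve_left nbc) nab nac nbc)))

lemma triple_card (h : G.Tri s) {σ : Finset α} (hσ : σ ∈ G.cx s true) :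
    σ.Nonempty ∧ σ.card ≤ 3 ∧ (σ.card = 3 → σ = {G.c, G.z, G.w}) := by
  rcases (triple_mem h σ).1 hσ with ⟨v, _, rfl⟩ | ⟨u, _, v, _, _, rfl⟩ | rfl
  · exact ⟨singleton_nonempty v, by simp, by simp⟩
  · have := @card_le_two _ _ u v
    exact ⟨insert_nonempty _ _, by omega, by omega⟩
  · exact ⟨insert_nonempty _ _, card_le_three, fun _ => rfl⟩

lemma triple_eq {ρ : Finset α} (h : ρ.Nonempty) (h3 : ρ.card ≤ 3) :
    ∃ a b c, ρ = {a, b, c} := by
  have := card_pos.2 h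
  obtain e | e | e : ρ.card = 1 ∨ ρ.card = 2 ∨ ρ.card = 3 := by omega
  · obtain ⟨a, rfl⟩ := card_eq_one.1 e
    exact ⟨a, a, a, by simp⟩
  · obtain ⟨a, b, _, rfl⟩ := card_eq_two.1 e
    exact ⟨a, a, b, by simp⟩
  · obtain ⟨a, b, c, _, _, _, rfl⟩ := card_eq_three.1 e
    exact ⟨a, b, c, rfl⟩

end

theorem p_triple : S_triple := by
  intro α _ G k s h
  refine ⟨fun σ hσ => ?_, card_eq_three.2 ⟨_, _, _, triple_cz k, k.cw, k.zw, rfl⟩,
    fun a b c => ⟨fun hσ => ?_, fun ⟨ha, hb, hc, ab, ac, bc⟩ => triple_of k h ha hb hc ab ac bc⟩⟩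
  · obtain ⟨h1, h2, h3⟩ := triple_card h hσ
    obtain ⟨h4, h5⟩ := triple_clique k h hσ
    refine ⟨h1, h4, h2, h3, fun ρ hρ hn => ?_⟩
    obtain ⟨a, b, c, rfl⟩ := triple_eq hn ((card_le_card hρ).trans h2)
    have ha : a ∈ σ := hρ (by simp)
    have hb : b ∈ σ := hρ (by simp)
    have hc : c ∈ σ := hρ (by simp)
    exact triple_of k h (h4 ha) (h4 hb) (h4 hc) (h5 _ ha _ hb) (h5 _ ha _ hc) (h5 _ hb _ hc)
  · obtain ⟨h4, h5⟩ := triple_clique k h hσ
    have ha : a ∈ ({a, b, c} : Finset α) := by simp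
    have hb : b ∈ ({a, b, c} : Finset α) := by simp
    have hc : c ∈ ({a, b, c} : Finset α) := by simp
    exact ⟨h4 ha, h4 hb, h4 hc, h5 _ ha _ hb, h5 _ ha _ hc, h5 _ hb _ hc⟩

end Pool.Agent.Chomp.SC
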