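import Pool.Agent.Work.MP_ff0f6a_lc.SC.Stmt
import Pool.Agent.Work.MP_ff0f6a_lc.SC.Eqs

/-!
The first player wins at the states of a true formula.
-/

namespace Pool.Agent.Chomp.SC

open Finset Function

theorem zero_sizeU (F : Qb) (t : ℕ) (ht : t ≤ 2 * F.n) : F.size (8 * t) = 2 := by
  have h1 : 8 * t % 8 = 0 := by omega
  have h2 : 8 * t / 8 = t := by omega
  unfold Qb.size
  rw [h1, h2]
  simp [ht]

theorem zero_sizeX (F : Qb) (i : ℕ) (hi : i < F.n) : 0 < F.size (8 * i + 1) := by
  have h1 : (8 * i + 1) % 8 = 1 := by omega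
  have h2 : (8 * i + 1) / 8 = i := by omega
  unfold Qb.size
  rw [h1, h2]
  split_ifs with a b
  · omega
  · omega
  · exact absurd (Or.inr (Or.inl ⟨rfl, hi⟩)) b

theorem zero_hot (hh : S_hot) (ha : S_adm) (F : Qb) (hF : F.Ok) (t : ℕ) (R : ℕ → Finset ℕ)
    (g : ℕ) (hW : F.Wf t R g) : ∃ ω, F.mach.Hot ω (F.St t R g) (8 * t, 1) := by
  obtain ⟨ω, hω, -⟩ := ha F hF t R g hW (fun _ => 0) 0 (by omega) (fun i _ => ⟨by omega, by
    unfold Qb.en
    simp⟩)
  exact ⟨ω, hh F hF t R g ω hW hω⟩

/-- one odd move, all answers in the two odd classes lose -/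
theorem zero_move (hm : S_mok) (he : S_elem) (hh : S_hot) (ha : S_adm) (hr : S_mirror)
    (hv : S_move) (hf : S_forced) (F : Qb) (hF : F.Ok) (t : ℕ) (R : ℕ → Finset ℕ) (g : ℕ)
    (hW : F.Wf t R g) (u : ℕ × ℕ) (hu : u ∈ F.St t R g) (ho : F.mach.od (F.St t R g) u)
    (hne : u.1 ≠ 8 * t)
    (H : ∀ v ∈ (F.St t R g).erase u, F.mach.od ((F.St t R g).erase u) v →
      v.1 = 8 * t ∨ v.1 = u.1 → Res true (F.mach.pos (((F.St t R g).erase u).erase v) true)) :
    Res true (F.mach.pos (F.St t R g) true) := by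
  obtain ⟨hok, -, -, hin, -⟩ := hm F
  obtain ⟨ω, hot⟩ := zero_hot hh ha F hF t R g hW
  obtain ⟨hCE, hcnt, -⟩ := hr F.mach hok ω _ _ hot
  obtain ⟨h1, h2⟩ := hv F.mach hok _ (hin t R g) u hu
  obtain ⟨-, hc, -⟩ := he F.mach hok (F.St t R g) ω
  refine h1 true (hf F.mach hok _ (8 * t) u.1 ?_ ((h2 ho).1.1 hCE) (Ne.symm hne) ?_ ?_ H)
  · intro v hv'
    exact hin t R g v (mem_of_mem_erase hv')
  · rw [hc u hu, hcnt]
    simp [hne]
  · rw [hc u hu, hcnt]
    simp [hne]

theorem zero_tok (hm : S_mok) (F : Qb) (t : ℕ) (R : ℕ → Finset ℕ) (g : ℕ) (v : ℕ × ℕ)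
    (hv : v ∈ F.St t R g) (h : v.1 = 8 * t) : v = (8 * t, 1) := by
  obtain ⟨-, -, hmem, -⟩ := hm F
  obtain ⟨-, h2, -⟩ := (hmem t R g v).1 hv
  have := h2 (by omega)
  exact Prod.ext h (by simp only; omega)

theorem zero_step (hm : S_mok) (ht : S_table) (he : S_elem) (hh : S_hot) (ha : S_adm)
    (hr : S_mirror) (hv : S_move) (hf : S_forced) (hs : S_trans) (F : Qb) (hF : F.Ok) (t : ℕ)
    (R : ℕ → Finset ℕ) (hW : F.Wf t R 0) (hlt : t < 2 * F.n)
    (H : Res true (F.mach.pos (F.St (t + 1) R 0) true)) :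
    Res true (F.mach.pos (F.St t R 0) true) := by
  obtain ⟨hok, -, hmem, -, -⟩ := hm F
  have hsz := zero_sizeU F (t + 1) (by omega)
  have hu : ((8 * (t + 1), 0) : ℕ × ℕ) ∈ F.St t R 0 := by
    rw [hmem]
    refine ⟨by simp only; omega, fun _ => Or.inl (by simp only; omega), fun h => ?_,
      fun _ => Nat.zero_le _, fun _ => Nat.zero_le _⟩
    simp only at h
    omega
  refine zero_move hm he hh ha hr hv hf F hF t R 0 hW _ hu ?_ (by simp only; omega) ?_
  · rw [ht F hF t R 0 hW _ hu]
    exact Or.inl ⟨by simp only; omega, Or.inr ⟨by simp only; omega, rfl⟩⟩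
  · intro v hv' hod hc
    have hv1 := mem_of_mem_erase hv'
    rcases hc with hc | hc
    · rw [zero_tok hm F t R 0 v hv1 hc, ((hs F hF t R 0 hW).1 hlt).1]
      exact H
    · exfalso
      simp only at hc
      have hne : v.2 ≠ 0 := fun h0 => (ne_of_mem_erase hv') (Prod.ext hc h0)
      have hadj : F.mach.adj v (8 * (t + 1), 0) = false := by
        by_contra hcon
        have := hok.sd v (8 * (t + 1), 0) (by simpa using hcon)
        exact this (by rw [hc])
      have h1 := ((he F.mach hok (F.St t R 0) (fun _ => 1)).1 _ hu v).1 hod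
      have h2 := (ht F hF t R 0 hW v hv1).1 (h1.2 hadj)
      unfold Qb.tab at h2
      omega

theorem zero_fire (hm : S_mok) (ht : S_table) (he : S_elem) (hh : S_hot) (ha : S_adm)
    (hr : S_mirror) (hv : S_move) (hf : S_forced) (hs : S_trans) (F : Qb) (hF : F.Ok) (i : ℕ)
    (R : ℕ → Finset ℕ) (hW : F.Wf (2 * i) R 0) (hlt : i < F.n) (hR : R i = ∅)
    (H : ∀ b, b ≠ 0 → b < 4 → F.Wf (2 * i) (update R i (insert 0 (insert b (R i)))) 0 →
      Res true (F.mach.pos (F.St (2 * i) (update R i (insert 0 (insert b (R i)))) 0) true)) :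
    Res true (F.mach.pos (F.St (2 * i) R 0) true) := by
  obtain ⟨hok, hsize, hmem, -, -⟩ := hm F
  have hsz := zero_sizeX F i hlt
  have hd : (8 * i + 1) / 8 = i := by omega
  have hu : ((8 * i + 1, 0) : ℕ × ℕ) ∈ F.St (2 * i) R 0 := by
    rw [hmem]
    refine ⟨hsz, fun h => ?_, fun _ => ?_, fun _ => Nat.zero_le _, fun _ => Nat.zero_le _⟩
    · simp only at h
      omega
    · simp only [hd, hR]
      simp
  refine zero_move hm he hh ha hr hv hf F hF (2 * i) R 0 hW _ hu ?_ (by simp only; omega) ?_
  · rw [ht F hF _ R 0 hW _ hu]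
    exact Or.inr (Or.inl ⟨by simp only; omega, by simp only; omega⟩)
  · intro v hv' hod hc
    have hv1 := mem_of_mem_erase hv'
    rcases hc with hc | hc
    · exfalso
      have hvv := zero_tok hm F _ R 0 v hv1 hc
      have hadj : F.mach.adj v (8 * i + 1, 0) = true := by
        rw [hvv]
        have : F.arc (8 * (2 * i), 1) (8 * i + 1, 0) = true := by
          unfold Qb.arc
          exact decide_eq_true (Or.inr (Or.inl ⟨by simp only; omega, by simp only; omega,
            by simp only; omega⟩))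
        simp [Qb.mach, this]
      have h1 := ((he F.mach hok (F.St (2 * i) R 0) (fun _ => 1)).1 _ hu v).1 hod
      have h2 : F.mach.od (F.St (2 * i) R 0) v := by
        rw [ht F hF _ R 0 hW v hv1]
        exact Or.inl ⟨by omega, Or.inl (by omega)⟩
      have h3 := h1.1 h2
      rw [hadj] at h3
      exact absurd h3 (by simp)
    · simp only at hc
      have hne : v.2 ≠ 0 := fun h0 => (ne_of_mem_erase hv') (Prod.ext hc h0)
      have hvv : v = (8 * i + 1, v.2) := Prod.ext hc rfl
      have hb : v.2 < 4 := lt_of_lt_of_le ((hmem _ R 0 v).1 hv1).1 (hsize v.1).1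
      obtain ⟨e1, e2⟩ := (hs F hF _ R 0 hW).2.1 i 0 v.2 rfl (Ne.symm hne) hu (hvv ▸ hv1)
      rw [hvv, e1]
      exact H v.2 hne hb e2

theorem zero_en (F : Qb) (R : ℕ → Finset ℕ) (i j s : ℕ) (A : Finset ℕ) (h : j ≠ i)
    (H : F.en R j s) : F.en (update R i A) j s := by
  unfold Qb.en at H ⊢
  rwa [update_of_ne h]

theorem p_zero (hm : S_mok) (ht : S_table) (he : S_elem) (hh : S_hot) (ha : S_adm)
    (hr : S_mirror) (hv : S_move) (hf : S_forced) (hs : S_trans) (hg : S_zeroG) : S_zero := by
  intro F hF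
  have key : ∀ k t R (a : ℕ → Bool), t + k = 2 * F.n → F.Wf t R 0 →
      (t % 2 = 0 → R (t / 2) = ∅) → F.Val (F.n - (t + 1) / 2) ((t + 1) / 2) a →
      (∀ i < (t + 1) / 2, ∀ s, lit s (a i) → F.en R i s) →
      Res true (F.mach.pos (F.St t R 0) true) := by
    intro k
    induction k with
    | zero =>
      intro t R a hk hW _ hV hE
      obtain rfl : t = 2 * F.n := by omega
      have e : (2 * F.n + 1) / 2 = F.n := by omega
      rw [e, Nat.sub_self] at hV
      rw [e] at hE
      refine hg F hF R 0 hW fun j hj => ?_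
      obtain ⟨i, hi, hl⟩ := hV j hj
      exact ⟨i, hi, hE i hi _ hl⟩
    | succ k ih =>
      intro t R a hk hW hR hV hE
      have hlt : t < 2 * F.n := by omega
      rcases Nat.even_or_odd' t with ⟨i, rfl | rfl⟩
      · have hi : i < F.n := by omega
        have e : (2 * i + 1) / 2 = i := by omega
        have e' : (2 * i + 1 + 1) / 2 = i + 1 := by omega
        have e0 : 2 * i / 2 = i := by omega
        have hRi : R i = ∅ := by
          have := hR (by omega)
          rwa [e0] at this
        have e1 : F.n - i = (F.n - (i + 1)) + 1 := by omega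
        rw [e, e1] at hV
        rw [e] at hE
        have nxt : ∀ R' (b : Bool), F.Wf (2 * i) R' 0 →
            F.Val (F.n - (i + 1)) (i + 1) (update a i b) →
            (∀ j < i, ∀ s, F.en R j s → F.en R' j s) → (∀ s, lit s b → F.en R' i s) →
            Res true (F.mach.pos (F.St (2 * i) R' 0) true) := by
          intro R' b hW' hV' h1 h2
          refine zero_step hm ht he hh ha hr hv hf hs F hF _ R' hW' hlt
            (ih (2 * i + 1) R' (update a i b) (by omega) ((hs F hF _ R' 0 hW').1 hlt).2
              (fun h => by omega) (by rwa [e']) ?_)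
          rw [e']
          intro j hj s hl
          by_cases hji : j = i
          · subst hji
            rw [update_self] at hl
            exact h2 s hl
          · rw [update_of_ne hji] at hl
            exact h1 j (by omega) s (hE j (by omega) s hl)
        unfold Qb.Val at hV
        by_cases hq : F.q i = true
        · rw [if_pos hq] at hV
          refine zero_fire hm ht he hh ha hr hv hf hs F hF i R hW hi hRi fun b hb hb4 hW' => ?_
          refine nxt _ (decide (b % 2 = 1)) hW' (hV _)
            (fun j hj s h => zero_en F R i j s _ (by omega) h) fun s hl => Or.inl ⟨hq, ?_⟩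
          rw [update_self, hRi]
          have hb' : b = 1 ∨ b = 2 ∨ b = 3 := by omega
          unfold lit at hl
          rcases hb' with rfl | rfl | rfl <;> rcases hl with ⟨rfl, h⟩ | ⟨rfl, h⟩ <;>
            first | decide | exact absurd h (by decide)
        · rw [if_neg hq] at hV
          have hq' : F.q i = false := by simpa using hq
          obtain ⟨b, hV⟩ := hV
          cases b with
          | false =>
            refine nxt R false hW hV (fun j _ s h => h) fun s hl => Or.inr ⟨hq', Or.inr ⟨?_, hRi⟩⟩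
            rcases hl with ⟨-, h⟩ | ⟨h, -⟩
            · exact absurd h (by decide)
            · exact h
          | true =>
            refine zero_fire hm ht he hh ha hr hv hf hs F hF i R hW hi hRi fun b _ _ hW' => ?_
            refine nxt _ true hW' hV (fun j hj s h => zero_en F R i j s _ (by omega) h)
              fun s hl => Or.inr ⟨hq', Or.inl ⟨?_, ?_⟩⟩
            · rcases hl with ⟨h, -⟩ | ⟨-, h⟩
              · exact h
              · exact absurd h (by decide)
            · rw [update_self]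
              exact insert_ne_empty _ _
      · have e : (2 * i + 1 + 1 + 1) / 2 = (2 * i + 1 + 1) / 2 := by omega
        refine zero_step hm ht he hh ha hr hv hf hs F hF _ R hW hlt
          (ih (2 * i + 1 + 1) R a (by omega) ((hs F hF _ R 0 hW).1 hlt).2
            (fun _ => hW.fut _ (by omega)) (by rwa [e]) (by rwa [e]))
  intro t R a hW
  exact key (2 * F.n - t) t R a (by have := hW.le; omega) hW

end Pool.Agent.Chomp.SC
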