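import Pool.Agent.Work.MP_ff0f6a_lc.SC.Stmt

/-!
The gates of the machine when the matrix is true.
-/

namespace Pool.Agent.Chomp.SC

open Finset Function

/-- a state in which only the class `κ` has an odd number of members -/
def ZeroGTok (P : Mach) (s : Finset (ℕ × ℕ)) (κ : ℕ) : Prop :=
  P.In s ∧ P.CE s ∧ ∀ κ', Odd (cnt s κ') ↔ κ' = κ

lemma ZeroG_in {P : Mach} {s : Finset (ℕ × ℕ)} (h : P.In s) (u : ℕ × ℕ) : P.In (s.erase u) :=
  fun v hv => h v (mem_of_mem_erase hv)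

lemma ZeroG_fire (he : S_elem) (hv : S_move) (hf : S_forced) {P : Mach} (hP : P.Ok)
    {s : Finset (ℕ × ℕ)} {κ : ℕ} (hs : ZeroGTok P s κ) {u : ℕ × ℕ} (hu : u ∈ s) (ho : P.od s u)
    (hk : u.1 ≠ κ)
    (H1 : ∀ v ∈ s, v ≠ u → P.od (s.erase u) v → v.1 = κ →
      ZeroGTok P ((s.erase u).erase v) u.1 → Res true (P.pos ((s.erase u).erase v) true))
    (H2 : ∀ v ∈ s, v ≠ u → P.od (s.erase u) v → v.1 = u.1 →
      ZeroGTok P ((s.erase u).erase v) κ → Res true (P.pos ((s.erase u).erase v) true)) :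
    Res true (P.pos s true) := by
  obtain ⟨h1, h2, h3⟩ := hs
  obtain ⟨m1, m2⟩ := hv P hP s h1 u hu
  have co := (m2 ho).1.1 h2
  have c1 := (he P hP s fun _ => 1).2.1 u hu
  refine m1 true (hf P hP _ κ u.1 (ZeroG_in h1 u) co hk.symm ?_ ?_ fun v hv' hov hc => ?_)
  · rw [c1, h3]
    simp [hk]
  · rw [c1, h3]
    simp [hk]
  · have ce := ((hv P hP _ (ZeroG_in h1 u) v hv').2 hov).2.1 co
    have c2 := (he P hP (s.erase u) fun _ => 1).2.1 v hv'
    have i2 := ZeroG_in (ZeroG_in h1 u) v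
    rcases hc with hc | hc
    · refine H1 v (mem_of_mem_erase hv') (ne_of_mem_erase hv') hov hc ⟨i2, ce, fun κ' => ?_⟩
      rw [c2, c1, h3, hc]
      by_cases a : κ' = κ <;> by_cases b : κ' = u.1 <;> simp [a, b, hk, eq_comm] <;> omega
    · refine H2 v (mem_of_mem_erase hv') (ne_of_mem_erase hv') hov hc ⟨i2, ce, fun κ' => ?_⟩
      rw [c2, c1, h3, hc]
      by_cases a : κ' = κ <;> by_cases b : κ' = u.1 <;> simp [a, b, hk, eq_comm]

/-- the finishing move after two deletions -/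
lemma ZeroG_fin (he : S_elem) (hv : S_move) (hf : S_forced) {P : Mach} (hP : P.Ok)
    {s : Finset (ℕ × ℕ)} {T : ℕ × ℕ → Prop} (hT : ∀ w ∈ s, P.od s w ↔ T w) {κ : ℕ}
    {u v x : ℕ × ℕ} (hu : u ∈ s) (hv' : v ∈ s) (hvu : v ≠ u) (hx : x ∈ s) (hxu : x ≠ u)
    (hxv : x ≠ v) (hs : ZeroGTok P ((s.erase u).erase v) κ) (hk : x.1 ≠ κ)
    (ho : (T x ↔ P.adj x u = false) ↔ P.adj x v = false)
    (H : ∀ w ∈ s, w ≠ u → w ≠ v → w ≠ x → w.1 = κ ∨ w.1 = x.1 →
      ¬ (((T w ↔ P.adj w u = false) ↔ P.adj w v = false) ↔ P.adj w x = false)) :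
    Res true (P.pos ((s.erase u).erase v) true) := by
  have v1 : v ∈ s.erase u := mem_erase.2 ⟨hvu, hv'⟩
  have x2 : x ∈ (s.erase u).erase v := mem_erase.2 ⟨hxv, mem_erase.2 ⟨hxu, hx⟩⟩
  have e1 := (he P hP s fun _ => 1).1 u hu
  have e2 := (he P hP (s.erase u) fun _ => 1).1 v v1
  have e3 := (he P hP ((s.erase u).erase v) fun _ => 1).1 x x2
  have key : ∀ w ∈ (s.erase u).erase v, w ≠ x → w.1 = κ ∨ w.1 = x.1 →
      ¬ P.od (((s.erase u).erase v).erase x) w := fun w hw hwx hc => by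
    have w1 := mem_of_mem_erase hw
    rw [e3, e2, e1, hT w (mem_of_mem_erase w1)]
    exact H w (mem_of_mem_erase w1) (ne_of_mem_erase w1) (ne_of_mem_erase hw) hwx hc
  refine ZeroG_fire he hv hf hP hs x2 ?_ hk
    (fun w hw hwx h hc _ => absurd h (key w hw hwx (Or.inl hc)))
    fun w hw hwx h hc _ => absurd h (key w hw hwx (Or.inr hc))
  rw [e2, e1, hT x hx]
  exact ho

lemma ZeroG_adj (F : Qb) (i a b j c d : ℕ) (ha : a < 8) (hc : c < 8) :
    F.arc (8 * i + a, b) (8 * j + c, d) = true ↔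
  (a = 0 ∧ c = 0 ∧ j = i + 1 ∧ b = d) ∨ (a = 0 ∧ c = 1 ∧ i = 2 * j) ∨
  (a = 1 ∧ c = 2 ∧ j / 3 = i ∧ ((F.q i = true ∧ b / (j % 3) % 2 = 1) ∨
     (F.q i = false ∧ ((j % 3 = 1 ∧ b = d) ∨ (j % 3 = 2 ∧ b = 1))))) ∨
  (a = 2 ∧ c = 3 ∧ b = 0 ∧ i % 3 = F.sg j (i / 3)) ∨
  (a = 0 ∧ 8 * j + c = 3 ∧ i = 2 * F.n ∧ b = 0) ∨
  (a = 3 ∧ 8 * j + c = 8 * i + a + 1 ∧ b = 1) ∨
  (a = 4 ∧ 8 * j + c = 8 * i + a + 7 ∧ b = 1) ∨
  (8 * i + a = 6 ∧ c = 4 ∧ b = 0) ∨
  (a = 4 ∧ c = 5 ∧ i + 1 = F.m ∧ b / (j + 1) % 2 = 1) ∨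
  (a = 5 ∧ c = 0 ∧ b = 0 ∧ j = 2 * F.n) := by
  have h1 : (8 * i + a) % 8 = a := by omega
  have h2 : (8 * i + a) / 8 = i := by omega
  have h3 : (8 * j + c) % 8 = c := by omega
  have h4 : (8 * j + c) / 8 = j := by omega
  simp only [Qb.arc, decide_eq_true_eq, h1, h2, h3, h4]

lemma ZeroG_adjF (F : Qb) (i a b j c d : ℕ) :
    F.mach.adj (8 * i + a, b) (8 * j + c, d) = false ↔
      ¬ (F.arc (8 * i + a, b) (8 * j + c, d) = true ∨ F.arc (8 * j + c, d) (8 * i + a, b) = true) := by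
  simp only [Qb.mach, ← Bool.or_eq_true, Bool.not_eq_true]

lemma ZeroG_tab (F : Qb) (t : ℕ) (R : ℕ → Finset ℕ) (g i a b : ℕ) (ha : a < 8) :
    F.tab t R g (8 * i + a, b) ↔ (a = 0 ∧ (i = t ∨ (i = t + 1 ∧ b = 0))) ∨ (a = 1 ∧ 2 * i = t) ∨
  (a = 2 ∧ ¬ F.en R (i / 3) (i % 3)) ∨ (a = 3 ∧ t = 2 * F.n ∧ g = 2 * i) ∨ (a = 4 ∧ g = 2 * i + 1) ∨
  (a = 5 ∧ (t < 2 * F.n ∨ b = 1)) := by
  have h1 : (8 * i + a) % 8 = a := by omega
  have h2 : (8 * i + a) / 8 = i := by omega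
  simp only [Qb.tab, h1, h2]

lemma ZeroG_size (F : Qb) (i a : ℕ) (ha : a < 8) : F.size (8 * i + a) =
    if (a = 1 ∧ i < F.n ∧ F.q i = true) ∨ (a = 4 ∧ i + 1 = F.m) then 4
    else if (a = 0 ∧ i ≤ 2 * F.n) ∨ (a = 1 ∧ i < F.n) ∨ (a = 2 ∧ i < 3 * F.n) ∨
      ((a = 3 ∨ a = 4) ∧ i < F.m) ∨ (a = 5 ∧ i < 2) ∨ 8 * i + a = 6 then 2 else 0 := by
  have h1 : (8 * i + a) % 8 = a := by omega
  have h2 : (8 * i + a) / 8 = i := by omega
  simp only [Qb.size, h1, h2]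

lemma ZeroG_alive (F : Qb) (t : ℕ) (R : ℕ → Finset ℕ) (g i a b : ℕ) (ha : a < 8) :
    F.alive t R g (8 * i + a, b) ↔ b < F.size (8 * i + a) ∧ (a = 0 → t < i ∨ (i = t ∧ b = 1)) ∧
      (a = 1 → b ∉ R i) ∧ (a = 3 → g ≤ 2 * i) ∧ (a = 4 → g ≤ 2 * i + 1) := by
  have h1 : (8 * i + a) % 8 = a := by omega
  have h2 : (8 * i + a) / 8 = i := by omega
  simp only [Qb.alive, h1, h2]

theorem p_zeroG (hm : S_mok) (ht : S_table) (he : S_elem) (hh : S_hot) (ha : S_adm)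
    (hr : S_mirror) (hv : S_move) (hf : S_forced) (hs : S_trans) : S_zeroG := by
  intro F hF R g hW hen
  induction' hk : 2 * F.m - g with k ih generalizing g
  · have := hW.gm
    omega
  obtain ⟨hP, -, mem, hin, -⟩ := hm F
  obtain ⟨ω, hω, -⟩ := ha F hF _ R g hW (fun _ => 0) 0 (by omega) fun i _ =>
    ⟨by omega, by simp [Qb.en]⟩
  obtain ⟨ce, cn, -⟩ := hr _ hP ω _ _ (hh F hF _ R g ω hW hω)
  have tok : ZeroGTok F.mach (F.St (2 * F.n) R g) (8 * (2 * F.n) + 0) := ⟨hin _ _ _, ce, cn⟩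
  have hT := ht F hF _ R g hW
  have gm := hW.gm
  have mk : ∀ i a b, a < 8 → ((8 * i + a, b) ∈ F.St (2 * F.n) R g ↔ _) := fun i a b h =>
    (mem _ _ _ _).trans (ZeroG_alive F _ R g i a b h)
  have tk : ∀ v ∈ F.St (2 * F.n) R g, v.1 = 8 * (2 * F.n) + 0 → v = (8 * (2 * F.n) + 0, 1) := by
    rintro ⟨a, b⟩ h rfl
    have := ((mk _ 0 b (by omega)).1 h).2.1 rfl
    rw [show b = 1 by omega]
  have two : ∀ i a, a < 8 → a ≠ 1 → (a = 4 → i + 1 ≠ F.m) → ∀ v ∈ F.St (2 * F.n) R g,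
      v.1 = 8 * i + a → v ≠ (8 * i + a, 0) → v = (8 * i + a, 1) := by
    rintro i a h1 h2 h3 ⟨c, b⟩ h rfl k
    have h4 := ((mk _ a b h1).1 h).1
    have h5 : b ≠ 0 := fun e => k (by rw [e])
    rw [ZeroG_size F i a h1, if_neg (by omega)] at h4
    have : b = 1 := by split_ifs at h4 <;> omega
    rw [this]
  obtain ⟨j, rfl | rfl⟩ := Nat.even_or_odd' g
  · have hj : j < F.m := by omega
    have hu : (8 * j + 3, 0) ∈ F.St (2 * F.n) R (2 * j) := by
      rw [mk _ _ _ (by omega), ZeroG_size _ _ _ (by omega)]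
      simp [hj]
    refine ZeroG_fire he hv hf hP tok hu ((hT _ hu).2 (by simp [ZeroG_tab])) (by omega)
      (fun v h1 h2 _ h3 h4 => ?_) fun v h1 h2 _ h3 h4 => ?_
    · obtain rfl := tk v h1 h3
      obtain ⟨i, hi, hE⟩ := hen j hj
      have hσ := hF.hs j i
      have d1 : (3 * i + F.sg j i) / 3 = i := by omega
      have d2 : (3 * i + F.sg j i) % 3 = F.sg j i := by omega
      have hx : (8 * (3 * i + F.sg j i) + 2, 0) ∈ F.St (2 * F.n) R (2 * j) := by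
        rw [mk _ _ _ (by omega), ZeroG_size _ _ _ (by omega)]
        simp [show 3 * i + F.sg j i < 3 * F.n by omega]
      refine ZeroG_fin he hv hf hP hT hu h1 h2 hx (by simp; omega) (by simp) h4 (by omega) ?_
        fun w w1 w2 w3 w4 w5 => ?_
      · simp [-Nat.add_zero, -add_zero, ZeroG_tab, ZeroG_adjF, ZeroG_adj, d1, d2, hE]
      · rcases w5 with w5 | w5
        · obtain rfl := two j 3 (by omega) (by omega) (by omega) w w1 w5 w2
          simp [-Nat.add_zero, -add_zero, ZeroG_tab, ZeroG_adjF, ZeroG_adj, d1, d2]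
          omega
        · obtain rfl := two _ 2 (by omega) (by omega) (by omega) w w1 w5 w4
          simp [-Nat.add_zero, -add_zero, ZeroG_tab, ZeroG_adjF, ZeroG_adj, d1, d2, hE]
    · obtain rfl := two j 3 (by omega) (by omega) (by omega) v h1 h3 h2
      obtain ⟨e1, e2⟩ := (hs F hF _ R _ hW).2.2.1 j 0 rfl rfl (by omega)
      rw [show (0 ^^^ 1 : ℕ) = 1 from rfl] at e1
      rw [e1]
      exact ih _ e2 (by omega)
  · have hj : j < F.m := by omega
    have hu : (8 * j + 4, 0) ∈ F.St (2 * F.n) R (2 * j + 1) := by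
      rw [mk _ _ _ (by omega), ZeroG_size _ _ _ (by omega)]
      by_cases h : j + 1 = F.m <;> simp [hj, h]
    refine ZeroG_fire he hv hf hP tok hu ((hT _ hu).2 (by simp [ZeroG_tab])) (by omega)
      (fun v h1 h2 _ h3 h4 => ?_) fun v h1 h2 _ h3 h4 => ?_
    · obtain rfl := tk v h1 h3
      have hx : (8 * 0 + 6, 0) ∈ F.St (2 * F.n) R (2 * j + 1) := by
        rw [mk _ _ _ (by omega), ZeroG_size _ _ _ (by omega)]
        simp
      refine ZeroG_fin he hv hf hP hT hu h1 h2 hx (by simp; omega) (by simp) h4 (by omega) ?_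
        fun w w1 w2 w3 w4 w5 => ?_
      · rw [ZeroG_tab _ _ _ _ _ _ _ (by omega), ZeroG_adjF, ZeroG_adjF]
        simp only [ZeroG_adj, Nat.reduceLT]
        simp
      · rcases w5 with w5 | w5
        · obtain ⟨c, b⟩ := w
          obtain rfl : c = 8 * j + 4 := w5
          rw [ZeroG_tab _ _ _ _ _ _ _ (by omega), ZeroG_adjF, ZeroG_adjF, ZeroG_adjF]
          simp only [ZeroG_adj, Nat.reduceLT]
          simp
          omega
        · obtain rfl := two 0 6 (by omega) (by omega) (by omega) w w1 w5 w4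
          rw [ZeroG_tab _ _ _ _ _ _ _ (by omega), ZeroG_adjF, ZeroG_adjF, ZeroG_adjF]
          simp only [ZeroG_adj, Nat.reduceLT]
          simp
    · by_cases hl : j + 1 = F.m
      · obtain ⟨c, b⟩ := v
        obtain rfl : c = 8 * j + 4 := h3
        have b4 : b < 4 := (hin _ _ _ _ h1).2
        have b0 : b ≠ 0 := fun e => h2 (by rw [e])
        obtain ⟨r, r2, hr'⟩ : ∃ r < 2, b / (r + 1) % 2 = 1 := by
          by_cases h : b = 2
          · exact ⟨1, by omega, by omega⟩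
          · exact ⟨0, by omega, by omega⟩
        have hx : (8 * r + 5, 0) ∈ F.St (2 * F.n) R (2 * j + 1) := by
          rw [mk _ _ _ (by omega), ZeroG_size _ _ _ (by omega)]
          simp [r2]
        refine ZeroG_fin he hv hf hP hT hu h1 h2 hx (by simp; omega) (by simp; omega) h4
          (by omega) ?_ fun w w1 w2 w3 w4 w5 => ?_
        · simp [-Nat.add_zero, -add_zero, ZeroG_tab, ZeroG_adjF, ZeroG_adj, hl, hr']
        · rcases w5 with w5 | w5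
          · obtain rfl := tk w w1 w5
            simp [-Nat.add_zero, -add_zero, ZeroG_tab, ZeroG_adjF, ZeroG_adj]
            omega
          · obtain rfl := two r 5 (by omega) (by omega) (by omega) w w1 w5 w4
            simp [-Nat.add_zero, -add_zero, ZeroG_tab, ZeroG_adjF, ZeroG_adj, hl, hr']
      · obtain rfl := two j 4 (by omega) (by omega) (fun _ => hl) v h1 h3 h2
        obtain ⟨e1, e2⟩ := (hs F hF _ R _ hW).2.2.2 j 0 rfl (by omega) (by omega)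
        rw [show (0 ^^^ 1 : ℕ) = 1 from rfl] at e1
        rw [e1]
        exact ih _ e2 (by omega)

end Pool.Agent.Chomp.SC
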