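import Pool.Agent.Work.MP_ff0f6a_lc.SC.Stmt

namespace Pool.Agent.Chomp.SC

open Finset

lemma Zl_low (κ e κ' e' : ℕ) : Mach.low full κ e κ' e' ≤ tau κ' e' + 1 := by
  unfold Mach.low full
  split_ifs with h
  · obtain ⟨rfl, rfl⟩ := h
    omega
  · exact le_rfl

lemma Zl_in {P : Mach} {s : Finset (ℕ × ℕ)} (h : P.In s) (u : ℕ × ℕ) : P.In (s.erase u) :=
  fun v hv => h v (mem_of_mem_erase hv)

theorem p_zl (h0 : S_Gok) (hv : S_vs) (hd : S_deg) (hg : S_goal) (hf : S_fr) (hk : S_kill)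
    (hl : S_lose) (hp : S_paired) (hm : S_move) : S_zl := by
  intro P hP I hI s
  induction hn : s.card using Nat.strong_induction_on generalizing s with
  | _ n ih =>
  intro hs
  obtain ⟨ω, d, ⟨hIn, hds, hod, hpa⟩, hans⟩ := hI s hs
  have hfull : ∀ κ e, full κ e ≤ tau κ e + 1 := fun _ _ => le_rfl
  obtain ⟨hCO, hF, hT⟩ := hp P hP (s.erase d) ω (Zl_in hIn d) hpa
  have hCE : P.CE s := ((hm P hP s hIn d hds).2 hod).1.2 hCO
  obtain ⟨htri, hmem, hera, hlow, -⟩ := hv P hP s full hIn hfull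
  obtain ⟨hd1, hd2, hd3⟩ := hd P hP s full hIn hfull
  obtain ⟨hl1, -, -, hl4⟩ := hl _ P.G (h0 P hP) (P.vs s full) true
  refine hl4 htri (Or.inl hCE) ?_ fun _ => (hm P hP s hIn d hds).1 false hF
  rintro ⟨κ, e, r⟩ hvs hodd hc hz
  rcases (hmem _).1 hvs with ⟨h1, h2⟩ | ⟨h1, h2, h3, h4⟩ | ⟨h1, h2, h3, h4⟩
  · obtain rfl : r = 0 := h1
    rw [hera (κ, e) h2]
    by_cases hu : (κ, e) = d
    · rw [hu]
      exact hT
    · obtain ⟨v, hvm, hres⟩ := hans (κ, e) h2 hu ((hd1 (κ, e) h2).1 hodd)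
      refine (hm P hP _ (Zl_in hIn _) v hvm).1 true (hres.elim (fun h => ?_) id)
      refine ih _ ?_ _ rfl h
      exact ((card_erase_lt_of_mem hvm).trans (card_erase_lt_of_mem h2)).trans_eq hn
  · obtain ⟨rfl, -⟩ := (hd2 κ h1 e h2 r h3 h4).1 hodd
    have hO := (hl1 _ hvs hodd).1.1 hCE
    rw [hlow κ h1 e h2 h3] at hO ⊢
    obtain ⟨hf1, -, hf3⟩ := hf P full hfull
    have h5 := hf3 κ h1 e h2 h3 (P.side κ) 0
    have h6 : Odd (P.fr (Mach.low full κ e) (P.side κ) 0) := by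
      rw [← Nat.not_even_iff_odd, h5, hf1]
      intro h
      exact h.1 ⟨0, rfl⟩ ⟨rfl, Or.inr (Nat.mod_self _).symm⟩
    have h7 := (hg P hP s _ hIn (Zl_low κ e) (P.side κ)).2 h6
    obtain ⟨ht1, ht2, -⟩ := (hv P hP s _ hIn (Zl_low κ e)).1
    refine ((hk _ P.G (h0 P hP)).2 _ true (goal (P.side κ)) ?_ ?_ h7).1 hO
    · cases P.side κ
      · exact Or.inl rfl
      · exact Or.inr rfl
    · cases P.side κ
      · exact ht1
      · exact ht2
  · obtain rfl : κ = 0 := h1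
    obtain rfl : r = 0 := h2
    have h5 : e = 4 ∨ e = 5 ∨ e = 6 := by
      have h3' : 4 ≤ e := h3
      have h4' : e ≤ 6 := h4
      omega
    rcases h5 with rfl | rfl | rfl
    · exact absurd rfl hc
    · exact absurd rfl hz
    · exact absurd hodd (Nat.not_odd_iff_even.2 hd3)

end Pool.Agent.Chomp.SC
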