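import Pool.Agent.Work.MP_ff0f6a_lc.SC.Attack
import Pool.Agent.Work.MP_ff0f6a_lc.SC.Bip
import Pool.Agent.Work.MP_ff0f6a_lc.SC.Cx
import Pool.Agent.Work.MP_ff0f6a_lc.SC.Deg
import Pool.Agent.Work.MP_ff0f6a_lc.SC.Ehaven
import Pool.Agent.Work.MP_ff0f6a_lc.SC.Elem
import Pool.Agent.Work.MP_ff0f6a_lc.SC.Enc
import Pool.Agent.Work.MP_ff0f6a_lc.SC.Forced
import Pool.Agent.Work.MP_ff0f6a_lc.SC.Goal
import Pool.Agent.Work.MP_ff0f6a_lc.SC.Haven
import Pool.Agent.Work.MP_ff0f6a_lc.SC.Hot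
import Pool.Agent.Work.MP_ff0f6a_lc.SC.Kill
import Pool.Agent.Work.MP_ff0f6a_lc.SC.Lose
import Pool.Agent.Work.MP_ff0f6a_lc.SC.Mok
import Pool.Agent.Work.MP_ff0f6a_lc.SC.One
import Pool.Agent.Work.MP_ff0f6a_lc.SC.OneB
import Pool.Agent.Work.MP_ff0f6a_lc.SC.Pair
import Pool.Agent.Work.MP_ff0f6a_lc.SC.PairO
import Pool.Agent.Work.MP_ff0f6a_lc.SC.Paired
import Pool.Agent.Work.MP_ff0f6a_lc.SC.Qhaven
import Pool.Agent.Work.MP_ff0f6a_lc.SC.Red
import Pool.Agent.Work.MP_ff0f6a_lc.SC.Res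
import Pool.Agent.Work.MP_ff0f6a_lc.SC.Step
import Pool.Agent.Work.MP_ff0f6a_lc.SC.Tab0
import Pool.Agent.Work.MP_ff0f6a_lc.SC.Tab12
import Pool.Agent.Work.MP_ff0f6a_lc.SC.Tab34
import Pool.Agent.Work.MP_ff0f6a_lc.SC.Tab5
import Pool.Agent.Work.MP_ff0f6a_lc.SC.Triple
import Pool.Agent.Work.MP_ff0f6a_lc.SC.Vs
import Pool.Agent.Work.MP_ff0f6a_lc.SC.Zero
import Pool.Agent.Work.MP_ff0f6a_lc.SC.ZeroG
import Pool.Agent.Work.MP_ff0f6a_lc.SC.Zl

/-!
Assembly.
-/

namespace Pool.Agent.Chomp.SC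

theorem a_kill : S_kill := p_kill p_bip p_cx
theorem a_lose : S_lose := p_lose p_cx a_kill
theorem a_deg : S_deg := p_deg p_vs
theorem a_goal : S_goal := p_goal p_vs
theorem a_attack : S_attack := p_attack p_Gok p_vs a_deg a_goal (p_step p_fr) a_kill a_lose
theorem a_paired : S_paired :=
  p_paired p_Gok p_vs a_deg a_goal p_fr p_elem (p_pairO p_cx) (p_pair p_cx a_lose) a_lose
theorem a_move : S_move := p_move p_Gok p_vs a_deg a_lose
theorem a_forced : S_forced := p_forced p_Gok p_vs a_deg a_goal p_fr a_attack p_elem a_lose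
theorem a_zl : S_zl := p_zl p_Gok p_vs a_deg a_goal p_fr a_kill a_lose a_paired a_move
theorem a_mirror : S_mirror := p_mirror p_elem a_paired a_move
theorem a_haven : S_haven := p_haven p_elem a_mirror a_zl
theorem a_table : S_table := p_table p_mok fun ty h => by
  interval_cases ty
  exacts [p_tab0 p_mok, p_tab1 p_mok, p_tab2 p_mok, p_tab3 p_mok, p_tab4 p_mok, p_tab5 p_mok,
    p_tab6 p_mok]
theorem a_hot : S_hot := p_hot p_mok a_table p_elem
theorem a_trans : S_trans := p_trans p_mok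
theorem a_zero : S_zero :=
  p_zero p_mok a_table p_elem a_hot p_adm a_mirror a_move a_forced a_trans
    (p_zeroG p_mok a_table p_elem a_hot p_adm a_mirror a_move a_forced a_trans)
theorem a_qhaven : S_qhaven := p_qhaven p_mok a_mirror a_haven
theorem a_switch : S_switch :=
  b_switch p_mok a_table p_elem a_hot p_adm a_mirror a_qhaven (p_shaven p_mok a_mirror a_haven)
theorem a_one : S_one :=
  p_one p_mok a_table a_hot p_adm a_zl a_trans a_switch
    (b_oneG p_mok a_table p_elem a_hot p_adm a_mirror a_zl a_trans a_switch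
      (p_ehaven p_mok p_elem a_mirror a_zl a_qhaven))
theorem a_main : S_main :=
  p_main p_not_both p_mok a_table p_elem a_hot p_adm a_mirror a_move a_forced a_trans a_zero a_one

end Pool.Agent.Chomp.SC
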